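import Mathlib

/-!
# The inequality for profiles
-/

namespace Pool.Agent.TH219.DL

open MeasureTheory intervalIntegral

/-- a profile on `[0, l]`: concave, decreasing, nonnegative, with value `1` at `0` -/
structure Prof (l : ℝ) (f : ℝ → ℝ) : Prop where
  l0 : 0 < l
  conc : ∀ x y t : ℝ, 0 ≤ x → x ≤ l → 0 ≤ y → y ≤ l → 0 ≤ t → t ≤ 1 →
    (1 - t) * f x + t * f y ≤ f ((1 - t) * x + t * y)
  anti : ∀ x y : ℝ, 0 ≤ x → x ≤ y → y ≤ l → f y ≤ f x
  nonneg : ∀ x : ℝ, 0 ≤ x → x ≤ l → 0 ≤ f x
  one : f 0 = 1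

variable {l : ℝ} {f : ℝ → ℝ}

theorem Prof.int (hf : Prof l f) {a b : ℝ} (ha : 0 ≤ a) (hab : a ≤ b) (hb : b ≤ l) :
    IntervalIntegrable (fun t => f t ^ 2) volume a b := by
  apply AntitoneOn.intervalIntegrable
  rw [Set.uIcc_of_le hab]
  intro x hx y hy hxy
  exact pow_le_pow_left₀ (hf.nonneg y (ha.trans hy.1) (hy.2.trans hb))
    (hf.anti x y (ha.trans hx.1) hxy (hy.2.trans hb)) 2

/-- the integral of the square of a linear function -/
theorem lin_int (a b α β : ℝ) (hab : a < b) :
    ∫ t in a..b, (α + (β - α) * ((t - a) / (b - a))) ^ 2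
      = (b - a) * (α ^ 2 + α * β + β ^ 2) / 3 := by
  have hba : b - a ≠ 0 := by linarith
  have h1 : ∀ t : ℝ, (α + (β - α) * ((t - a) / (b - a))) ^ 2
      = α ^ 2 + 2 * α * ((β - α) / (b - a)) * (t - a) + ((β - α) / (b - a)) ^ 2 * (t - a) ^ 2 := by
    intro t
    field_simp
    ring
  simp_rw [h1]
  have h2 : ∀ t ∈ Set.uIcc a b, HasDerivAt (fun t : ℝ => α ^ 2 * (t - a)
      + α * ((β - α) / (b - a)) * (t - a) ^ 2 + ((β - α) / (b - a)) ^ 2 * (t - a) ^ 3 / 3)
      (α ^ 2 + 2 * α * ((β - α) / (b - a)) * (t - a) + ((β - α) / (b - a)) ^ 2 * (t - a) ^ 2) t := by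
    intro t _
    have e : HasDerivAt (fun t : ℝ => t - a) 1 t := (hasDerivAt_id t).sub_const a
    have e2 := ((e.const_mul (α ^ 2)).add ((e.pow 2).const_mul (α * ((β - α) / (b - a))))).add
      (((e.pow 3).const_mul (((β - α) / (b - a)) ^ 2)).div_const 3)
    refine (e2.congr_deriv ?_)
    simp
    ring
  rw [intervalIntegral.integral_eq_sub_of_hasDerivAt h2]
  · field_simp
    ring
  · apply Continuous.intervalIntegrable
    fun_prop

/-- lower bound by the chord -/
theorem Prof.low (hf : Prof l f) {a b : ℝ} (ha : 0 ≤ a) (hab : a < b) (hb : b ≤ l) :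
    (b - a) * (f a ^ 2 + f a * f b + f b ^ 2) / 3 ≤ ∫ t in a..b, f t ^ 2 := by
  rw [← lin_int a b (f a) (f b) hab]
  apply intervalIntegral.integral_mono_on hab.le
  · apply Continuous.intervalIntegrable
    fun_prop
  · exact hf.int ha hab.le hb
  · intro t ht
    have hba : 0 < b - a := by linarith
    have h0 : 0 ≤ (t - a) / (b - a) := div_nonneg (by linarith [ht.1]) hba.le
    have h1 : (t - a) / (b - a) ≤ 1 := by rw [div_le_one hba]; linarith [ht.2]
    have h := hf.conc a b ((t - a) / (b - a)) ha (by linarith) (by linarith) hb h0 h1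
    have e : (1 - (t - a) / (b - a)) * a + (t - a) / (b - a) * b = t := by
      field_simp; ring
    rw [e] at h
    apply pow_le_pow_left₀ _ _ 2
    · have := mul_nonneg (sub_nonneg.2 h1) (hf.nonneg a ha (by linarith))
      have := mul_nonneg h0 (hf.nonneg b (by linarith) hb)
      linarith
    · linarith

/-- upper bound by the extended chord -/
theorem Prof.upp (hf : Prof l f) {s : ℝ} (hs : 0 < s) (hsl : s ≤ l) :
    ∫ t in (s / 2)..s, f t ^ 2
      ≤ (s - s / 2) * (f (s / 2) ^ 2 + f (s / 2) * (2 * f (s / 2) - 1)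
        + (2 * f (s / 2) - 1) ^ 2) / 3 := by
  rw [← lin_int (s / 2) s (f (s / 2)) (2 * f (s / 2) - 1) (by linarith)]
  apply intervalIntegral.integral_mono_on (by linarith)
  · exact hf.int (by linarith) (by linarith) hsl
  · apply Continuous.intervalIntegrable
    fun_prop
  · intro t ht
    have ht0 : 0 < t := by linarith [ht.1]
    have h0 : 0 ≤ (s / 2) / t := div_nonneg (by linarith) ht0.le
    have h1 : (s / 2) / t ≤ 1 := by rw [div_le_one ht0]; exact ht.1
    have h := hf.conc 0 t ((s / 2) / t) le_rfl hf.l0.le ht0.le (ht.2.trans hsl) h0 h1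
    have e : (1 - (s / 2) / t) * 0 + (s / 2) / t * t = s / 2 := by
      field_simp; ring
    rw [e, hf.one] at h
    apply pow_le_pow_left₀ (hf.nonneg t ht0.le (ht.2.trans hsl))
    have h3 : (s / 2) * f t ≤ (f (s / 2) - 1) * t + s / 2 := by
      have h4 : ((1 - s / 2 / t) * 1 + s / 2 / t * f t) * t ≤ f (s / 2) * t :=
        mul_le_mul_of_nonneg_right h ht0.le
      have h5 : ((1 - s / 2 / t) * 1 + s / 2 / t * f t) * t = t - s / 2 + s / 2 * f t := by
        field_simp
      rw [h5] at h4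
      linarith
    have h6 : f (s / 2) + (2 * f (s / 2) - 1 - f (s / 2)) * ((t - s / 2) / (s - s / 2))
        = ((f (s / 2) - 1) * t + s / 2) / (s / 2) := by
      field_simp
      ring
    rw [h6, le_div_iff₀ (by linarith)]
    linarith

theorem Prof.half (hf : Prof l f) {s : ℝ} (hs : 0 < s) (hsl : s ≤ l) :
    f s ≤ 2 * f (s / 2) - 1 := by
  have h := hf.conc 0 s (1 / 2) le_rfl hf.l0.le hs.le hsl (by norm_num) (by norm_num)
  have e : (1 - 1 / 2 : ℝ) * 0 + 1 / 2 * s = s / 2 := by ring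
  rw [e, hf.one] at h
  linarith

theorem Prof.le_one (hf : Prof l f) {s : ℝ} (hs : 0 ≤ s) (hsl : s ≤ l) : f s ≤ 1 := by
  have := hf.anti 0 s le_rfl hs hsl
  rwa [hf.one] at this

theorem Prof.thr (hf : Prof l f) {s : ℝ} (hs : 0 < s) (hsl : s ≤ l)
    (h : 3 / 2 * s < 2 * s * f s ^ 2 + 4 * ∫ t in (s / 2)..s, f t ^ 2) :
    0.6186 * s ≤ ∫ t in (0 : ℝ)..s, f t ^ 2 := by
  have hsplit : ∫ t in (0 : ℝ)..s, f t ^ 2
      = (∫ t in (0 : ℝ)..(s / 2), f t ^ 2) + ∫ t in (s / 2)..s, f t ^ 2 :=
    (intervalIntegral.integral_add_adjacent_intervals (hf.int le_rfl (by linarith) (by linarith))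
      (hf.int (by linarith) (by linarith) hsl)).symm
  have h1 := hf.low (a := 0) (b := s / 2) le_rfl (by linarith) (by linarith)
  have h2 := hf.low (a := s / 2) (b := s) (by linarith) (by linarith) hsl
  have h3 := hf.upp hs hsl
  have h4 := hf.half hs hsl
  have h5 := hf.nonneg s hs.le hsl
  have h6 := hf.le_one (s := s / 2) (by linarith) (by linarith)
  rw [hf.one] at h1
  set g := f (s / 2)
  set b := f s
  set J := ∫ t in (s / 2)..s, f t ^ 2
  set J0 := ∫ t in (0 : ℝ)..(s / 2), f t ^ 2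
  rw [hsplit]
  -- divide by s
  obtain ⟨j, hj⟩ : ∃ j, J = s * j := ⟨J / s, by field_simp⟩
  obtain ⟨i, hi⟩ : ∃ i, J0 = s * i := ⟨J0 / s, by field_simp⟩
  rw [hj] at h h2 h3 ⊢
  rw [hi] at h1 ⊢
  have k0 : (1 + g + g ^ 2) / 6 ≤ i := by
    have : s * ((1 + g + g ^ 2) / 6) ≤ s * i := by linarith
    exact le_of_mul_le_mul_left this hs
  have k1 : 3 / 2 < 2 * b ^ 2 + 4 * j := by
    have : s * (3 / 2) < s * (2 * b ^ 2 + 4 * j) := by linarith
    exact lt_of_mul_lt_mul_left this hs.le
  have k2 : (g ^ 2 + g * b + b ^ 2) / 6 ≤ j := by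
    have : s * ((g ^ 2 + g * b + b ^ 2) / 6) ≤ s * j := by linarith
    exact le_of_mul_le_mul_left this hs
  have k3 : j ≤ (7 * g ^ 2 - 5 * g + 1) / 6 := by
    have : s * j ≤ s * ((7 * g ^ 2 - 5 * g + 1) / 6) := by linarith
    exact le_of_mul_le_mul_left this hs
  have k4 : 0.776 ≤ g := by
    by_contra hcon
    push Not at hcon
    have hg : 1 / 2 ≤ g := by linarith
    have hb2 : b ^ 2 ≤ (2 * g - 1) ^ 2 := pow_le_pow_left₀ h5 h4 2
    nlinarith [mul_nonneg (sub_nonneg.2 hg) (sub_nonneg.2 hcon.le)]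
  have k5 : 0.2225 ≤ j := by
    rcases le_or_gt b 0.552 with hb | hb
    · have : b ^ 2 ≤ 0.552 ^ 2 := pow_le_pow_left₀ h5 hb 2
      linarith
    · have e1 : 0.776 ^ 2 ≤ g ^ 2 := pow_le_pow_left₀ (by norm_num) k4 2
      have e2 : 0.552 ^ 2 ≤ b ^ 2 := pow_le_pow_left₀ (by norm_num) hb.le 2
      have e3 : 0.776 * 0.552 ≤ g * b := mul_le_mul k4 hb.le (by norm_num) (by linarith)
      linarith
  have k6 : 0.3963 ≤ i := by
    have e1 : 0.776 ^ 2 ≤ g ^ 2 := pow_le_pow_left₀ (by norm_num) k4 2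
    linarith
  nlinarith

/-- **the profile inequality** -/
theorem Prof.main (hf : Prof l f) :
    ∃ s : ℝ, l / 2 ≤ s ∧ s ≤ l ∧ 0.412 * (3 / 2) * s < ∫ t in (0 : ℝ)..l, f t ^ 2 ∧
      0.412 * (2 * s * f s ^ 2 + 4 * ∫ t in (s / 2)..s, f t ^ 2) < ∫ t in (0 : ℝ)..l, f t ^ 2 := by
  have hl := hf.l0
  have hx1 := hf.low (a := 0) (b := l) le_rfl hl le_rfl
  rw [hf.one] at hx1
  have hb0 := hf.nonneg l hl.le le_rfl
  have hb1 := hf.le_one (s := l) hl.le le_rfl
  set x := ∫ t in (0 : ℝ)..l, f t ^ 2 with hx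
  have hx3 : l / 3 ≤ x := by
    have : 0 ≤ (l - 0) * (1 * f l + f l ^ 2) / 3 := by
      have : 0 ≤ 1 * f l + f l ^ 2 := by positivity
      have h' : 0 ≤ (l - 0) := by linarith
      positivity
    have e : (l - 0) * (1 ^ 2 + 1 * f l + f l ^ 2) / 3 = l / 3 + (l - 0) * (1 * f l + f l ^ 2) / 3 := by
      ring
    rw [e] at hx1
    linarith
  rcases le_or_gt x (0.618 * l) with hcase | hcase
  · -- the threshold value
    refine ⟨x / 0.6185, ?_, ?_, ?_, ?_⟩
    · rw [le_div_iff₀ (by norm_num)]; linarith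
    · rw [div_le_iff₀ (by norm_num)]; linarith
    · have : 0 < x := by linarith
      have e : 0.412 * (3 / 2) * (x / 0.6185) = x * (0.618 / 0.6185) := by ring
      rw [e]
      have : (0.618 / 0.6185 : ℝ) < 1 := by norm_num
      nlinarith
    · have hx0 : 0 < x := by linarith
      set s := x / 0.6185 with hs
      have hs0 : 0 < s := by positivity
      have hsl : s ≤ l := by rw [hs, div_le_iff₀ (by norm_num)]; linarith
      have hxs : x = 0.6185 * s := by rw [hs]; field_simp
      by_contra hcon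
      push Not at hcon
      have h1 : 3 / 2 * s < 2 * s * f s ^ 2 + 4 * ∫ t in (s / 2)..s, f t ^ 2 := by
        by_contra h2
        push Not at h2
        nlinarith
      have h3 := hf.thr hs0 hsl h1
      have h4 : ∫ t in (0 : ℝ)..s, f t ^ 2 ≤ x := by
        rw [hx, ← intervalIntegral.integral_add_adjacent_intervals
          (hf.int le_rfl hs0.le hsl) (hf.int hs0.le hsl le_rfl)]
        have : 0 ≤ ∫ t in s..l, f t ^ 2 :=
          intervalIntegral.integral_nonneg hsl fun t _ => sq_nonneg _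
        linarith
      nlinarith
  · -- one of `l`, `l / 2`
    by_contra hcon
    push Not at hcon
    have c1 := hcon l (by linarith) le_rfl (by linarith)
    have c2 := hcon (l / 2) le_rfl (by linarith) (by linarith)
    have q1 := hf.low (a := l / 2) (b := l) (by linarith) (by linarith) le_rfl
    have q2 := hf.half hl le_rfl
    have hh1 := hf.le_one (s := l / 2) (by linarith) (by linarith)
    -- integrals
    have s1 : x = (∫ t in (0 : ℝ)..(l / 2), f t ^ 2) + ∫ t in (l / 2)..l, f t ^ 2 :=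
      (intervalIntegral.integral_add_adjacent_intervals (hf.int le_rfl (by linarith) (by linarith))
        (hf.int (by linarith) (by linarith) le_rfl)).symm
    have s2 : ∫ t in (0 : ℝ)..(l / 2), f t ^ 2
        = (∫ t in (0 : ℝ)..(l / 2 / 2), f t ^ 2) + ∫ t in (l / 2 / 2)..(l / 2), f t ^ 2 :=
      (intervalIntegral.integral_add_adjacent_intervals (hf.int le_rfl (by linarith) (by linarith))
        (hf.int (by linarith) (by linarith) (by linarith))).symm
    have s3 : ∫ t in (l / 2 / 2)..(l / 2), f t ^ 2 ≤ (l / 4) * f (l / 4) ^ 2 := by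
      calc ∫ t in (l / 2 / 2)..(l / 2), f t ^ 2 ≤ ∫ _ in (l / 2 / 2)..(l / 2), f (l / 4) ^ 2 := by
            apply intervalIntegral.integral_mono_on (by linarith)
              (hf.int (by linarith) (by linarith) (by linarith)) intervalIntegrable_const
            intro t ht
            exact pow_le_pow_left₀ (hf.nonneg t (by linarith [ht.1]) (by linarith [ht.2]))
              (hf.anti _ _ (by linarith) (by linarith [ht.1]) (by linarith [ht.2])) 2
        _ = _ := by rw [intervalIntegral.integral_const, smul_eq_mul]; ring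
    have s4 : (l / 4) * f (l / 4) ^ 2 ≤ ∫ t in (0 : ℝ)..(l / 2 / 2), f t ^ 2 := by
      calc (l / 4) * f (l / 4) ^ 2 = ∫ _ in (0 : ℝ)..(l / 2 / 2), f (l / 4) ^ 2 := by
            rw [intervalIntegral.integral_const, smul_eq_mul]; ring
        _ ≤ _ := by
            apply intervalIntegral.integral_mono_on (by linarith) intervalIntegrable_const
              (hf.int (by linarith) (by linarith) (by linarith))
            intro t ht
            exact pow_le_pow_left₀ (hf.nonneg _ (by linarith) (by linarith))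
              (hf.anti _ _ ht.1 (by linarith [ht.2]) (by linarith)) 2
    have s5 : (l / 2) * f (l / 2) ^ 2 ≤ ∫ t in (0 : ℝ)..(l / 2), f t ^ 2 := by
      calc (l / 2) * f (l / 2) ^ 2 = ∫ _ in (0 : ℝ)..(l / 2), f (l / 2) ^ 2 := by
            rw [intervalIntegral.integral_const, smul_eq_mul]; ring
        _ ≤ _ := by
            apply intervalIntegral.integral_mono_on (by linarith) intervalIntegrable_const
              (hf.int (by linarith) (by linarith) (by linarith))
            intro t ht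
            exact pow_le_pow_left₀ (hf.nonneg _ (by linarith) (by linarith))
              (hf.anti _ _ ht.1 (by linarith [ht.2]) (by linarith)) 2
    set h := f (l / 2) with hh
    set b := f l with hb
    set y := ∫ t in (l / 2)..l, f t ^ 2 with hy
    set q := ∫ t in (0 : ℝ)..(l / 2), f t ^ 2 with hq
    set r := ∫ t in (l / 2 / 2)..(l / 2), f t ^ 2 with hr
    have hh2 : 1 / 2 ≤ h := by linarith
    -- normalise
    obtain ⟨y', hy'⟩ : ∃ j, y = l * j := ⟨y / l, by field_simp⟩
    obtain ⟨q', hq'⟩ : ∃ j, q = l * j := ⟨q / l, by field_simp⟩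
    have t0 : 2 * r ≤ q := by linarith
    have t1 : q' + y' ≤ 0.412 * (2 * b ^ 2 + 4 * y') := by
      have : l * (q' + y') ≤ l * (0.412 * (2 * b ^ 2 + 4 * y')) := by
        rw [hy'] at c1 s1; rw [hq'] at s1; linarith
      exact le_of_mul_le_mul_left this hl
    have t2 : q' + y' ≤ 0.412 * (h ^ 2 + 2 * q') := by
      have : l * (q' + y') ≤ l * (0.412 * (h ^ 2 + 2 * q')) := by
        rw [hy'] at s1; rw [hq'] at s1 t0; linarith
      exact le_of_mul_le_mul_left this hl
    have t3 : h ^ 2 / 2 ≤ q' := by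
      have : l * (h ^ 2 / 2) ≤ l * q' := by rw [hq'] at s5; linarith
      exact le_of_mul_le_mul_left this hl
    have t4 : (h ^ 2 + h * b + b ^ 2) / 6 ≤ y' := by
      have : l * ((h ^ 2 + h * b + b ^ 2) / 6) ≤ l * y' := by rw [hy'] at q1; linarith
      exact le_of_mul_le_mul_left this hl
    have u1 : b ^ 2 + h * b ≤ 0.944 * h ^ 2 := by linarith
    have u2 : 0.352 * h ^ 2 ≤ b ^ 2 := by linarith
    have u3 : 0.5932 * h ≤ b := by
      by_contra hc
      push Not at hc
      have : b ^ 2 < (0.5932 * h) ^ 2 := pow_lt_pow_left₀ hc hb0 (by norm_num)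
      have e3 : 0 < h ^ 2 := by positivity
      have e4 : (0.5932 * h) ^ 2 = 0.35188624 * h ^ 2 := by ring
      linarith
    have hh0 : 0 < h := by linarith
    have e1 : (0.5932 * h) ^ 2 ≤ b ^ 2 := pow_le_pow_left₀ (by positivity) u3 2
    have e2 : h * (0.5932 * h) ≤ h * b := mul_le_mul_of_nonneg_left u3 hh0.le
    have e3 : 0 < h ^ 2 := by positivity
    have e4 : (0.5932 * h) ^ 2 = 0.35188624 * h ^ 2 := by ring
    have e5 : h * (0.5932 * h) = 0.5932 * h ^ 2 := by ring
    linarith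

end Pool.Agent.TH219.DL
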