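import Pool.Agent.TH219.DL.Double
import Pool.Agent.TH219.DL.Real
import Pool.Agent.H748R2.KB.TBM

/-!
# Every convex body has a double-lattice packing of density at least `0.412`
-/

namespace Pool.Agent.TH219.DL

open MeasureTheory Filter Topology
open Pool.Agent.H349R2.Tet (lat dt Ov tr)
open scoped Pointwise

/-- area of the set of points with a chord of length `c` -/
noncomputable def ar (K : Set (Fin 3 → ℝ)) (c : ℝ) : ℝ := (volume (G K c)).toReal

/-- the normalised profile -/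
noncomputable def pf (K : Set (Fin 3 → ℝ)) (c : ℝ) : ℝ := Real.sqrt (ar K c / ar K 0)

theorem bm {K : Set (Fin 3 → ℝ)} (hK : IsCompact K) (hc : Convex ℝ K) {x y t : ℝ}
    (hx : 0 ≤ x) (hy : 0 ≤ y) (hxn : (G K x).Nonempty) (hyn : (G K y).Nonempty)
    (h0 : 0 ≤ t) (h1 : t ≤ 1) :
    (1 - t) * Real.sqrt (ar K x) + t * Real.sqrt (ar K y)
      ≤ Real.sqrt (ar K ((1 - t) * x + t * y)) := by
  have hBM := Pool.Agent.H748R2.KB.t_BM 2 ((1 - t) • G K x) (t • G K y)
    ((G_compact hK hx).smul _) ((G_compact hK hy).smul _) (hxn.smul_set) (hyn.smul_set)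
    ((1 - t) * Real.sqrt (ar K x)) (t * Real.sqrt (ar K y))
    (mul_nonneg (by linarith) (Real.sqrt_nonneg _)) (mul_nonneg h0 (Real.sqrt_nonneg _))
  have e : ∀ (s : ℝ) (S : Set (Fin 2 → ℝ)), 0 ≤ s → (s * Real.sqrt (volume S).toReal) ^ 2
      ≤ (volume (s • S)).toReal := by
    intro s S hs
    rw [Measure.addHaar_smul, mul_pow, Real.sq_sqrt ENNReal.toReal_nonneg]
    have : Module.finrank ℝ (Fin 2 → ℝ) = 2 := by simp
    rw [this, abs_of_nonneg (by positivity), ENNReal.toReal_mul,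
      ENNReal.toReal_ofReal (by positivity)]
  have h3 := hBM (e _ _ (by linarith)) (e _ _ h0)
  have hcz : 0 ≤ (1 - t) * x + t * y :=
    add_nonneg (mul_nonneg (by linarith) hx) (mul_nonneg h0 hy)
  have h4 : ((1 - t) * Real.sqrt (ar K x) + t * Real.sqrt (ar K y)) ^ 2
      ≤ ar K ((1 - t) * x + t * y) := by
    refine h3.trans ?_
    apply ENNReal.toReal_mono (G_compact hK hcz).measure_ne_top
    apply measure_mono
    rintro _ ⟨_, ⟨p, hp, rfl⟩, _, ⟨q, hq, rfl⟩, rfl⟩
    exact G_conv hc hp hq (by linarith) h0 (by ring)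
  exact Real.le_sqrt_of_sq_le h4

theorem prof {K : Set (Fin 3 → ℝ)} (hK : IsCompact K) (hc : Convex ℝ K) {l : ℝ}
    {x0 : Fin 2 → ℝ} (hl : 0 < l) (hx0 : x0 ∈ G K l) (ha0 : 0 < ar K 0) : Prof l (pf K) := by
  refine ⟨hl, ?_, ?_, ?_, ?_⟩
  · intro x y t hx hxl hy hyl h0 h1
    have h := bm hK hc hx hy ⟨x0, G_anti hc hx0 hx hxl⟩ ⟨x0, G_anti hc hx0 hy hyl⟩ h0 h1
    unfold pf
    rw [Real.sqrt_div' _ ha0.le, Real.sqrt_div' _ ha0.le, Real.sqrt_div' _ ha0.le]
    have hs := Real.sqrt_pos.2 ha0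
    rw [mul_div_assoc', mul_div_assoc', ← add_div]
    exact div_le_div_of_nonneg_right h hs.le
  · intro x y hx hxy hyl
    unfold pf
    apply Real.sqrt_le_sqrt
    apply div_le_div_of_nonneg_right _ ha0.le
    apply ENNReal.toReal_mono (G_compact hK hx).measure_ne_top
    apply measure_mono
    intro p hp
    exact G_anti hc hp hx hxy
  · intro x _ _
    exact Real.sqrt_nonneg _
  · unfold pf
    rw [div_self ha0.ne', Real.sqrt_one]

theorem vol_pf {K : Set (Fin 3 → ℝ)} (hK : IsCompact K) (ha0 : 0 < ar K 0) {c : ℝ}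
    (h0 : 0 ≤ c) : volume (G K c) = ENNReal.ofReal (ar K 0 * pf K c ^ 2) := by
  unfold pf
  rw [Real.sq_sqrt (div_nonneg (show 0 ≤ ar K c from ENNReal.toReal_nonneg) ha0.le), mul_div_cancel₀ _ ha0.ne']
  exact (ENNReal.ofReal_toReal (G_compact hK h0).measure_ne_top).symm

theorem lint_pf {K : Set (Fin 3 → ℝ)} (hK : IsCompact K) {l : ℝ} (hp : Prof l (pf K))
    (ha0 : 0 < ar K 0) {a b : ℝ} (ha : 0 ≤ a) (hab : a ≤ b) (hb : b ≤ l) :
    ∫⁻ c in Set.Ioc a b, volume (G K c) = ENNReal.ofReal (ar K 0 * ∫ t in a..b, pf K t ^ 2) := by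
  rw [← intervalIntegral.integral_const_mul, intervalIntegral.integral_of_le hab,
    ofReal_integral_eq_lintegral_ofReal]
  · apply setLIntegral_congr_fun measurableSet_Ioc
    intro c hc
    exact vol_pf hK ha0 (ha.trans hc.1.le)
  · have := (hp.int ha hab hb).const_mul (ar K 0)
    rw [intervalIntegrable_iff_integrableOn_Ioc_of_le hab] at this
    exact this
  · exact Filter.Eventually.of_forall fun c => mul_nonneg ha0.le (sq_nonneg _)

theorem adm_scale {P : Set (Fin 2 → ℝ)} {u w : Fin 2 → ℝ} (hne : P.Nonempty) (h : Adm2 P u w)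
    {k : ℝ} (hk : 1 ≤ k) : Adm2 P (k • u) (k • w) := by
  intro m n hmn
  obtain ⟨p, q, hpq, hf⟩ := h m n hmn
  refine ⟨p, q, hpq, fun x hx y hy => ?_⟩
  obtain ⟨z, hz⟩ := hne
  have h0 := hf z hz z hz
  simp only [sub_self, mul_zero, add_zero] at h0
  have h1 := hf x hx y hy
  simp only [Pi.smul_apply, smul_eq_mul]
  have e : p * (m * (k * u 0) + n * (k * w 0)) + q * (m * (k * u 1) + n * (k * w 1))
      = k * (p * (m * u 0 + n * w 0) + q * (m * u 1 + n * w 1)) := by ring
  rw [e]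
  nlinarith

/-- the double-lattice packing of density at least `0.412` -/
theorem double_low {K : Set (Fin 3 → ℝ)} (hK : IsCompact K) (hc : Convex ℝ K)
    (hne : (interior K).Nonempty) :
    ∃ (v : Fin 3 → ℝ) (b : Fin 3 → (Fin 3 → ℝ)), 0 < dt b ∧
      (∀ s ∈ lat b, s ≠ 0 → ¬ Ov K s) ∧
      (∀ s ∈ lat b, Disjoint (interior K) (interior (tr (rfl' K v) s))) ∧
      ENNReal.ofReal 0.412 * ENNReal.ofReal (dt b) ≤ 2 * volume K := by
  obtain ⟨l, x0, hl, hx0, hmax⟩ := longest hK hne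
  have hPc := shadow_compact hK
  have hPi := shadow_interior hne
  have hPpos : 0 < volume (G K 0) :=
    lt_of_lt_of_le (isOpen_interior.measure_pos volume hPi) (measure_mono interior_subset)
  have ha0 : 0 < ar K 0 := ENNReal.toReal_pos hPpos.ne' hPc.measure_ne_top
  have hp := prof hK hc hl hx0 ha0
  obtain ⟨s, hs1, hs2, hs3, hs4⟩ := hp.main
  set X := ∫ t in (0 : ℝ)..l, pf K t ^ 2 with hX
  have hs0 : 0 < s := by linarith
  have hXpos : 0 < X := by
    have : 0 < 0.412 * (3 / 2) * s := by positivity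
    linarith
  set a0 := ar K 0 with ha0def
  set D := a0 * X / (0.412 * s) with hD
  have hDpos : 0 < D := by positivity
  obtain ⟨u, w, hD0, hD0le, hadm⟩ := fary (shadow_convex hc) hPc hPi
  set D0 := u 0 * w 1 - u 1 * w 0 with hD0def
  have hD0le' : D0 ≤ 3 / 2 * a0 := by
    have e : volume (G K 0) = ENNReal.ofReal a0 :=
      (ENNReal.ofReal_toReal hPc.measure_ne_top).symm
    rw [e, ← ENNReal.ofReal_mul (by norm_num), ENNReal.ofReal_le_ofReal_iff (by positivity)]
      at hD0le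
    exact hD0le
  have hDD0 : D0 ≤ D := by
    refine hD0le'.trans ?_
    rw [hD, le_div_iff₀ (by positivity)]
    nlinarith
  set k := Real.sqrt (D / D0) with hk
  have hk1 : 1 ≤ k := by
    rw [hk]
    apply Real.one_le_sqrt.2
    rw [one_le_div hD0]; exact hDD0
  have hk2 : k ^ 2 * D0 = D := by
    rw [hk, Real.sq_sqrt (by positivity), div_mul_cancel₀ _ hD0.ne']
  have hadm' := adm_scale (hPi.mono interior_subset) hadm hk1
  have hdet : (k • u) 0 * (k • w) 1 - (k • u) 1 * (k • w) 0 = D := by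
    rw [← hk2, hD0def]; simp; ring
  have hlt : ∫⁻ x, Ph K s x < ENNReal.ofReal (D / 4) := by
    rw [lint_Ph hK hs0]
    have e1 : ∫⁻ τ in Set.Ioo (s / 2) s, volume (G K τ)
        = ENNReal.ofReal (a0 * ∫ t in (s / 2)..s, pf K t ^ 2) := by
      rw [← lint_pf hK hp ha0 (by linarith) (by linarith) hs2]
      exact setLIntegral_congr Ioo_ae_eq_Ioc
    have hint : 0 ≤ ∫ t in (s / 2)..s, pf K t ^ 2 :=
      intervalIntegral.integral_nonneg (by linarith) fun t _ => sq_nonneg _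
    rw [e1, vol_pf hK ha0 hs0.le, ← ENNReal.ofReal_mul (by norm_num),
      ← ENNReal.ofReal_mul (by positivity), ← ENNReal.ofReal_add (by positivity) (by positivity),
      ENNReal.ofReal_lt_ofReal_iff (by positivity)]
    rw [hD]
    have e2 : 1 / 2 * (a0 * pf K s ^ 2) + 1 / s * (a0 * ∫ t in (s / 2)..s, pf K t ^ 2)
        = a0 * (0.412 * (2 * s * pf K s ^ 2 + 4 * ∫ t in (s / 2)..s, pf K t ^ 2))
          / (0.412 * s) / 4 := by
      field_simp
      ring
    rw [e2]
    apply div_lt_div_of_pos_right _ (by norm_num)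
    apply div_lt_div_of_pos_right _ (by positivity)
    exact mul_lt_mul_of_pos_left hs4 ha0
  obtain ⟨v, b, hb1, hb2, hb3⟩ := double_pack hK hc hs0
    (fun x c hc0 hx => (hmax x c hc0 hx).trans (by linarith)) (by rw [hdet]; exact hDpos)
    hadm' (by rw [hdet]; exact hlt)
  rw [hdet] at hb1
  refine ⟨v, b, by rw [hb1]; positivity, hb2, hb3, ?_⟩
  have hvol : ENNReal.ofReal (a0 * X) ≤ volume K := by
    refine le_trans ?_ (vol_ge hK hc)
    rw [hX, ← lint_pf hK hp ha0 le_rfl hl.le le_rfl]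
    exact lintegral_mono_set fun c hcc => le_of_lt hcc.1
  rw [hb1, ← ENNReal.ofReal_mul (by norm_num)]
  have e3 : 0.412 * (2 * s * D) = 2 * (a0 * X) := by
    rw [hD]; field_simp
  rw [e3, ENNReal.ofReal_mul (by norm_num)]
  have e4 : ENNReal.ofReal 2 = 2 := by simp
  rw [e4]
  gcongr

end Pool.Agent.TH219.DL
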