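import Pool.Agent.TH219.DL.Defs
import Pool.Agent.TH219.DL.Profile

/-!
# From the constructions to the density functions
-/

namespace Pool.Agent.TH219.DL

open MeasureTheory Filter
open scoped ENNReal
open Pool.Agent.H349R2.Tet

theorem dL_le_dT (K : Set V) : dL K ≤ dT K := by
  unfold dL
  refine iSup₂_le fun b hb => ?_
  exact le_iSup₂_of_le (famL b) ⟨fun p hp => hp.1, hb.2⟩ le_rfl

theorem dT_le_dTs (K : Set V) : dT K ≤ dTs K := by
  unfold dT
  refine iSup₂_le fun S hS => ?_
  exact le_iSup₂_of_le S hS.2 le_rfl

theorem dLs_le_dTs (K : Set V) : dLs K ≤ dTs K := by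
  unfold dLs
  refine iSup_le fun v => iSup₂_le fun b hb => ?_
  exact le_iSup₂_of_le (famLs v b) hb.2 le_rfl

theorem mem_false (K : Set V) (c : V) : mem K (false, c) = tr K c := by
  unfold mem tr
  simp

theorem mem_true (K : Set V) (v u : V) : mem K (true, v + u) = tr (rfl' K v) u := by
  unfold mem tr rfl'
  rw [← Set.image_comp]
  apply Set.image_congr
  intro x _
  simp only [Function.comp]
  simp only [if_true]
  abel

theorem packs_famL (K : Set V) (b : Fin 3 → V) :
    (LinearIndependent ℝ b ∧ IsPack K (famL b)) ↔ Packs K b := by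
  unfold Packs
  refine and_congr_right fun _ => ⟨fun h u hu v hv huv => ?_, fun h p hp q hq hpq => ?_⟩
  · have := h (false, u) ⟨rfl, hu⟩ (false, v) ⟨rfl, hv⟩ (fun e => huv (congrArg Prod.snd e))
    rwa [mem_false, mem_false] at this
  · obtain ⟨p1, p2⟩ := p
    obtain ⟨q1, q2⟩ := q
    obtain ⟨rfl, hp⟩ := hp
    obtain ⟨rfl, hq⟩ := hq
    rw [mem_false, mem_false]
    exact h p2 hp q2 hq (fun e => hpq (by rw [show p2 = q2 from e]))

theorem den_famL (K : Set V) (b : Fin 3 → V) : den K (famL b) = dens K b := by
  unfold den dens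
  congr 1
  funext r
  congr 1
  let e : lat b ≃ famL b :=
    { toFun := fun u => ⟨(false, u.1), rfl, u.2⟩
      invFun := fun p => ⟨p.1.2, p.2.2⟩
      left_inv := fun u => rfl
      right_inv := fun p => by
        apply Subtype.ext
        have : p.1.1 = false := p.2.1
        exact Prod.ext this.symm rfl }
  rw [← e.tsum_eq]
  apply tsum_congr
  intro u
  show volume (mem K (false, u.1) ∩ Bl r) = _
  rw [mem_false]

theorem dL_eq (K : Set V) : dL K = deltaL K := by
  unfold dL deltaL
  apply iSup_congr
  intro b
  apply iSup_congr_Prop (packs_famL K b)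
  intro _
  exact den_famL K b

theorem interior_mem (K : Set V) (p : Bool × V) : interior (mem K p) = mem (interior K) p := by
  obtain ⟨s, c⟩ := p
  cases s
  · rw [mem_false, mem_false]
    exact pack_interior_tr K c
  · have h1 : ∀ S : Set V, mem S (true, c) = (Homeomorph.subLeft c) '' S := by
      intro S
      unfold mem
      apply Set.image_congr
      intro x _
      simp only [if_true, Homeomorph.subLeft_apply]
      abel
    rw [h1, h1, Homeomorph.image_interior]

theorem famLs_pack {K : Set V} {v : V} {b : Fin 3 → V}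
    (h1 : ∀ s ∈ lat b, s ≠ 0 → ¬ Ov K s)
    (h2 : ∀ s ∈ lat b, Disjoint (interior K) (interior (tr (rfl' K v) s))) :
    IsPack K (famLs v b) := by
  have key1 : ∀ x ∈ interior K, ∀ y ∈ interior K, ∀ s ∈ lat b, x - y = s → s = 0 := by
    intro x hx y hy s hs hxy
    by_contra hne
    apply h1 s hs hne
    refine ⟨x, hx, ?_⟩
    rw [← hxy, sub_sub_cancel]; exact hy
  have key2 : ∀ x ∈ interior K, ∀ y ∈ interior K, ∀ s ∈ lat b, x + y = v + s → False := by
    intro x hx y hy s hs hxy
    have := h2 s hs
    rw [← mem_true, interior_mem, Set.disjoint_left] at this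
    apply this hx
    refine ⟨y, hy, ?_⟩
    simp only [if_true]
    rw [← hxy]; abel
  rintro ⟨s, c⟩ hp ⟨s', c'⟩ hq hpq
  rw [interior_mem, interior_mem, Set.disjoint_left]
  rintro X ⟨x, hx, hxX⟩ ⟨y, hy, hyX⟩
  rcases hp with ⟨hs, hc⟩ | ⟨hs, u, hu, hc⟩ <;> rcases hq with ⟨hs', hc'⟩ | ⟨hs', u', hu', hc'⟩
  · have hs : s = false := hs
    have hs' : s' = false := hs'
    subst hs hs'
    have hxX' : x + c = X := by simpa using hxX
    have hyX' : y + c' = X := by simpa using hyX
    have h := key1 x hx y hy (c' - c) (pack_sub_mem hc' hc) (by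
      rw [← hyX'] at hxX'
      have : x = y + c' - c := by rw [← hxX']; abel
      rw [this]; abel)
    apply hpq
    rw [sub_eq_zero.1 h]
  · have hs : s = false := hs
    have hs' : s' = true := hs'
    subst hs hs'
    have hc' : c' = v + u' := hc'
    have hxX' : x + c = X := by simpa using hxX
    have hyX' : -y + c' = X := by simpa using hyX
    refine key2 x hx y hy (u' - c) (pack_sub_mem hu' hc) ?_
    have : x = -y + c' - c := by rw [hyX', ← hxX']; abel
    rw [this, hc']; abel
  · have hs : s = true := hs
    have hs' : s' = false := hs'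
    subst hs hs'
    have hc : c = v + u := hc
    have hxX' : -x + c = X := by simpa using hxX
    have hyX' : y + c' = X := by simpa using hyX
    refine key2 x hx y hy (u - c') (pack_sub_mem hu hc') ?_
    have : y = -x + c - c' := by rw [hxX', ← hyX']; abel
    rw [this, hc]; abel
  · have hs : s = true := hs
    have hs' : s' = true := hs'
    subst hs hs'
    have hc : c = v + u := hc
    have hc' : c' = v + u' := hc'
    have hxX' : -x + c = X := by simpa using hxX
    have hyX' : -y + c' = X := by simpa using hyX
    have h := key1 x hx y hy (u - u') (pack_sub_mem hu hu') (by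
      rw [← hyX'] at hxX'
      have : x = c - (-y + c') := by rw [← hxX']; abel
      rw [this, hc, hc']; abel)
    apply hpq
    rw [hc, hc', sub_eq_zero.1 h]

theorem den_famLs (K : Set V) (v : V) (b : Fin 3 → V) :
    dens (K ∪ rfl' K v) b ≤ den K (famLs v b) := by
  unfold den dens
  apply limsup_le_limsup
  · apply Filter.Eventually.of_forall
    intro r
    apply ENNReal.div_le_div_right
    -- the index map
    let f : lat b ⊕ lat b → famLs v b := fun s =>
      match s with
      | Sum.inl u => ⟨(false, u.1), Or.inl ⟨rfl, u.2⟩⟩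
      | Sum.inr u => ⟨(true, v + u.1), Or.inr ⟨rfl, u.1, u.2, rfl⟩⟩
    have hinj : Function.Injective f := by
      intro s t h
      rcases s with u | u <;> rcases t with w | w
      · have h' : ((false, u.1) : Bool × V) = (false, w.1) := congrArg Subtype.val h
        rw [Sum.inl.injEq]
        exact Subtype.ext (congrArg Prod.snd h')
      · have h' : ((false, u.1) : Bool × V) = (true, v + w.1) := congrArg Subtype.val h
        exact absurd (congrArg Prod.fst h') (by simp)
      · have h' : ((true, v + u.1) : Bool × V) = (false, w.1) := congrArg Subtype.val h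
        exact absurd (congrArg Prod.fst h') (by simp)
      · have h' : ((true, v + u.1) : Bool × V) = (true, v + w.1) := congrArg Subtype.val h
        rw [Sum.inr.injEq]
        exact Subtype.ext (add_left_cancel (congrArg Prod.snd h'))
    calc ∑' u : lat b, volume (tr (K ∪ rfl' K v) u.1 ∩ Bl r)
        ≤ ∑' u : lat b, (volume (tr K u.1 ∩ Bl r) + volume (tr (rfl' K v) u.1 ∩ Bl r)) := by
          apply ENNReal.tsum_le_tsum
          intro u
          have : tr (K ∪ rfl' K v) u.1 ∩ Bl r = (tr K u.1 ∩ Bl r) ∪ (tr (rfl' K v) u.1 ∩ Bl r) := by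
            unfold tr
            rw [Set.image_union, Set.union_inter_distrib_right]
          rw [this]
          exact measure_union_le _ _
      _ = (∑' u : lat b, volume (tr K u.1 ∩ Bl r))
          + ∑' u : lat b, volume (tr (rfl' K v) u.1 ∩ Bl r) := ENNReal.tsum_add
      _ = ∑' s : lat b ⊕ lat b, volume (mem K (f s).1 ∩ Bl r) := by
          rw [Summable.tsum_sum (f := fun s => volume (mem K (f s).1 ∩ Bl r))
            ENNReal.summable ENNReal.summable]
          have e1 : ∀ u : lat b, volume (tr K u.1 ∩ Bl r)
              = volume (mem K (f (Sum.inl u)).1 ∩ Bl r) := by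
            intro u
            show _ = volume (mem K (false, u.1) ∩ Bl r)
            rw [mem_false]
          have e2 : ∀ u : lat b, volume (tr (rfl' K v) u.1 ∩ Bl r)
              = volume (mem K (f (Sum.inr u)).1 ∩ Bl r) := by
            intro u
            show _ = volume (mem K (true, v + u.1) ∩ Bl r)
            rw [mem_true]
          rw [tsum_congr e1, tsum_congr e2]
      _ ≤ ∑' p : famLs v b, volume (mem K p.1 ∩ Bl r) :=
          ENNReal.tsum_comp_le_tsum_of_injective hinj (fun p => volume (mem K p.1 ∩ Bl r))
  · exact Filter.isCobounded_le_of_bot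
  · exact Filter.isBounded_le_of_top

theorem rfl_compact {K : Set V} (hK : IsCompact K) (v : V) : IsCompact (rfl' K v) :=
  hK.image (by fun_prop)

theorem vol_rfl {K : Set V} (hK : MeasurableSet K) (v : V) : volume (rfl' K v) = volume K := by
  have : rfl' K v = (fun x => v - x) ⁻¹' K := by
    ext y
    constructor
    · rintro ⟨x, hx, rfl⟩
      show v - (v - x) ∈ K
      rwa [sub_sub_cancel]
    · intro hy
      exact ⟨v - y, hy, sub_sub_cancel v y⟩
  rw [this]
  exact (Measure.measurePreserving_sub_left volume v).measure_preimage hK.nullMeasurableSet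

theorem vol_int {K : Set V} (hc : Convex ℝ K) : volume (interior K) = volume K := by
  have h := hc.addHaar_frontier volume
  apply le_antisymm (measure_mono interior_subset)
  calc volume K ≤ volume (interior K ∪ frontier K) := measure_mono (by
        rw [← closure_eq_interior_union_frontier]; exact subset_closure)
    _ ≤ volume (interior K) + volume (frontier K) := measure_union_le _ _
    _ = volume (interior K) := by rw [h, add_zero]

/-- `δ_{L*} ≥ 0.412` -/
theorem dLs_low {K : Set V} (hK : Body K) : ENNReal.ofReal 0.412 ≤ dLs K := by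
  obtain ⟨hKc, hc, hne⟩ := hK
  obtain ⟨v, b, hb0, h1, h2, h3⟩ := double_low hKc hc hne
  have hli : LinearIndependent ℝ b := (dt_ne_zero_iff b).1 hb0.ne'
  have hle : den K (famLs v b) ≤ dLs K := by
    unfold dLs
    exact le_iSup_of_le v (le_iSup₂_of_le b ⟨hli, famLs_pack h1 h2⟩ le_rfl)
  refine le_trans ?_ ((den_famLs K v b).trans hle)
  rw [dens_eq b hli _ (hKc.union (rfl_compact hKc v)), abs_of_pos hb0]
  rw [ENNReal.le_div_iff_mul_le (Or.inl (by
    rw [ne_eq, ENNReal.ofReal_eq_zero, not_le]; exact hb0)) (Or.inl ENNReal.ofReal_ne_top)]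
  refine h3.trans ?_
  have hd : Disjoint (interior K) (interior (rfl' K v)) := by
    have := h2 0 (pack_zero_mem b)
    have e : tr (rfl' K v) 0 = rfl' K v := by unfold tr; simp
    rwa [e] at this
  have hrc : Convex ℝ (rfl' K v) := by
    rintro _ ⟨x, hx, rfl⟩ _ ⟨y, hy, rfl⟩ α β hα hβ hαβ
    refine ⟨α • x + β • y, hc hx hy hα hβ hαβ, ?_⟩
    have e : v = α • v + β • v := by rw [← add_smul, hαβ, one_smul]
    simp only [smul_sub]
    nth_rewrite 1 [e]
    abel
  calc 2 * volume K = volume (interior K) + volume (interior (rfl' K v)) := by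
        rw [vol_int hc, vol_int hrc, vol_rfl hKc.measurableSet, two_mul]
    _ = volume (interior K ∪ interior (rfl' K v)) :=
        (measure_union hd isOpen_interior.measurableSet).symm
    _ ≤ volume (K ∪ rfl' K v) :=
        measure_mono (Set.union_subset_union interior_subset interior_subset)

theorem dL_low {K : Set V} (hK : Body K) : ENNReal.ofReal (2 / 9) ≤ dL K := by
  rw [dL_eq]
  exact lattice_low hK.1 hK.2.1 hK.2.2

end Pool.Agent.TH219.DL
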