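import Pool.Agent.TH219.DL.Bridge

/-!
# Double-lattice packings of cones over planar convex bodies
-/

namespace Pool.Agent.TH219.DL

open MeasureTheory Filter Topology
open scoped Pointwise ENNReal
open Pool.Agent.H349R2.Tet

/-- the cone over `B` (in the plane of height `0`) with apex `(1, 0)` -/
def Cn (B : Set (Fin 2 → ℝ)) : Set V := {y | 0 ≤ y 0 ∧ y 0 ≤ 1 ∧ pr y ∈ (1 - y 0) • B}

theorem Cn_eq (B : Set (Fin 2 → ℝ)) :
    Cn B = (fun p : ℝ × (Fin 2 → ℝ) => cs p.1 ((1 - p.1) • p.2)) '' (Set.Icc 0 1 ×ˢ B) := by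
  ext y
  constructor
  · rintro ⟨h0, h1, b, hb, hy⟩
    refine ⟨(y 0, b), ⟨⟨h0, h1⟩, hb⟩, ?_⟩
    simp only at hy ⊢
    rw [hy, cs_pr]
  · rintro ⟨⟨z, b⟩, ⟨⟨h0, h1⟩, hb⟩, rfl⟩
    refine ⟨h0, h1, ?_⟩
    simp only [pr_cs, cs_zero]
    exact Set.smul_mem_smul_set hb

theorem Cn_compact {B : Set (Fin 2 → ℝ)} (hB : IsCompact B) : IsCompact (Cn B) := by
  rw [Cn_eq]
  apply (isCompact_Icc.prod hB).image
  exact cs_cont.comp (continuous_fst.prodMk
    ((continuous_const.sub continuous_fst).smul continuous_snd))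

theorem pr_add (x y : V) : pr (x + y) = pr x + pr y := by
  funext i; fin_cases i <;> rfl

theorem pr_sub (x y : V) : pr (x - y) = pr x - pr y := by
  funext i; fin_cases i <;> rfl

theorem pr_smul (a : ℝ) (x : V) : pr (a • x) = a • pr x := by
  funext i; fin_cases i <;> rfl

theorem Cn_convex {B : Set (Fin 2 → ℝ)} (hB : Convex ℝ B) : Convex ℝ (Cn B) := by
  rintro x ⟨hx0, hx1, hx⟩ y ⟨hy0, hy1, hy⟩ α β hα hβ hαβ
  have e0 : (α • x + β • y) 0 = α * x 0 + β * y 0 := rfl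
  refine ⟨by rw [e0]; positivity, by rw [e0]; nlinarith, ?_⟩
  have e1 : 1 - (α • x + β • y) 0 = α * (1 - x 0) + β * (1 - y 0) := by
    rw [e0]; linear_combination -hαβ
  rw [e1, hB.add_smul (mul_nonneg hα (by linarith)) (mul_nonneg hβ (by linarith)), pr_add,
    pr_smul, pr_smul, mul_smul, mul_smul]
  exact Set.add_mem_add (Set.smul_mem_smul_set hx) (Set.smul_mem_smul_set hy)

theorem star {B : Set (Fin 2 → ℝ)} (hB : Convex ℝ B) (h0 : (0 : Fin 2 → ℝ) ∈ B) {a b : ℝ}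
    (ha : 0 ≤ a) (hab : a ≤ b) : a • B ⊆ b • B := by
  rintro _ ⟨x, hx, rfl⟩
  have e : b = a + (b - a) := by ring
  rw [e, hB.add_smul ha (by linarith)]
  refine ⟨a • x, Set.smul_mem_smul_set hx, (b - a) • (0 : Fin 2 → ℝ),
    Set.smul_mem_smul_set h0, ?_⟩
  simp

theorem Cn_shadow {B : Set (Fin 2 → ℝ)} (hB : Convex ℝ B) (h0 : (0 : Fin 2 → ℝ) ∈ B) {x : V}
    (hx : x ∈ Cn B) : pr x ∈ B := by
  have := star hB h0 (show 0 ≤ 1 - x 0 by linarith [hx.2.1]) (show 1 - x 0 ≤ 1 by linarith [hx.1])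
    hx.2.2
  rwa [one_smul] at this

theorem Cn_vol {B : Set (Fin 2 → ℝ)} (hc : IsCompact B) (hB : Convex ℝ B)
    (h0 : (0 : Fin 2 → ℝ) ∈ B) : ENNReal.ofReal (1 / 3) * volume B ≤ volume (Cn B) := by
  have hx0 : (0 : Fin 2 → ℝ) ∈ G (Cn B) 1 := by
    refine ⟨0, ⟨le_rfl, zero_le_one, ?_⟩, ⟨?_, ?_, ?_⟩⟩
    · simp only [pr_cs, cs_zero, sub_zero, one_smul]; exact h0
    · simp
    · simp
    · simp only [pr_cs, cs_zero, zero_add, sub_self]
      exact ⟨0, h0, by simp⟩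
  have h := cone (Cn_compact hc) (Cn_convex hB) one_pos hx0
  refine le_trans ?_ h
  gcongr
  rw [G_zero]
  intro b hb
  refine ⟨cs 0 b, ⟨le_rfl, zero_le_one, ?_⟩, pr_cs 0 b⟩
  simp only [pr_cs, cs_zero, sub_zero, one_smul]; exact hb

/-- a reflected copy of `B` lies in a translate of `2 B` -/
theorem neg_in {P : Set (Fin 2 → ℝ)} (hP : Convex ℝ P) (hc : IsCompact P)
    (hne : (interior P).Nonempty) :
    ∃ c : Fin 2 → ℝ, ∀ y ∈ P, ∃ b ∈ P, -y = (2 : ℝ) • b + c := by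
  obtain ⟨x0, hx0⟩ := hne
  have hPne : P.Nonempty := ⟨x0, interior_subset hx0⟩
  obtain ⟨T, hT, hTm⟩ := (hc.prod (hc.prod hc)).exists_isMaxOn (hPne.prod (hPne.prod hPne))
    (f := fun T : (Fin 2 → ℝ) × (Fin 2 → ℝ) × (Fin 2 → ℝ) => Dt T.1 T.2.1 T.2.2)
    (Dt_cont continuous_fst (continuous_fst.comp continuous_snd)
      (continuous_snd.comp continuous_snd)).continuousOn
  obtain ⟨A, B, C⟩ := T
  obtain ⟨hA, hB, hC⟩ := hT
  simp only at hA hB hC
  have hmax : ∀ X ∈ P, ∀ Y ∈ P, ∀ Z ∈ P, Dt X Y Z ≤ Dt A B C := fun X hX Y hY Z hZ =>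
    hTm (show (X, Y, Z) ∈ P ×ˢ P ×ˢ P from ⟨hX, hY, hZ⟩)
  clear hTm
  have hM : 0 < Dt A B C := by
    obtain ⟨ε, hε, hball⟩ := Metric.isOpen_iff.1 isOpen_interior x0 hx0
    have k1 : x0 + ![ε / 2, 0] ∈ P := interior_subset (hball (by
      rw [Metric.mem_ball, dist_eq_norm, add_sub_cancel_left, pi_norm_lt_iff hε]
      intro i; fin_cases i
      · simp [abs_of_pos hε]; linarith
      · simpa using hε))
    have k2 : x0 + ![0, ε / 2] ∈ P := interior_subset (hball (by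
      rw [Metric.mem_ball, dist_eq_norm, add_sub_cancel_left, pi_norm_lt_iff hε]
      intro i; fin_cases i
      · simpa using hε
      · simp [abs_of_pos hε]; linarith))
    have := hmax x0 (interior_subset hx0) _ k1 _ k2
    have e : Dt x0 (x0 + ![ε / 2, 0]) (x0 + ![0, ε / 2]) = ε ^ 2 / 4 := by
      simp [Dt]; ring
    rw [e] at this
    have : 0 < ε ^ 2 / 4 := by positivity
    linarith
  refine ⟨-(A + B + C), fun y hy => ?_⟩
  obtain ⟨M, hMdef⟩ : ∃ M, M = Dt A B C := ⟨_, rfl⟩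
  rw [← hMdef] at hM
  have a1 : Dt y B C / M ≤ 1 := by
    rw [div_le_one hM, hMdef]; exact hmax y hy B hB C hC
  have b1 : Dt A y C / M ≤ 1 := by
    rw [div_le_one hM, hMdef]; exact hmax A hA y hy C hC
  have c1 : Dt A B y / M ≤ 1 := by
    rw [div_le_one hM, hMdef]; exact hmax A hA B hB y hy
  have hsum : Dt y B C / M + Dt A y C / M + Dt A B y / M = 1 := by
    rw [← add_div, ← add_div, Dt_sum, ← hMdef, div_self hM.ne']
  refine ⟨∑ i : Fin 3, (![(1 - Dt y B C / M) / 2, (1 - Dt A y C / M) / 2,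
    (1 - Dt A B y / M) / 2] : Fin 3 → ℝ) i • (![A, B, C] : Fin 3 → (Fin 2 → ℝ)) i, ?_, ?_⟩
  · apply hP.sum_mem
    · intro i _
      fin_cases i
      · show 0 ≤ (1 - Dt y B C / M) / 2
        linarith
      · show 0 ≤ (1 - Dt A y C / M) / 2
        linarith
      · show 0 ≤ (1 - Dt A B y / M) / 2
        linarith
    · rw [Fin.sum_univ_three]
      show (1 - Dt y B C / M) / 2 + (1 - Dt A y C / M) / 2 + (1 - Dt A B y / M) / 2 = 1
      linarith
    · intro i _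
      fin_cases i
      · exact hA
      · exact hB
      · exact hC
  · rw [Fin.sum_univ_three]
    have hM' : M ≠ 0 := hM.ne'
    have key : ∀ i : Fin 2, Dt y B C * A i + Dt A y C * B i + Dt A B y * C i = M * y i := by
      intro i
      rw [hMdef]
      fin_cases i
      · simp only [Dt, Fin.zero_eta]; ring
      · simp only [Dt, Fin.mk_one]; ring
    funext i
    have hk := key i
    simp only [Pi.neg_apply, Pi.add_apply, Pi.smul_apply, smul_eq_mul, Matrix.cons_val_zero,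
      Matrix.cons_val_one, Matrix.cons_val]
    have e : y i = Dt y B C / M * A i + Dt A y C / M * B i + Dt A B y / M * C i := by
      field_simp
      linarith
    rw [e]
    ring

/-- a point of the plane at which a function of small integral is small along the lattice -/
theorem miss {u w : Fin 2 → ℝ} (hD : 0 < u 0 * w 1 - u 1 * w 0) {Φ : (Fin 2 → ℝ) → ℝ≥0∞}
    (hΦ : Measurable Φ) (hlt : ∫⁻ x, Φ x < ENNReal.ofReal (u 0 * w 1 - u 1 * w 0)) :
    ∃ x : Fin 2 → ℝ, ∀ m n : ℤ, Φ (x + ((m : ℝ) • u + (n : ℝ) • w)) < 1 := by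
  obtain ⟨x, hx⟩ := pigeon u w hD Φ hΦ hlt
  refine ⟨x, fun m n => lt_of_le_of_lt ?_ hx⟩
  exact ENNReal.le_tsum (f := fun z : ℤ × ℤ => Φ (x + ((z.1 : ℝ) • u + (z.2 : ℝ) • w))) (m, n)

end Pool.Agent.TH219.DL
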