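import Pool.Agent.TH219.DL.CnPack

/-!
# Cones over planar convex bodies: affine images, densities
-/

namespace Pool.Agent.TH219.DL

open MeasureTheory Filter Topology
open scoped Pointwise ENNReal
open Pool.Agent.H349R2.Tet

/-- `C` is a cone over a planar convex body: the convex hull of the image `e(D)` of a convex disk `D`
under an injective affine map `e` of the plane into space, and of a point `v` off the plane of
`e(D)` -/
def IsCone (C : Set (Fin 3 → ℝ)) : Prop :=
  ∃ (D : Set (Fin 2 → ℝ)) (e : (Fin 2 → ℝ) →ᵃ[ℝ] (Fin 3 → ℝ)) (v : Fin 3 → ℝ),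
    IsCompact D ∧ Convex ℝ D ∧ (interior D).Nonempty ∧ Function.Injective e ∧ v ∉ Set.range e ∧
    C = convexHull ℝ (insert v (e '' D))

/-- a double-lattice packing of density at least `1/2` -/
def Half (K : Set V) : Prop :=
  ∃ (v : V) (b : Fin 3 → V), dt b ≠ 0 ∧ ENNReal.ofReal (|dt b| / 4) ≤ volume K ∧
    (∀ s ∈ lat b, s ≠ 0 → ¬ Ov K s) ∧
    (∀ s ∈ lat b, Disjoint (interior K) (interior (tr (rfl' K v) s)))

theorem Half_Cn {B : Set (Fin 2 → ℝ)} (hc : IsCompact B) (hB : Convex ℝ B)
    (hne : (interior B).Nonempty) (h0 : (0 : Fin 2 → ℝ) ∈ B) : Half (Cn B) := by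
  obtain ⟨v, b, h1, h2, h3, h4⟩ := cone_pack hc hB hne h0
  have hpos : 0 < dt b := by rw [h1]; positivity
  refine ⟨v, b, hpos.ne', ?_, h3, h4⟩
  refine le_trans (le_of_eq ?_) (Cn_vol hc hB h0)
  rw [abs_of_pos hpos, h1]
  conv_rhs => rw [← ENNReal.ofReal_toReal (hc.measure_ne_top (μ := volume))]
  rw [← ENNReal.ofReal_mul (by norm_num)]
  congr 1
  ring

theorem Half_image {K : Set V} (h : Half K) (L : V ≃ₗ[ℝ] V) (p : V) :
    Half ((fun x => L x + p) '' K) := by
  obtain ⟨v, b, h1, h2, h3, h4⟩ := h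
  have hdet : LinearMap.det L.toLinearMap ≠ 0 := (LinearEquiv.isUnit_det' L).ne_zero
  refine ⟨L v + p + p, fun i => L (b i), ?_, ?_, ?_, ?_⟩
  · rw [pack_dt_image]; exact mul_ne_zero hdet h1
  · rw [pack_volume_image, pack_dt_image, abs_mul, mul_div_assoc,
      ENNReal.ofReal_mul (abs_nonneg _)]
    gcongr
  · intro u hu hu0 hov
    obtain ⟨s, rfl⟩ := L.surjective u
    refine h3 s ((pack_lat_image L b s).1 hu) ?_ ((pack_Ov_image K L p s).1 hov)
    rintro rfl
    exact hu0 (map_zero L)
  · intro u hu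
    obtain ⟨s, rfl⟩ := L.surjective u
    have hs := (pack_lat_image L b s).1 hu
    have e : tr (rfl' ((fun x => L x + p) '' K) (L v + p + p)) (L s)
        = (fun x => L x + p) '' (tr (rfl' K v) s) := by
      unfold tr rfl'
      rw [Set.image_image, Set.image_image, Set.image_image, Set.image_image]
      apply Set.image_congr
      intro x _
      simp only [map_add, map_sub]
      abel
    rw [e, pack_interior_image, pack_interior_image, Set.disjoint_image_iff]
    · exact h4 s hs
    · intro x y hxy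
      exact L.injective (add_right_cancel (hxy : L x + p = L y + p))

theorem Half_dLs {K : Set V} (hKc : IsCompact K) (hc : Convex ℝ K) (h : Half K) :
    ENNReal.ofReal (1 / 2) ≤ dLs K := by
  obtain ⟨v, b, hb0, h3, h1, h2⟩ := h
  have hb1 : 0 < |dt b| := abs_pos.2 hb0
  have hli : LinearIndependent ℝ b := (dt_ne_zero_iff b).1 hb0
  have hle : den K (famLs v b) ≤ dLs K := by
    unfold dLs
    exact le_iSup_of_le v (le_iSup₂_of_le b ⟨hli, famLs_pack h1 h2⟩ le_rfl)
  refine le_trans ?_ ((den_famLs K v b).trans hle)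
  rw [dens_eq b hli _ (hKc.union (rfl_compact hKc v))]
  rw [ENNReal.le_div_iff_mul_le (Or.inl (by
    rw [ne_eq, ENNReal.ofReal_eq_zero, not_le]; exact hb1)) (Or.inl ENNReal.ofReal_ne_top)]
  have h5 : ENNReal.ofReal (1 / 2) * ENNReal.ofReal |dt b| ≤ 2 * volume K := by
    calc ENNReal.ofReal (1 / 2) * ENNReal.ofReal |dt b| = 2 * ENNReal.ofReal (|dt b| / 4) := by
          have e2 : (2 : ℝ≥0∞) = ENNReal.ofReal 2 := by simp
          rw [e2, ← ENNReal.ofReal_mul (by norm_num), ← ENNReal.ofReal_mul (by norm_num)]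
          congr 1
          ring
      _ ≤ _ := by gcongr
  refine h5.trans ?_
  have hd : Disjoint (interior K) (interior (rfl' K v)) := by
    have := h2 0 (pack_zero_mem b)
    have e : tr (rfl' K v) 0 = rfl' K v := by unfold tr; simp
    rwa [e] at this
  have hrc : Convex ℝ (rfl' K v) := by
    rintro _ ⟨x, hx, rfl⟩ _ ⟨y, hy, rfl⟩ α β hα hβ hαβ
    refine ⟨α • x + β • y, hc hx hy hα hβ hαβ, ?_⟩
    have e : v = α • v + β • v := by rw [← add_smul, hαβ, one_smul]
    simp only [smul_sub]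
    nth_rewrite 1 [e]
    abel
  calc 2 * volume K = volume (interior K) + volume (interior (rfl' K v)) := by
        rw [vol_int hc, vol_int hrc, vol_rfl hKc.measurableSet, two_mul]
    _ = volume (interior K ∪ interior (rfl' K v)) :=
        (measure_union hd isOpen_interior.measurableSet).symm
    _ ≤ volume (K ∪ rfl' K v) :=
        measure_mono (Set.union_subset_union interior_subset interior_subset)

theorem Half_dL {K : Set V} (hKc : IsCompact K) (h : Half K) :
    ENNReal.ofReal (1 / 4) ≤ dL K := by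
  obtain ⟨v, b, hb0, h3, h1, h2⟩ := h
  have hb1 : 0 < |dt b| := abs_pos.2 hb0
  have hli : LinearIndependent ℝ b := (dt_ne_zero_iff b).1 hb0
  have hpk : Packs K b := (packs_iff K b).2 ⟨hb0, h1⟩
  have hle : dens K b ≤ deltaL K := by
    unfold deltaL
    exact le_iSup₂_of_le b hpk le_rfl
  rw [dL_eq]
  refine le_trans ?_ hle
  rw [dens_eq b hli _ hKc]
  rw [ENNReal.le_div_iff_mul_le (Or.inl (by
    rw [ne_eq, ENNReal.ofReal_eq_zero, not_le]; exact hb1)) (Or.inl ENNReal.ofReal_ne_top)]
  refine le_trans (le_of_eq ?_) h3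
  rw [← ENNReal.ofReal_mul (by norm_num)]
  congr 1
  ring

theorem cone_model {C : Set V} (hC : IsCone C) : ∃ (B : Set (Fin 2 → ℝ)) (L : V ≃ₗ[ℝ] V) (p : V),
    IsCompact B ∧ Convex ℝ B ∧ (interior B).Nonempty ∧ (0 : Fin 2 → ℝ) ∈ B ∧
    C = (fun x => L x + p) '' Cn B := by
  obtain ⟨D, e, v, hDc, hDx, hDi, he, hv, rfl⟩ := hC
  obtain ⟨p0, hp0⟩ := hDi
  have hp0' := interior_subset hp0
  -- the linear map
  let prL : V →ₗ[ℝ] (Fin 2 → ℝ) :=
    { toFun := pr, map_add' := pr_add, map_smul' := fun a x => pr_smul a x }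
  let z0 : V →ₗ[ℝ] ℝ := LinearMap.proj 0
  let M : V →ₗ[ℝ] V := z0.smulRight (v - e p0) + e.linear.comp prL
  have hM : ∀ y : V, M y = y 0 • (v - e p0) + e.linear (pr y) := fun y => rfl
  have hlin : Function.Injective e.linear := (AffineMap.linear_injective_iff e).2 he
  have hinj : Function.Injective M := by
    rw [injective_iff_map_eq_zero]
    intro y hy
    rw [hM] at hy
    by_cases h : y 0 = 0
    · rw [h, zero_smul, zero_add] at hy
      have h2 : pr y = 0 := hlin (by rw [hy, map_zero])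
      rw [← cs_pr y, h, h2]
      symm
      apply cs_ext <;> rfl
    · exfalso
      apply hv
      refine ⟨p0 - (y 0)⁻¹ • pr y, ?_⟩
      have e1 : e (p0 - (y 0)⁻¹ • pr y) = e p0 - (y 0)⁻¹ • e.linear (pr y) := by
        have := e.map_vadd p0 (-((y 0)⁻¹ • pr y))
        simp only [vadd_eq_add] at this
        rw [sub_eq_neg_add, this, map_neg, map_smul]
        abel
      have e2 : e.linear (pr y) = -(y 0 • (v - e p0)) := eq_neg_of_add_eq_zero_right hy
      rw [e1, e2, smul_neg, smul_smul, inv_mul_cancel₀ h, one_smul]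
      abel
  have hel : ∀ d, e.linear (d - p0) = e d - e p0 := fun d => e.linearMap_vsub d p0
  refine ⟨(fun x => x + -p0) '' D, LinearEquiv.ofInjectiveEndo M hinj, e p0, ?_, ?_, ?_, ?_, ?_⟩
  · exact hDc.image (by fun_prop)
  · exact (hDx.translate (-p0) |> fun h => by
      simpa [add_comm] using h)
  · have h1 : (fun x => x + -p0) '' D = (Homeomorph.addRight (-p0)) '' D := rfl
    rw [h1, ← Homeomorph.image_interior]
    exact ⟨_, p0, hp0, rfl⟩
  · exact ⟨p0, hp0', by simp⟩
  · have hcv : Convex ℝ (e '' D) := hDx.affine_image e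
    have hnn : (e '' D).Nonempty := ⟨e p0, p0, hp0', rfl⟩
    rw [convexHull_insert hnn, hcv.convexHull_eq]
    ext y
    rw [mem_convexJoin]
    constructor
    · rintro ⟨_, rfl, _, ⟨d, hd, rfl⟩, a, b, ha, hb, hab, rfl⟩
      refine ⟨cs a (b • (d - p0)), ⟨ha, ?_, ?_⟩, ?_⟩
      · rw [cs_zero]; linarith
      · rw [pr_cs, cs_zero]
        have : 1 - a = b := by linarith
        rw [this]
        exact Set.smul_mem_smul_set ⟨d, hd, by simp only; abel⟩
      · show M (cs a (b • (d - p0))) + e p0 = a • _ + b • e d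
        rw [hM, pr_cs, cs_zero, map_smul, hel]
        have : e p0 = a • e p0 + b • e p0 := by rw [← add_smul, hab, one_smul]
        rw [smul_sub, smul_sub]
        nth_rewrite 3 [this]
        abel
    · rintro ⟨y, ⟨h0, h1, x, ⟨d, hd, hx⟩, hy⟩, rfl⟩
      refine ⟨v, rfl, e d, ⟨d, hd, rfl⟩, y 0, 1 - y 0, h0, by linarith, by ring, ?_⟩
      show _ = M y + e p0
      simp only at hx hy
      rw [hM, ← hy, ← hx, map_smul, ← sub_eq_add_neg, hel]
      have : e p0 = y 0 • e p0 + (1 - y 0) • e p0 := by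
        rw [← add_smul, add_sub_cancel, one_smul]
      rw [smul_sub, smul_sub]
      nth_rewrite 3 [this]
      abel

theorem cone_compact {C : Set V} (hC : IsCone C) : IsCompact C := by
  obtain ⟨B, L, p, hc, hB, hne, h0, rfl⟩ := cone_model hC
  exact (Cn_compact hc).image
    ((LinearMap.continuous_of_finiteDimensional (L : V →ₗ[ℝ] V)).add continuous_const)

theorem cone_half {C : Set V} (hC : IsCone C) : Half C := by
  obtain ⟨B, L, p, hc, hB, hne, h0, rfl⟩ := cone_model hC
  exact Half_image (Half_Cn hc hB hne h0) L p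

theorem cone_convex {C : Set V} (hC : IsCone C) : Convex ℝ C := by
  obtain ⟨D, e, v, hDc, hDx, hDi, he, hv, rfl⟩ := hC
  exact convex_convexHull ℝ _

end Pool.Agent.TH219.DL
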