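import Pool.Agent.TH219.DL.Cn

/-!
# A double-lattice packing of density `1/2` of every cone
-/

namespace Pool.Agent.TH219.DL

open MeasureTheory Filter Topology
open scoped Pointwise ENNReal
open Pool.Agent.H349R2.Tet

/-- the set to be avoided by the horizontal shift -/
def QQ (B : Set (Fin 2 → ℝ)) (c : Fin 2 → ℝ) : Set (Fin 2 → ℝ) :=
  (fun x => x + -((1 / 9 : ℝ) • c)) '' ((-(11 / 9) : ℝ) • B)

theorem QQ_vol (B : Set (Fin 2 → ℝ)) (c : Fin 2 → ℝ) :
    volume (QQ B c) = ENNReal.ofReal (121 / 81) * volume B := by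
  unfold QQ
  rw [Set.image_add_right, measure_preimage_add_right, Measure.addHaar_smul]
  congr 2
  have : Module.finrank ℝ (Fin 2 → ℝ) = 2 := by simp
  rw [this, abs_of_nonneg (by positivity)]
  norm_num

theorem QQ_compact {B : Set (Fin 2 → ℝ)} (hB : IsCompact B) (c : Fin 2 → ℝ) :
    IsCompact (QQ B c) := by
  unfold QQ
  exact (hB.smul _).image (by fun_prop)

theorem smul_vol {B : Set (Fin 2 → ℝ)} {a : ℝ} :
    volume (a • B) = ENNReal.ofReal (a ^ 2) * volume B := by
  rw [Measure.addHaar_smul]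
  congr 2
  have : Module.finrank ℝ (Fin 2 → ℝ) = 2 := by simp
  rw [this, abs_of_nonneg (by positivity)]

/-- the basis -/
noncomputable def bt (t : Fin 2 → ℝ) (u w : Fin 2 → ℝ) : Fin 3 → V := ![cs (8 / 9) t, cs 0 u, cs 0 w]

theorem dt_bt (t u w : Fin 2 → ℝ) :
    dt (bt t u w) = 8 / 9 * (u 0 * w 1 - u 1 * w 0) := by
  unfold dt bt
  rw [Matrix.det_fin_three]
  simp
  ring

theorem bt_zero (t u w : Fin 2 → ℝ) (z : Fin 3 → ℤ) :
    (∑ i, (z i : ℝ) • bt t u w i) 0 = z 0 * (8 / 9) := by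
  simp [Fin.sum_univ_three, bt]

theorem bt_pr (t u w : Fin 2 → ℝ) (z : Fin 3 → ℤ) :
    pr (∑ i, (z i : ℝ) • bt t u w i)
      = (z 0 : ℝ) • t + ((z 1 : ℝ) • u + (z 2 : ℝ) • w) := by
  funext i
  fin_cases i
  · simp [Fin.sum_univ_three, bt, pr, add_assoc]
  · simp [Fin.sum_univ_three, bt, pr, add_assoc]

theorem cone_diff {B : Set (Fin 2 → ℝ)} (hB : Convex ℝ B) (h0 : (0 : Fin 2 → ℝ) ∈ B)
    {c : Fin 2 → ℝ} (hcc : ∀ y ∈ B, ∃ b ∈ B, -y = (2 : ℝ) • b + c) {x y : V}
    (hx : x ∈ Cn B) (hy : y ∈ Cn B) (hxy : x 0 - y 0 = 8 / 9) : pr x - pr y ∈ QQ B c := by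
  have h1 : pr x ∈ (1 / 9 : ℝ) • B :=
    star hB h0 (by linarith [hx.2.1]) (by linarith [hy.1]) hx.2.2
  obtain ⟨b1, hb1, e1⟩ := h1
  have hb2 := Cn_shadow hB h0 hy
  obtain ⟨b3, hb3, e3⟩ := hcc b1 hb1
  have hb4 : (9 / 11 : ℝ) • pr y + (2 / 11 : ℝ) • b3 ∈ B :=
    hB hb2 hb3 (by norm_num) (by norm_num) (by norm_num)
  refine ⟨_, Set.smul_mem_smul_set hb4, ?_⟩
  simp only at e1
  rw [← e1]
  funext i
  have e3i := congrFun e3 i
  simp only [Pi.neg_apply, Pi.add_apply, Pi.smul_apply, smul_eq_mul, Pi.sub_apply] at e3i ⊢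
  linear_combination (1 / 9 : ℝ) * e3i

theorem cone_sum {B : Set (Fin 2 → ℝ)} (hB : Convex ℝ B) {x y : V}
    (hx : x ∈ Cn B) (hy : y ∈ Cn B) : pr x + pr y ∈ (2 - (x 0 + y 0)) • B := by
  have e : 2 - (x 0 + y 0) = (1 - x 0) + (1 - y 0) := by ring
  rw [e, hB.add_smul (by linarith [hx.2.1]) (by linarith [hy.2.1])]
  exact Set.add_mem_add hx.2.2 hy.2.2

theorem cone_pack {B : Set (Fin 2 → ℝ)} (hc : IsCompact B) (hB : Convex ℝ B)
    (hne : (interior B).Nonempty) (h0 : (0 : Fin 2 → ℝ) ∈ B) :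
    ∃ (v : V) (b : Fin 3 → V), dt b = 4 / 3 * (volume B).toReal ∧ 0 < (volume B).toReal ∧
      (∀ s ∈ lat b, s ≠ 0 → ¬ Ov (Cn B) s) ∧
      (∀ s ∈ lat b, Disjoint (interior (Cn B)) (interior (tr (rfl' (Cn B) v) s))) := by
  obtain ⟨A, hA⟩ : ∃ A, A = (volume B).toReal := ⟨_, rfl⟩
  have hfin : volume B ≠ ⊤ := hc.measure_ne_top
  have hpos : 0 < volume B := lt_of_lt_of_le (isOpen_interior.measure_pos volume hne)
    (measure_mono interior_subset)
  have hA0 : 0 < A := by rw [hA]; exact ENNReal.toReal_pos hpos.ne' hfin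
  have hvA : volume B = ENNReal.ofReal A := by rw [hA, ENNReal.ofReal_toReal hfin]
  obtain ⟨u0, w0, hd0, hd1, hadm0⟩ := fary hB hc hne
  set d := u0 0 * w0 1 - u0 1 * w0 0 with hd
  have hd2 : d ≤ 3 / 2 * A := by
    rw [hvA, ← ENNReal.ofReal_mul (by norm_num),
      ENNReal.ofReal_le_ofReal_iff (by positivity)] at hd1
    exact hd1
  set k := Real.sqrt (3 / 2 * A / d) with hk
  have hk1 : 1 ≤ k := by
    rw [hk, Real.one_le_sqrt, one_le_div hd0]; exact hd2
  have hk2 : k ^ 2 * d = 3 / 2 * A := by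
    rw [hk, Real.sq_sqrt (by positivity), div_mul_cancel₀ _ hd0.ne']
  have hadm := adm_scale ⟨0, h0⟩ (P := B) (u := u0) (w := w0) hadm0 hk1
  obtain ⟨u, hu⟩ : ∃ u, u = k • u0 := ⟨_, rfl⟩
  obtain ⟨w, hw⟩ : ∃ w, w = k • w0 := ⟨_, rfl⟩
  rw [← hu, ← hw] at hadm
  have hD : u 0 * w 1 - u 1 * w 0 = 3 / 2 * A := by
    rw [← hk2, hd, hu, hw]
    simp only [Pi.smul_apply, smul_eq_mul]
    ring
  have hDpos : 0 < u 0 * w 1 - u 1 * w 0 := by rw [hD]; positivity
  obtain ⟨c, hcc⟩ := neg_in hB hc hne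
  -- the shift
  obtain ⟨t, ht⟩ := miss hDpos (Φ := (QQ B c).indicator 1)
    (measurable_one.indicator (QQ_compact hc c).measurableSet) (by
      rw [lintegral_indicator_one (QQ_compact hc c).measurableSet, QQ_vol, hD, hvA,
        ← ENNReal.ofReal_mul (by norm_num), ENNReal.ofReal_lt_ofReal_iff (by positivity)]
      linarith)
  have ht' : ∀ m n : ℤ, t + ((m : ℝ) • u + (n : ℝ) • w) ∉ QQ B c := by
    intro m n hmem
    have := ht m n
    rw [Set.indicator_of_mem hmem] at this
    exact absurd this (lt_irrefl _)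
  -- the position of the reflected cone
  have m1 : MeasurableSet ((10 / 9 : ℝ) • B) := (hc.smul _).measurableSet
  have m2 : MeasurableSet ((2 / 9 : ℝ) • B) := (hc.smul _).measurableSet
  obtain ⟨o, ho⟩ := miss hDpos (Φ := fun x => ((10 / 9 : ℝ) • B).indicator 1 x
      + ((2 / 9 : ℝ) • B).indicator 1 (x + t))
    ((measurable_one.indicator m1).add
      ((measurable_one.indicator m2).comp (measurable_add_const t))) (by
      rw [lintegral_add_left (measurable_one.indicator m1),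
        lintegral_add_right_eq_self (fun x => ((2 / 9 : ℝ) • B).indicator (1 : (Fin 2 → ℝ) → ℝ≥0∞) x) t,
        lintegral_indicator_one m1, lintegral_indicator_one m2, smul_vol, smul_vol, hD, hvA,
        ← ENNReal.ofReal_mul (by norm_num), ← ENNReal.ofReal_mul (by norm_num),
        ← ENNReal.ofReal_add (by positivity) (by positivity),
        ENNReal.ofReal_lt_ofReal_iff (by positivity)]
      linarith)
  have ho1 : ∀ m n : ℤ, o + ((m : ℝ) • u + (n : ℝ) • w) ∉ (10 / 9 : ℝ) • B := by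
    intro m n hmem
    have := ho m n
    rw [Set.indicator_of_mem hmem] at this
    exact absurd (lt_of_le_of_lt le_self_add this) (lt_irrefl _)
  have ho2 : ∀ m n : ℤ, o + ((m : ℝ) • u + (n : ℝ) • w) + t ∉ (2 / 9 : ℝ) • B := by
    intro m n hmem
    have := ho m n
    rw [Set.indicator_of_mem hmem] at this
    exact absurd (lt_of_le_of_lt le_add_self this) (lt_irrefl _)
  refine ⟨cs (8 / 9) o, bt t u w, ?_, hA ▸ hA0, ?_, ?_⟩
  · rw [dt_bt, hD, ← hA]; ring
  · rintro s ⟨z, hz⟩ hs0 ⟨x, hx, hxs⟩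
    have s0 : s 0 = z 0 * (8 / 9) := by rw [hz]; exact bt_zero t u w z
    have s1 : pr s = (z 0 : ℝ) • t + ((z 1 : ℝ) • u + (z 2 : ℝ) • w) := by
      rw [hz]; exact bt_pr t u w z
    have hx' := interior_subset hx
    have hxs' := interior_subset hxs
    have g1 := hx'.1
    have g2 := hx'.2.1
    have g3 : 0 ≤ x 0 - s 0 := hxs'.1
    have g4 : x 0 - s 0 ≤ 1 := hxs'.2.1
    rw [s0] at g3 g4
    have hcase : z 0 = 0 ∨ z 0 = 1 ∨ z 0 = -1 := by
      have a1 : (z 0 : ℝ) < 2 := by linarith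
      have a2 : (-2 : ℝ) < z 0 := by linarith
      have a3 : z 0 < 2 := by exact_mod_cast a1
      have a4 : -2 < z 0 := by exact_mod_cast a2
      omega
    rcases hcase with h | h | h
    · -- horizontal
      have h12 : z 1 ≠ 0 ∨ z 2 ≠ 0 := by
        by_contra hcon
        push Not at hcon
        apply hs0
        rw [hz, Fin.sum_univ_three, h, hcon.1, hcon.2]
        simp
      obtain ⟨p, q, hpq, hf⟩ := hadm _ _ h12
      obtain ⟨ε, hε, hxε⟩ := interior_push hx (cs 0 ![p, q])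
      have h1 := Cn_shadow hB h0 hxε
      have h2 := Cn_shadow hB h0 hxs'
      have h3 := hf _ h1 _ h2
      have v1 : s 1 = z 1 * u 0 + z 2 * w 0 := by
        have := congrFun s1 0
        rw [h] at this
        simpa using this
      have v2 : s 2 = z 1 * u 1 + z 2 * w 1 := by
        have := congrFun s1 1
        rw [h] at this
        simpa using this
      simp only [pr_zero, pr_one, Pi.add_apply, Pi.smul_apply, Pi.sub_apply, smul_eq_mul,
        cs_one, cs_two, Matrix.cons_val_zero, Matrix.cons_val_one, v1, v2] at h3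
      have h4 : 0 < p ^ 2 + q ^ 2 := by
        rcases hpq with h | h
        · have := sq_pos_of_ne_zero h; positivity
        · have := sq_pos_of_ne_zero h; positivity
      nlinarith [mul_pos hε h4]
    · have h1 : pr x - pr (x - s) ∈ QQ B c := cone_diff hB h0 hcc hx' hxs' (by
        show x 0 - (x 0 - s 0) = 8 / 9
        rw [s0, h]; push_cast; ring)
      rw [← pr_sub, sub_sub_cancel, s1, h, Int.cast_one, one_smul] at h1
      exact ht' _ _ h1
    · have h1 : pr (x - s) - pr x ∈ QQ B c := cone_diff hB h0 hcc hxs' hx' (by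
        show x 0 - s 0 - x 0 = 8 / 9
        rw [s0, h]; push_cast; ring)
      have e : pr (x - s) - pr x = t + (((-z 1 : ℤ) : ℝ) • u + ((-z 2 : ℤ) : ℝ) • w) := by
        rw [pr_sub, s1, h]
        push_cast
        simp only [neg_smul, one_smul]
        abel
      rw [e] at h1
      exact ht' _ _ h1
  · rintro s ⟨z, hz⟩
    have s0 : s 0 = z 0 * (8 / 9) := by rw [hz]; exact bt_zero t u w z
    have s1 : pr s = (z 0 : ℝ) • t + ((z 1 : ℝ) • u + (z 2 : ℝ) • w) := by
      rw [hz]; exact bt_pr t u w z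
    rw [Set.disjoint_left]
    intro X hX hX'
    have hpre : tr (rfl' (Cn B) (cs (8 / 9) o)) s
        = (Homeomorph.subLeft (cs (8 / 9) o + s)) ⁻¹' Cn B := by
      ext y
      simp only [tr, rfl', Set.mem_image, Set.mem_preimage, Homeomorph.subLeft_apply]
      constructor
      · rintro ⟨_, ⟨y', hy', rfl⟩, rfl⟩
        have : cs (8 / 9) o + s - (cs (8 / 9) o - y' + s) = y' := by abel
        rw [this]; exact hy'
      · intro hy
        refine ⟨_, ⟨_, hy, rfl⟩, ?_⟩
        abel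
    rw [hpre, ← Homeomorph.preimage_interior] at hX'
    have hX2 : cs (8 / 9) o + s - X ∈ interior (Cn B) := hX'
    have hx := interior_subset hX
    have hy := interior_subset hX2
    set Y := cs (8 / 9) o + s - X with hY
    have e0 : X 0 + Y 0 = (z 0 + 1) * (8 / 9) := by
      rw [hY]
      show X 0 + (8 / 9 + s 0 - X 0) = _
      rw [s0]; ring
    have e1 : pr X + pr Y = o + ((z 1 : ℝ) • u + (z 2 : ℝ) • w) + (z 0 : ℝ) • t := by
      rw [← pr_add, hY, add_sub_cancel, pr_add, pr_cs, s1]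
      abel
    have hsum := cone_sum hB hx hy
    rw [e0, e1] at hsum
    have g1 := hx.1
    have g2 := hx.2.1
    have g3 := hy.1
    have g4 := hy.2.1
    have hcase : z 0 = 0 ∨ z 0 = 1 ∨ z 0 = -1 := by
      have a1 : (z 0 : ℝ) < 2 := by linarith
      have a2 : (-2 : ℝ) < z 0 := by linarith
      have a3 : z 0 < 2 := by exact_mod_cast a1
      have a4 : -2 < z 0 := by exact_mod_cast a2
      omega
    rcases hcase with h | h | h
    · rw [h] at hsum
      simp only [Int.cast_zero, zero_smul, add_zero, zero_add, one_mul] at hsum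
      apply ho1 (z 1) (z 2)
      convert hsum using 2
      norm_num
    · rw [h] at hsum
      simp only [Int.cast_one, one_smul] at hsum
      apply ho2 (z 1) (z 2)
      convert hsum using 2
      norm_num
    · obtain ⟨ε, hε, hxε⟩ := interior_push hX (cs (-1) 0)
      have := hxε.1
      have e2 : (X + ε • cs (-1) 0) 0 = X 0 - ε := by
        simp [sub_eq_add_neg]
      rw [e2] at this
      rw [h] at e0
      push_cast at e0
      linarith

end Pool.Agent.TH219.DL
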