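import Pool.Agent.TH219.DL.Bridge
import Pool.Agent.H349R2.Tet.Vol
import Pool.Agent.H349R2.Tet.TLow
import Pool.Agent.H349R2.Tet.Aff

/-!
# Packings by translates of the tetrahedron have density at most `2/5`
-/

namespace Pool.Agent.TH219.DL

open MeasureTheory Filter Topology
open scoped ENNReal
open Pool.Agent.H349R2.Tet

theorem T_cpt : IsCompact T := by
  rw [T_eq_hull]
  exact Set.Finite.isCompact_convexHull ℝ (Set.finite_range _)

theorem T_body : Body T := by
  refine ⟨T_cpt, by rw [T_eq_hull]; exact convex_convexHull ℝ _, ⟨0, ?_⟩⟩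
  rw [interior_T]
  intro i
  unfold lam
  simp

/-- half of the open difference body of the tetrahedron -/
def H : Set V := {u | (∀ i, |u i| < 1 / 2) ∧ |u 0| + |u 1| + |u 2| < 1}

theorem H_open : IsOpen H := by
  have h1 : IsOpen {u : V | ∀ i, |u i| < 1 / 2} := by
    simp only [Set.ofPred_forall]
    exact isOpen_iInter_of_finite fun i =>
      isOpen_lt ((continuous_apply i).abs) continuous_const
  have h2 : IsOpen {u : V | |u 0| + |u 1| + |u 2| < 1} :=
    isOpen_lt (by fun_prop) continuous_const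
  exact h1.inter h2

/-- the corner of the cube cut off by `H` -/
def cor (e : Fin 3 → ℝ) : Set V :=
  {u | (∀ i, e i * u i ≤ 1 / 2) ∧ 1 ≤ e 0 * u 0 + e 1 * u 1 + e 2 * u 2}

theorem vol_cor (e : Fin 3 → ℝ) (he : ∀ i, e i = 1 ∨ e i = -1) :
    volume (cor e) = ENNReal.ofReal (1 / 48) := by
  have hdet : (Matrix.diagonal (fun i => -e i)).det = -(e 0 * e 1 * e 2) := by
    rw [Matrix.det_diagonal, Fin.prod_univ_three]; ring
  have habs : ∀ i, |e i| = 1 := by
    intro i; rcases he i with h | h <;> simp [h]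
  have hne : (Matrix.diagonal (fun i => -e i)).det ≠ 0 := by
    rw [hdet]
    have : |-(e 0 * e 1 * e 2)| = 1 := by
      rw [abs_neg, abs_mul, abs_mul, habs, habs, habs]; norm_num
    intro h0
    rw [h0] at this
    norm_num at this
  have h := vol_aff (Matrix.diagonal (fun i => -e i)) hne (fun _ => 1 / 2)
    {y : V | 0 ≤ y 0 ∧ 0 ≤ y 1 ∧ 0 ≤ y 2 ∧ y 0 + y 1 + y 2 ≤ 1 / 2}
  rw [vol_le (1 / 2) (by norm_num)] at h
  have hpre : (fun x : V => (Matrix.diagonal (fun i => -e i)).mulVec x + fun _ => 1 / 2) ⁻¹'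
      {y : V | 0 ≤ y 0 ∧ 0 ≤ y 1 ∧ 0 ≤ y 2 ∧ y 0 + y 1 + y 2 ≤ 1 / 2} = cor e := by
    ext u
    simp only [Set.mem_preimage, cor, Set.mem_ofPred_eq, Pi.add_apply, Matrix.mulVec_diagonal]
    constructor
    · rintro ⟨h0, h1, h2, h3⟩
      refine ⟨?_, by linarith⟩
      intro i
      fin_cases i
      · show e 0 * u 0 ≤ 1 / 2
        linarith
      · show e 1 * u 1 ≤ 1 / 2
        linarith
      · show e 2 * u 2 ≤ 1 / 2
        linarith
    · rintro ⟨h0, h1⟩
      exact ⟨by linarith [h0 0], by linarith [h0 1], by linarith [h0 2], by linarith⟩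
  rw [hpre] at h
  rw [h, ← ENNReal.ofReal_mul (abs_nonneg _), abs_inv, hdet, abs_neg, abs_mul, abs_mul, habs,
    habs, habs]
  norm_num

theorem vol_H : ENNReal.ofReal (5 / 6) ≤ volume H := by
  have hcube : volume (Set.pi Set.univ (fun _ : Fin 3 => Set.Ioo (-(1 / 2) : ℝ) (1 / 2))) = 1 := by
    rw [Real.volume_pi_Ioo]; norm_num
  let sg : Fin 3 → Bool → ℝ := fun _ s => if s = true then 1 else -1
  let ee : (Fin 3 → Bool) → (Fin 3 → ℝ) := fun s i => if s i = true then 1 else -1
  have hee : ∀ s i, ee s i = 1 ∨ ee s i = -1 := by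
    intro s i
    simp only [ee]
    split_ifs
    · left; rfl
    · right; rfl
  have hcov : Set.pi Set.univ (fun _ : Fin 3 => Set.Ioo (-(1 / 2) : ℝ) (1 / 2))
      ⊆ H ∪ ⋃ s : Fin 3 → Bool, cor (ee s) := by
    intro u hu
    have hu' : ∀ i, -(1 / 2) < u i ∧ u i < 1 / 2 := fun i => hu i (Set.mem_univ _)
    by_cases hH : u ∈ H
    · left; exact hH
    · right
      rw [Set.mem_iUnion]
      refine ⟨fun i => decide (0 ≤ u i), ?_⟩
      have habs : ∀ i, ee (fun i => decide (0 ≤ u i)) i * u i = |u i| := by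
        intro i
        simp only [ee, decide_eq_true_eq]
        split_ifs with h
        · rw [abs_of_nonneg h, one_mul]
        · rw [abs_of_neg (not_le.1 h)]; ring
      have hlt : ∀ i, |u i| < 1 / 2 := fun i => abs_lt.2 (hu' i)
      refine ⟨fun i => ?_, ?_⟩
      · rw [habs]; exact (hlt i).le
      · rw [habs, habs, habs]
        by_contra hcon
        push Not at hcon
        exact hH ⟨hlt, hcon⟩
  have h1 : (1 : ℝ≥0∞) ≤ volume H + ENNReal.ofReal (1 / 6) := by
    calc (1 : ℝ≥0∞) = volume (Set.pi Set.univ (fun _ : Fin 3 => Set.Ioo (-(1 / 2) : ℝ) (1 / 2))) :=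
          hcube.symm
      _ ≤ volume (H ∪ ⋃ s : Fin 3 → Bool, cor (ee s)) := measure_mono hcov
      _ ≤ volume H + volume (⋃ s : Fin 3 → Bool, cor (ee s)) := measure_union_le _ _
      _ ≤ volume H + ∑' s : Fin 3 → Bool, volume (cor (ee s)) := by
          gcongr; exact measure_iUnion_le _
      _ = volume H + ENNReal.ofReal (1 / 6) := by
          congr 1
          rw [tsum_fintype]
          simp only [vol_cor _ (hee _)]
          rw [Finset.sum_const, Finset.card_univ]
          simp only [Fintype.card_pi, Fintype.card_bool, Finset.prod_const, Finset.card_univ,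
            Fintype.card_fin, nsmul_eq_mul]
          have : ((2 ^ 3 : ℕ) : ℝ≥0∞) = ENNReal.ofReal 8 := by
            norm_num
          rw [this, ← ENNReal.ofReal_mul (by norm_num)]
          norm_num
  have h2 : (1 : ℝ≥0∞) = ENNReal.ofReal (5 / 6) + ENNReal.ofReal (1 / 6) := by
    rw [← ENNReal.ofReal_add (by norm_num) (by norm_num)]; norm_num
  rw [h2] at h1
  exact (ENNReal.add_le_add_iff_right ENNReal.ofReal_ne_top).1 h1

theorem H_sub {x y : V} (hx : x ∈ H) (hy : y ∈ H) : Ov T (x - y) := by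
  rw [T_ov]
  obtain ⟨h1, h2⟩ := hx
  obtain ⟨h3, h4⟩ := hy
  have h : ∀ i, |(x - y) i| ≤ |x i| + |y i| := fun i => by
    rw [Pi.sub_apply]; exact abs_sub _ _
  refine ⟨fun i => ?_, ?_⟩
  · have := h i; have := h1 i; have := h3 i; linarith
  · have := h 0; have := h 1; have := h 2; linarith

theorem H_bdd : ∃ R : ℝ, 0 < R ∧ ∀ h ∈ H, ∀ y ∈ T, h - y ∈ Bl R := by
  obtain ⟨R0, hR0⟩ := T_cpt.isBounded.subset_closedBall (0 : V)
  have hR1 : T ⊆ Bl (2 * max R0 1) :=
    (hR0.trans (Metric.closedBall_subset_closedBall (le_max_left R0 1))).trans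
      (ball_subset_bl _ (by positivity))
  refine ⟨1 + 2 * max R0 1, by positivity, fun h hh y hy => ?_⟩
  have h1 : h ∈ Bl 1 := by
    obtain ⟨h1, h2⟩ := hh
    have e : ∀ i, h i ^ 2 ≤ |h i| := by
      intro i
      have hi := h1 i
      rw [← sq_abs]
      nlinarith [abs_nonneg (h i)]
    show h 0 ^ 2 + h 1 ^ 2 + h 2 ^ 2 ≤ 1 ^ 2
    have := e 0; have := e 1; have := e 2
    linarith
  rw [sub_eq_add_neg]
  exact bl_add (by norm_num) (by positivity) h1 (bl_neg (hR1 hy))

theorem dT_T : dT T ≤ ENNReal.ofReal (2 / 5) := by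
  unfold dT
  refine iSup₂_le fun S hS => ?_
  obtain ⟨hfalse, hpack⟩ := hS
  obtain ⟨R, hR, hRb⟩ := H_bdd
  -- translates of `H`
  let Hc : S → Set V := fun p => (fun x => x + p.1.2) '' H
  have hHm : ∀ p, MeasurableSet (Hc p) := by
    intro p
    have : Hc p = (Homeomorph.addRight p.1.2) '' H := rfl
    rw [this]
    exact ((Homeomorph.isOpenMap _) _ H_open).measurableSet
  have hHv : ∀ p, volume (Hc p) = volume H := by
    intro p
    show volume ((fun x => x + p.1.2) '' H) = _
    rw [Set.image_add_right, measure_preimage_add_right]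
  have hdisj : Pairwise (Function.onFun Disjoint Hc) := by
    intro p q hpq
    rw [Function.onFun, Set.disjoint_left]
    rintro X ⟨x, hx, hxX⟩ ⟨y, hy, hyX⟩
    obtain ⟨z, hz, hz'⟩ := H_sub hx hy
    have hne : p.1 ≠ q.1 := fun e => hpq (Subtype.ext e)
    have hd := hpack p.1 p.2 q.1 q.2 hne
    rw [interior_mem, interior_mem, Set.disjoint_left] at hd
    have hxX' : x + p.1.2 = X := hxX
    have hyX' : y + q.1.2 = X := hyX
    have e : x - y = q.1.2 - p.1.2 := by
      have : x = X - p.1.2 := by rw [← hxX']; abel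
      rw [this, ← hyX']; abel
    apply hd (a := z + p.1.2)
    · refine ⟨z, hz, ?_⟩
      simp [hfalse p.1 p.2]
    · refine ⟨z - (x - y), hz', ?_⟩
      simp only [hfalse q.1 q.2]
      rw [e]
      simp
      abel
  have hterm : ∀ r : ℝ, 0 < r → ∀ p : S, volume (mem T p.1 ∩ Bl r)
      ≤ ENNReal.ofReal (2 / 5) * volume (Hc p ∩ Bl (r + R)) := by
    intro r hr p
    rcases Set.eq_empty_or_nonempty (mem T p.1 ∩ Bl r) with he | ⟨X, hX, hXr⟩
    · rw [he, measure_empty]; exact bot_le
    · obtain ⟨y, hy, hyX⟩ := hX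
      have hyX' : y + p.1.2 = X := by simpa [hfalse p.1 p.2] using hyX
      have hsub : Hc p ⊆ Bl (r + R) := by
        rintro _ ⟨h, hh, rfl⟩
        have h1 := bl_add hr.le hR.le hXr (hRb h hh y hy)
        have e : X + (h - y) = h + p.1.2 := by rw [← hyX']; abel
        rwa [e] at h1
      rw [Set.inter_eq_left.2 hsub, hHv]
      have hmem : mem T p.1 = tr T p.1.2 := by
        have : p.1 = (false, p.1.2) := Prod.ext (hfalse p.1 p.2) rfl
        rw [this, mem_false]
      calc volume (mem T p.1 ∩ Bl r) ≤ volume (mem T p.1) := measure_mono Set.inter_subset_left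
        _ = volume T := by
            rw [hmem]
            unfold tr
            rw [Set.image_add_right, measure_preimage_add_right]
        _ = ENNReal.ofReal (2 / 5) * ENNReal.ofReal (5 / 6) := by
            rw [vol_T', ← ENNReal.ofReal_mul (by norm_num)]; norm_num
        _ ≤ _ := by gcongr; exact vol_H
  have hsum : ∀ r : ℝ, 0 < r → ∑' p : S, volume (mem T p.1 ∩ Bl r)
      ≤ ENNReal.ofReal (2 / 5) * volume (Bl (r + R)) := by
    intro r hr
    calc ∑' p : S, volume (mem T p.1 ∩ Bl r)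
        ≤ ∑' p : S, ENNReal.ofReal (2 / 5) * volume (Hc p ∩ Bl (r + R)) :=
          ENNReal.tsum_le_tsum (hterm r hr)
      _ = ENNReal.ofReal (2 / 5) * ∑' p : S, volume (Hc p ∩ Bl (r + R)) := ENNReal.tsum_mul_left
      _ ≤ ENNReal.ofReal (2 / 5) * volume (⋃ p, Hc p ∩ Bl (r + R)) := by
          gcongr
          apply tsum_meas_le_meas_iUnion_of_disjoint
          · intro p; exact (hHm p).inter (bl_measurable _)
          · intro p q hpq
            exact (hdisj hpq).mono Set.inter_subset_left Set.inter_subset_left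
      _ ≤ _ := by
          gcongr
          exact Set.iUnion_subset fun p => Set.inter_subset_right
  unfold den
  have hup : Tendsto (fun r : ℝ => ENNReal.ofReal (2 / 5) * ENNReal.ofReal (((r + R) / r) ^ 3))
      atTop (𝓝 (ENNReal.ofReal (2 / 5))) := by
    have h1 : Tendsto (fun r : ℝ => ((r + R) / r) ^ 3) atTop (𝓝 1) := by
      have h2 : Tendsto (fun r : ℝ => (1 + R * r⁻¹) ^ 3) atTop (𝓝 ((1 + R * 0) ^ 3)) :=
        ((tendsto_const_nhds.add (tendsto_const_nhds.mul tendsto_inv_atTop_zero)).pow 3)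
      simp only [mul_zero, add_zero, one_pow] at h2
      refine h2.congr' ?_
      filter_upwards [eventually_gt_atTop 0] with r hr
      congr 1
      field_simp
    have h3 := ENNReal.Tendsto.const_mul (a := ENNReal.ofReal (2 / 5))
      (ENNReal.tendsto_ofReal h1) (Or.inl (by simp))
    simpa using h3
  rw [← hup.limsup_eq]
  apply limsup_le_limsup
  · filter_upwards [eventually_gt_atTop 0] with r hr
    have hb0 : volume (Bl r) ≠ 0 := by
      rw [vol_bl hr]
      exact mul_ne_zero (by rw [ne_eq, ENNReal.ofReal_eq_zero, not_le]; positivity)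
        vol_bl_one_pos.ne'
    have hbt : volume (Bl r) ≠ ∞ := by
      rw [vol_bl hr]
      exact ENNReal.mul_ne_top ENNReal.ofReal_ne_top vol_bl_one_lt_top.ne
    rw [ENNReal.div_le_iff hb0 hbt]
    refine (hsum r hr).trans (le_of_eq ?_)
    rw [vol_bl hr, vol_bl (by linarith : 0 < r + R)]
    have e : ENNReal.ofReal ((r + R) ^ 3) = ENNReal.ofReal (((r + R) / r) ^ 3) * ENNReal.ofReal (r ^ 3) := by
      rw [← ENNReal.ofReal_mul (by positivity)]
      congr 1
      field_simp
    rw [e]
    ring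
  · exact Filter.isCobounded_le_of_bot
  · exact Filter.isBounded_le_of_top

end Pool.Agent.TH219.DL
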