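import Pool.Agent.TH219.DL.CnAff
import Pool.Agent.TH219.DL.TUp

/-!
# The tetrahedron is a cone
-/

namespace Pool.Agent.TH219.DL

open MeasureTheory Filter Topology
open scoped Pointwise ENNReal
open Pool.Agent.H349R2.Tet

/-- the standard triangle -/
def Tr : Set (Fin 2 → ℝ) := {x | 0 ≤ x 0 ∧ 0 ≤ x 1 ∧ x 0 + x 1 ≤ 1}

theorem Tr_convex : Convex ℝ Tr := by
  rintro x ⟨hx0, hx1, hx2⟩ y ⟨hy0, hy1, hy2⟩ α β hα hβ hαβ
  refine ⟨?_, ?_, ?_⟩
  · show 0 ≤ α * x 0 + β * y 0
    positivity
  · show 0 ≤ α * x 1 + β * y 1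
    positivity
  · show α * x 0 + β * y 0 + (α * x 1 + β * y 1) ≤ 1
    nlinarith

theorem Tr_compact : IsCompact Tr := by
  have h1 : IsClosed Tr := by
    have e : Tr = {x : Fin 2 → ℝ | 0 ≤ x 0} ∩ ({x | 0 ≤ x 1} ∩ {x | x 0 + x 1 ≤ 1}) := rfl
    rw [e]
    refine (isClosed_le continuous_const (continuous_apply 0)).inter
      ((isClosed_le continuous_const (continuous_apply 1)).inter
      (isClosed_le ((continuous_apply 0).add (continuous_apply 1)) continuous_const))
  have h2 : Tr ⊆ Set.Icc 0 1 := by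
    rintro x ⟨h0, h1, h2⟩
    refine ⟨fun i => ?_, fun i => ?_⟩
    · fin_cases i
      · exact h0
      · exact h1
    · fin_cases i
      · show x 0 ≤ 1
        linarith
      · show x 1 ≤ 1
        linarith
  exact isCompact_Icc.of_isClosed_subset h1 h2

theorem Tr_interior : (interior Tr).Nonempty := by
  have h1 : IsOpen {x : Fin 2 → ℝ | 0 < x 0 ∧ 0 < x 1 ∧ x 0 + x 1 < 1} := by
    have e : {x : Fin 2 → ℝ | 0 < x 0 ∧ 0 < x 1 ∧ x 0 + x 1 < 1}
      = {x : Fin 2 → ℝ | 0 < x 0} ∩ ({x | 0 < x 1} ∩ {x | x 0 + x 1 < 1}) := rfl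
    rw [e]
    refine (isOpen_lt continuous_const (continuous_apply 0)).inter
      ((isOpen_lt continuous_const (continuous_apply 1)).inter
      (isOpen_lt ((continuous_apply 0).add (continuous_apply 1)) continuous_const))
  refine ⟨fun _ => 1 / 3, mem_interior.2 ⟨_, fun x hx => ⟨hx.1.le, hx.2.1.le, hx.2.2.le⟩, h1, ?_⟩⟩
  norm_num

/-- the affine embedding of the plane onto the plane of a face -/
noncomputable def em : (Fin 2 → ℝ) →ᵃ[ℝ] V :=
  ((LinearMap.proj 0 : (Fin 2 → ℝ) →ₗ[ℝ] ℝ).smulRight (![-1, 1, 0] : V)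
    + (LinearMap.proj 1 : (Fin 2 → ℝ) →ₗ[ℝ] ℝ).smulRight (![-1, 0, 1] : V)).toAffineMap
    + AffineMap.const ℝ _ (![1 / 2, -1 / 2, -1 / 2] : V)

theorem em_apply (x : Fin 2 → ℝ) : em x = ![1 / 2 - x 0 - x 1, x 0 - 1 / 2, x 1 - 1 / 2] := by
  funext i
  fin_cases i
  · simp [em]; ring
  · simp [em]; ring
  · simp [em]; ring

theorem T_cone : IsCone T := by
  refine ⟨Tr, em, (1 / 2 : ℝ) • nv 0, Tr_compact, Tr_convex, Tr_interior, ?_, ?_, ?_⟩
  · intro x y h
    rw [em_apply, em_apply] at h
    have h1 := congrFun h 1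
    have h2 := congrFun h 2
    simp only [Matrix.cons_val_one, Matrix.cons_val, Matrix.cons_val_zero] at h1 h2
    funext i
    fin_cases i
    · show x 0 = y 0
      linarith
    · show x 1 = y 1
      linarith
  · rintro ⟨x, hx⟩
    rw [em_apply] at hx
    have h0 := congrFun hx 0
    have h1 := congrFun hx 1
    have h2 := congrFun hx 2
    simp [nv] at h0 h1 h2
    linarith
  · apply Set.Subset.antisymm
    · rw [T_eq_hull]
      apply convexHull_mono
      rintro _ ⟨i, rfl⟩
      fin_cases i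
      · exact Set.mem_insert _ _
      · refine Set.mem_insert_of_mem _ ⟨![0, 0], ⟨?_, ?_, ?_⟩, ?_⟩
        · simp
        · simp
        · simp
        · rw [em_apply]
          funext i
          fin_cases i <;> simp [nv]
      · refine Set.mem_insert_of_mem _ ⟨![1, 0], ⟨?_, ?_, ?_⟩, ?_⟩
        · simp
        · simp
        · simp
        · rw [em_apply]
          funext i
          fin_cases i <;> simp [nv] <;> norm_num
      · refine Set.mem_insert_of_mem _ ⟨![0, 1], ⟨?_, ?_, ?_⟩, ?_⟩
        · simp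
        · simp
        · simp
        · rw [em_apply]
          funext i
          fin_cases i <;> simp [nv] <;> norm_num
    · apply convexHull_min _ Aff.convex_T
      rintro y (rfl | ⟨x, ⟨h0, h1, h2⟩, rfl⟩)
      · intro i
        rw [Aff.lam_vert]
        split_ifs <;> norm_num
      · intro i
        rw [em_apply]
        fin_cases i
        · simp [lam, nv, Fin.sum_univ_three]
          linarith
        · simp [lam, nv, Fin.sum_univ_three]
          linarith
        · simp [lam, nv, Fin.sum_univ_three]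
          linarith
        · simp [lam, nv, Fin.sum_univ_three]
          linarith

end Pool.Agent.TH219.DL
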