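import Mathlib

/-!
# Fáry's planar lattice for a convex disc, via an inscribed triangle of maximal area
-/

namespace Pool.Agent.TH219.DL

open MeasureTheory

/-- the plane -/
abbrev W := Fin 2 → ℝ

/-- twice the signed area of the triangle `A B C` -/
def Dt (A B C : W) : ℝ := (B 0 - A 0) * (C 1 - A 1) - (B 1 - A 1) * (C 0 - A 0)

/-- half-open standard triangle -/
def Dl : Set W := {z | 0 < z 0 ∧ 0 ≤ z 1 ∧ z 0 + z 1 ≤ 1}

theorem mem_Dl (z : W) : z ∈ Dl ↔ 0 < z 0 ∧ 0 ≤ z 1 ∧ z 0 + z 1 ≤ 1 := Iff.rfl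

theorem Dl_meas : MeasurableSet Dl := by
  have h1 : MeasurableSet {z : W | 0 < z 0} :=
    measurableSet_lt measurable_const (measurable_pi_apply 0)
  have h2 : MeasurableSet {z : W | 0 ≤ z 1} :=
    measurableSet_le measurable_const (measurable_pi_apply 1)
  have h3 : MeasurableSet {z : W | z 0 + z 1 ≤ 1} :=
    measurableSet_le ((measurable_pi_apply 0).add (measurable_pi_apply 1)) measurable_const
  exact h1.inter (h2.inter h3)

theorem vol_Dl : ENNReal.ofReal (1 / 2) ≤ volume Dl := by
  -- the square is covered by the triangle and its reflection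
  have hsq : volume (Set.pi Set.univ (fun _ : Fin 2 => Set.Ioo (0 : ℝ) 1)) = 1 := by
    rw [Real.volume_pi_Ioo]; simp
  have hcov : Set.pi Set.univ (fun _ : Fin 2 => Set.Ioo (0 : ℝ) 1)
      ⊆ Dl ∪ (fun z : W => (fun _ => (1 : ℝ)) - z) ⁻¹' Dl := by
    intro z hz
    have h0 := hz 0 (Set.mem_univ _)
    have h1 := hz 1 (Set.mem_univ _)
    simp only [Set.mem_Ioo] at h0 h1
    by_cases h : z 0 + z 1 ≤ 1
    · left; exact ⟨h0.1, h1.1.le, h⟩
    · right
      rw [Set.mem_preimage, mem_Dl]
      simp only [Pi.sub_apply]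
      exact ⟨by linarith, by linarith, by linarith⟩
  have hpre : volume ((fun z : W => (fun _ => (1 : ℝ)) - z) ⁻¹' Dl) = volume Dl :=
    (Measure.measurePreserving_sub_left volume (fun _ => (1 : ℝ))).measure_preimage
      Dl_meas.nullMeasurableSet
  have h : (1 : ENNReal) ≤ volume Dl + volume Dl := by
    calc (1 : ENNReal) = volume (Set.pi Set.univ (fun _ : Fin 2 => Set.Ioo (0 : ℝ) 1)) := hsq.symm
      _ ≤ _ := measure_mono hcov
      _ ≤ _ := measure_union_le _ _
      _ = _ := by rw [hpre]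
  by_contra hcon
  push Not at hcon
  have h2 : volume Dl + volume Dl < ENNReal.ofReal (1 / 2) + ENNReal.ofReal (1 / 2) :=
    ENNReal.add_lt_add hcon hcon
  rw [← ENNReal.ofReal_add (by norm_num) (by norm_num)] at h2
  norm_num at h2
  exact absurd (lt_of_le_of_lt h h2) (lt_irrefl _)

/-- the affine image of the standard triangle with vertices `p, q, r` -/
def tri (p q r : W) : Set W := (fun z : W => (fun i => z 0 * p i + z 1 * q i
  + (1 - z 0 - z 1) * r i)) '' Dl

theorem vol_tri (p q r : W) : ENNReal.ofReal (|Dt r p q| / 2) ≤ volume (tri p q r) := by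
  let L : W →ₗ[ℝ] W := Matrix.toLin' !![p 0 - r 0, q 0 - r 0; p 1 - r 1, q 1 - r 1]
  have hdet : LinearMap.det L = Dt r p q := by
    simp only [L, LinearMap.det_toLin', Matrix.det_fin_two_of, Dt]
    ring
  have himg : tri p q r = (fun x => r + x) '' (L '' Dl) := by
    rw [← Set.image_comp]
    unfold tri
    apply Set.image_congr
    intro z _
    funext i
    simp only [L, Function.comp, Pi.add_apply, Matrix.toLin'_apply, Matrix.mulVec, dotProduct,
      Fin.sum_univ_two]
    fin_cases i <;> simp <;> ring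
  rw [himg, Set.image_add_left, measure_preimage_add, Measure.addHaar_image_linearMap, hdet,
    div_eq_mul_one_div, ENNReal.ofReal_mul (abs_nonneg _)]
  gcongr
  exact vol_Dl

theorem tri_sub {P : Set W} (hP : Convex ℝ P) {p q r : W} (hp : p ∈ P) (hq : q ∈ P)
    (hr : r ∈ P) : tri p q r ⊆ P := by
  rintro _ ⟨z, ⟨h0, h1, h2⟩, rfl⟩
  have h := hP.sum_mem (t := Finset.univ) (w := ![z 0, z 1, 1 - z 0 - z 1]) (z := ![p, q, r])
    (by intro i _; fin_cases i <;> simp <;> linarith)
    (by simp [Fin.sum_univ_three])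
    (by intro i _; fin_cases i <;> simp <;> assumption)
  have e : (fun i => z 0 * p i + z 1 * q i + (1 - z 0 - z 1) * r i)
      = ∑ i : Fin 3, (![z 0, z 1, 1 - z 0 - z 1] i) • (![p, q, r] i) := by
    funext i
    simp [Fin.sum_univ_three]
  show (fun i => z 0 * p i + z 1 * q i + (1 - z 0 - z 1) * r i) ∈ P
  rw [e]
  exact h

theorem Dt_cont {X : Type*} [TopologicalSpace X] {f g h : X → W} (hf : Continuous f)
    (hg : Continuous g) (hh : Continuous h) : Continuous fun x => Dt (f x) (g x) (h x) := by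
  unfold Dt
  fun_prop

theorem Dt_sum (A B C X : W) : Dt X B C + Dt A X C + Dt A B X = Dt A B C := by
  unfold Dt; ring

/-- area of the hull of a triangle and three further points -/
theorem area_low {P : Set W} (hP : Convex ℝ P) {A B C XA XB XC : W}
    (hA : A ∈ P) (hB : B ∈ P) (hC : C ∈ P) (hXA : XA ∈ P) (hXB : XB ∈ P) (hXC : XC ∈ P)
    {a b c : ℝ} (ha : Dt XA B C = -a) (hb : Dt A XB C = -b) (hcc : Dt A B XC = -c)
    (ha0 : 0 ≤ a) (hb0 : 0 ≤ b) (hc0 : 0 ≤ c)
    (hM : 0 < Dt A B C)
    (m1 : ∀ X ∈ P, Dt X B C ≤ Dt A B C) (m2 : ∀ X ∈ P, Dt A X C ≤ Dt A B C)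
    (m3 : ∀ X ∈ P, Dt A B X ≤ Dt A B C) :
    ENNReal.ofReal ((Dt A B C + a + b + c) / 2) ≤ volume P := by
  set SA : Set W := {X | Dt X B C < 0} with hSA
  set SB : Set W := {X | Dt A X C < 0} with hSB
  set SC : Set W := {X | Dt A B X < 0} with hSC
  have mSA : MeasurableSet SA :=
    (isOpen_lt (Dt_cont continuous_id continuous_const continuous_const)
      continuous_const).measurableSet
  have mSB : MeasurableSet SB :=
    (isOpen_lt (Dt_cont continuous_const continuous_id continuous_const)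
      continuous_const).measurableSet
  have mSC : MeasurableSet SC :=
    (isOpen_lt (Dt_cont continuous_const continuous_const continuous_id)
      continuous_const).measurableSet
  have e1 := measure_inter_add_sdiff (μ := volume) P mSA
  have e2 := measure_inter_add_sdiff (μ := volume) (P \ SA) mSB
  have e3 := measure_inter_add_sdiff (μ := volume) ((P \ SA) \ SB) mSC
  have hab1 : 0 ≤ Dt XB B C := by
    have h := Dt_sum A B C XB
    have := m3 XB hXB
    linarith
  have hac1 : 0 ≤ Dt XC B C := by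
    have h := Dt_sum A B C XC
    have := m2 XC hXC
    linarith
  have hbc1 : 0 ≤ Dt A XC C := by
    have h := Dt_sum A B C XC
    have := m1 XC hXC
    linarith
  have tA : ENNReal.ofReal (a / 2) ≤ volume (P ∩ SA) := by
    rcases ha0.eq_or_lt with h | h
    · rw [← h]; simp
    · have h1 := vol_tri XA B C
      have h2 : Dt C XA B = -a := by rw [← ha]; unfold Dt; ring
      rw [h2, abs_neg, abs_of_nonneg ha0] at h1
      refine h1.trans (measure_mono ?_)
      intro x hx
      refine ⟨tri_sub hP hXA hB hC hx, ?_⟩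
      obtain ⟨z, ⟨h0, h1, h2⟩, rfl⟩ := hx
      show Dt _ B C < 0
      have : Dt (fun i => z 0 * XA i + z 1 * B i + (1 - z 0 - z 1) * C i) B C
          = z 0 * Dt XA B C := by unfold Dt; ring
      rw [this, ha]
      nlinarith
  have tB : ENNReal.ofReal (b / 2) ≤ volume ((P \ SA) ∩ SB) := by
    rcases hb0.eq_or_lt with h | h
    · rw [← h]; simp
    · have h1 := vol_tri XB C A
      rw [hb, abs_neg, abs_of_nonneg hb0] at h1
      refine h1.trans (measure_mono ?_)
      intro x hx
      have hxP := tri_sub hP hXB hC hA hx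
      obtain ⟨z, ⟨h0, h1, h2⟩, rfl⟩ := hx
      refine ⟨⟨hxP, ?_⟩, ?_⟩
      · show ¬ (Dt _ B C < 0)
        have : Dt (fun i => z 0 * XB i + z 1 * C i + (1 - z 0 - z 1) * A i) B C
            = z 0 * Dt XB B C + (1 - z 0 - z 1) * Dt A B C := by unfold Dt; ring
        rw [this, not_lt]
        have := mul_nonneg h0.le hab1
        have := mul_nonneg (show 0 ≤ 1 - z 0 - z 1 by linarith) hM.le
        linarith
      · show Dt A _ C < 0
        have : Dt A (fun i => z 0 * XB i + z 1 * C i + (1 - z 0 - z 1) * A i) C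
            = z 0 * Dt A XB C := by unfold Dt; ring
        rw [this, hb]
        nlinarith
  have tC : ENNReal.ofReal (c / 2) ≤ volume (((P \ SA) \ SB) ∩ SC) := by
    rcases hc0.eq_or_lt with h | h
    · rw [← h]; simp
    · have h1 := vol_tri XC A B
      have h2 : Dt B XC A = -c := by rw [← hcc]; unfold Dt; ring
      rw [h2, abs_neg, abs_of_nonneg hc0] at h1
      refine h1.trans (measure_mono ?_)
      intro x hx
      have hxP := tri_sub hP hXC hA hB hx
      obtain ⟨z, ⟨h0, h1, h2⟩, rfl⟩ := hx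
      refine ⟨⟨⟨hxP, ?_⟩, ?_⟩, ?_⟩
      · show ¬ (Dt _ B C < 0)
        have : Dt (fun i => z 0 * XC i + z 1 * A i + (1 - z 0 - z 1) * B i) B C
            = z 0 * Dt XC B C + z 1 * Dt A B C := by unfold Dt; ring
        rw [this, not_lt]
        have := mul_nonneg h0.le hac1
        have := mul_nonneg h1 hM.le
        linarith
      · show ¬ (Dt A _ C < 0)
        have : Dt A (fun i => z 0 * XC i + z 1 * A i + (1 - z 0 - z 1) * B i) C
            = z 0 * Dt A XC C + (1 - z 0 - z 1) * Dt A B C := by unfold Dt; ring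
        rw [this, not_lt]
        have := mul_nonneg h0.le hbc1
        have := mul_nonneg (show 0 ≤ 1 - z 0 - z 1 by linarith) hM.le
        linarith
      · show Dt A B _ < 0
        have : Dt A B (fun i => z 0 * XC i + z 1 * A i + (1 - z 0 - z 1) * B i)
            = z 0 * Dt A B XC := by unfold Dt; ring
        rw [this, hcc]
        nlinarith
  have t0 : ENNReal.ofReal (Dt A B C / 2) ≤ volume (((P \ SA) \ SB) \ SC) := by
    have h1 := vol_tri A B C
    have h2 : Dt C A B = Dt A B C := by unfold Dt; ring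
    rw [h2, abs_of_nonneg hM.le] at h1
    refine h1.trans (measure_mono ?_)
    intro x hx
    have hxP := tri_sub hP hA hB hC hx
    obtain ⟨z, ⟨h0, h1, h2⟩, rfl⟩ := hx
    refine ⟨⟨⟨hxP, ?_⟩, ?_⟩, ?_⟩
    · show ¬ (Dt _ B C < 0)
      have : Dt (fun i => z 0 * A i + z 1 * B i + (1 - z 0 - z 1) * C i) B C
          = z 0 * Dt A B C := by unfold Dt; ring
      rw [this, not_lt]
      positivity
    · show ¬ (Dt A _ C < 0)
      have : Dt A (fun i => z 0 * A i + z 1 * B i + (1 - z 0 - z 1) * C i) C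
          = z 1 * Dt A B C := by unfold Dt; ring
      rw [this, not_lt]
      positivity
    · show ¬ (Dt A B _ < 0)
      have : Dt A B (fun i => z 0 * A i + z 1 * B i + (1 - z 0 - z 1) * C i)
          = (1 - z 0 - z 1) * Dt A B C := by unfold Dt; ring
      rw [this, not_lt]
      exact mul_nonneg (by linarith) hM.le
  have hsum : (Dt A B C + a + b + c) / 2 = a / 2 + (b / 2 + (c / 2 + Dt A B C / 2)) := by ring
  rw [← e1, ← e2, ← e3, hsum, ENNReal.ofReal_add (by positivity) (by positivity),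
    ENNReal.ofReal_add (by positivity) (by positivity),
    ENNReal.ofReal_add (by positivity) (by positivity)]
  gcongr

/-- **Fáry**: every convex disc has a lattice packing of density at least `2/3` -/
theorem fary {P : Set W} (hP : Convex ℝ P) (hc : IsCompact P) (hne : (interior P).Nonempty) :
    ∃ u w : W, 0 < u 0 * w 1 - u 1 * w 0 ∧
      ENNReal.ofReal (u 0 * w 1 - u 1 * w 0) ≤ ENNReal.ofReal (3 / 2) * volume P ∧
      ∀ m n : ℤ, (m ≠ 0 ∨ n ≠ 0) → ∃ p q : ℝ, (p ≠ 0 ∨ q ≠ 0) ∧
        ∀ x ∈ P, ∀ y ∈ P, p * (x 0 - y 0) + q * (x 1 - y 1)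
          ≤ p * (m * u 0 + n * w 0) + q * (m * u 1 + n * w 1) := by
  obtain ⟨x0, hx0⟩ := hne
  have hPne : P.Nonempty := ⟨x0, interior_subset hx0⟩
  obtain ⟨T, hT, hTm⟩ := (hc.prod (hc.prod hc)).exists_isMaxOn (hPne.prod (hPne.prod hPne))
    (f := fun T : W × W × W => Dt T.1 T.2.1 T.2.2)
    (Dt_cont continuous_fst (continuous_fst.comp continuous_snd)
      (continuous_snd.comp continuous_snd)).continuousOn
  obtain ⟨A, B, C⟩ := T
  obtain ⟨hA, hB, hC⟩ := hT
  simp only at hA hB hC
  have hmax : ∀ X ∈ P, ∀ Y ∈ P, ∀ Z ∈ P, Dt X Y Z ≤ Dt A B C := fun X hX Y hY Z hZ =>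
    hTm (show (X, Y, Z) ∈ P ×ˢ P ×ˢ P from ⟨hX, hY, hZ⟩)
  clear hTm
  set M := Dt A B C with hMdef
  have hM : 0 < M := by
    obtain ⟨ε, hε, hball⟩ := Metric.isOpen_iff.1 isOpen_interior x0 hx0
    have k1 : x0 + ![ε / 2, 0] ∈ P := interior_subset (hball (by
      rw [Metric.mem_ball, dist_eq_norm, add_sub_cancel_left, pi_norm_lt_iff hε]
      intro i; fin_cases i
      · simp [abs_of_pos hε]; linarith
      · simpa using hε))
    have k2 : x0 + ![0, ε / 2] ∈ P := interior_subset (hball (by
      rw [Metric.mem_ball, dist_eq_norm, add_sub_cancel_left, pi_norm_lt_iff hε]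
      intro i; fin_cases i
      · simpa using hε
      · simp [abs_of_pos hε]; linarith))
    have := hmax x0 (interior_subset hx0) _ k1 _ k2
    have e : Dt x0 (x0 + ![ε / 2, 0]) (x0 + ![0, ε / 2]) = ε ^ 2 / 4 := by
      simp [Dt]; ring
    rw [e] at this
    have : 0 < ε ^ 2 / 4 := by positivity
    linarith
  obtain ⟨XA, hXA, hXAm⟩ := hc.exists_isMinOn hPne (f := fun X => Dt X B C)
    (Dt_cont continuous_id continuous_const continuous_const).continuousOn
  obtain ⟨XB, hXB, hXBm⟩ := hc.exists_isMinOn hPne (f := fun X => Dt A X C)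
    (Dt_cont continuous_const continuous_id continuous_const).continuousOn
  obtain ⟨XC, hXC, hXCm⟩ := hc.exists_isMinOn hPne (f := fun X => Dt A B X)
    (Dt_cont continuous_const continuous_const continuous_id).continuousOn
  have hmA : ∀ X ∈ P, Dt XA B C ≤ Dt X B C := fun X hX => hXAm hX
  have hmB : ∀ X ∈ P, Dt A XB C ≤ Dt A X C := fun X hX => hXBm hX
  have hmC : ∀ X ∈ P, Dt A B XC ≤ Dt A B X := fun X hX => hXCm hX
  clear hXAm hXBm hXCm
  -- normalised widths
  set α := -Dt XA B C / M with hα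
  set β := -Dt A XB C / M with hβ
  set γ := -Dt A B XC / M with hγ
  have aα : Dt XA B C = -(α * M) := by rw [hα]; field_simp
  have aβ : Dt A XB C = -(β * M) := by rw [hβ]; field_simp
  have aγ : Dt A B XC = -(γ * M) := by rw [hγ]; field_simp
  have α0 : 0 ≤ α := by
    have h := hmA B hB
    have e : Dt B B C = 0 := by unfold Dt; ring
    rw [e] at h
    exact div_nonneg (by linarith) hM.le
  have β0 : 0 ≤ β := by
    have h := hmB A hA
    have e : Dt A A C = 0 := by unfold Dt; ring
    rw [e] at h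
    exact div_nonneg (by linarith) hM.le
  have γ0 : 0 ≤ γ := by
    have h := hmC A hA
    have e : Dt A B A = 0 := by unfold Dt; ring
    rw [e] at h
    exact div_nonneg (by linarith) hM.le
  have α1 : α ≤ 1 := by
    have h := hmax XA hXA C hC B hB
    have e : Dt XA C B = - Dt XA B C := by unfold Dt; ring
    rw [hα, div_le_one hM]; linarith
  have β1 : β ≤ 1 := by
    have h := hmax C hC XB hXB A hA
    have e : Dt C XB A = - Dt A XB C := by unfold Dt; ring
    rw [hβ, div_le_one hM]; linarith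
  have γ1 : γ ≤ 1 := by
    have h := hmax B hB A hA XC hXC
    have e : Dt B A XC = - Dt A B XC := by unfold Dt; ring
    rw [hγ, div_le_one hM]; linarith
  have hvol := area_low hP hA hB hC hXA hXB hXC aα aβ aγ (by positivity) (by positivity)
    (by positivity) hM (fun X hX => hmax X hX B hB C hC) (fun X hX => hmax A hA X hX C hC)
    (fun X hX => hmax A hA B hB X hX)
  rw [← hMdef] at hvol
  set s := (1 + α + β - γ) / 2 with hs
  have s0 : 0 ≤ s := by rw [hs]; linarith
  have s1 : 0 ≤ (1 + α) - s := by rw [hs]; linarith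
  have s2 : 0 ≤ (1 + β) - s := by rw [hs]; linarith
  refine ⟨fun i => (1 + α) * (A i - C i) - s * (B i - C i),
    fun i => -s * (A i - C i) + (1 + β) * (B i - C i), ?_, ?_, ?_⟩
  · have e : ((1 + α) * (A 0 - C 0) - s * (B 0 - C 0)) * (-s * (A 1 - C 1) + (1 + β) * (B 1 - C 1))
        - ((1 + α) * (A 1 - C 1) - s * (B 1 - C 1)) * (-s * (A 0 - C 0) + (1 + β) * (B 0 - C 0))
        = M * ((1 + α) * (1 + β) - s ^ 2) := by
      rw [hMdef]; unfold Dt; ring
    simp only
    rw [e]
    apply mul_pos hM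
    rw [hs]
    nlinarith [mul_nonneg α0 β0, mul_nonneg α0 γ0, mul_nonneg β0 γ0]
  · have e : ((1 + α) * (A 0 - C 0) - s * (B 0 - C 0)) * (-s * (A 1 - C 1) + (1 + β) * (B 1 - C 1))
        - ((1 + α) * (A 1 - C 1) - s * (B 1 - C 1)) * (-s * (A 0 - C 0) + (1 + β) * (B 0 - C 0))
        = M * ((1 + α) * (1 + β) - s ^ 2) := by
      rw [hMdef]; unfold Dt; ring
    simp only
    rw [e]
    calc ENNReal.ofReal (M * ((1 + α) * (1 + β) - s ^ 2))
        ≤ ENNReal.ofReal (3 / 2 * ((M + α * M + β * M + γ * M) / 2)) := by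
          apply ENNReal.ofReal_le_ofReal
          have : (1 + α) * (1 + β) - s ^ 2 ≤ 3 / 4 * (1 + α + β + γ) := by
            rw [hs]
            nlinarith [mul_nonneg α0 β0, mul_nonneg α0 γ0, mul_nonneg β0 γ0,
              mul_nonneg α0 (sub_nonneg.2 β1), mul_nonneg β0 (sub_nonneg.2 γ1),
              mul_nonneg γ0 (sub_nonneg.2 α1), sq_nonneg (α - β), sq_nonneg (α - γ),
              sq_nonneg (β - γ)]
          nlinarith
      _ = ENNReal.ofReal (3 / 2) * ENNReal.ofReal ((M + α * M + β * M + γ * M) / 2) :=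
          ENNReal.ofReal_mul (by norm_num)
      _ ≤ _ := by gcongr
  · -- the functionals
    have fA : ∀ x ∈ P, ∀ y ∈ P, (B 1 - C 1) * (x 0 - y 0) + -(B 0 - C 0) * (x 1 - y 1)
        ≤ (1 + α) * M := by
      intro x hx y hy
      have h1 := hmax x hx B hB C hC
      have h2 := hmA y hy
      have e : (B 1 - C 1) * (x 0 - y 0) + -(B 0 - C 0) * (x 1 - y 1) = Dt x B C - Dt y B C := by
        unfold Dt; ring
      rw [e]; linarith
    have fB : ∀ x ∈ P, ∀ y ∈ P, (C 1 - A 1) * (x 0 - y 0) + -(C 0 - A 0) * (x 1 - y 1)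
        ≤ (1 + β) * M := by
      intro x hx y hy
      have h1 := hmax A hA x hx C hC
      have h2 := hmB y hy
      have e : (C 1 - A 1) * (x 0 - y 0) + -(C 0 - A 0) * (x 1 - y 1) = Dt A x C - Dt A y C := by
        unfold Dt; ring
      rw [e]; linarith
    have fC : ∀ x ∈ P, ∀ y ∈ P, (A 1 - B 1) * (x 0 - y 0) + -(A 0 - B 0) * (x 1 - y 1)
        ≤ (1 + γ) * M := by
      intro x hx y hy
      have h1 := hmax A hA B hB x hx
      have h2 := hmC y hy
      have e : (A 1 - B 1) * (x 0 - y 0) + -(A 0 - B 0) * (x 1 - y 1) = Dt A B x - Dt A B y := by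
        unfold Dt; ring
      rw [e]; linarith
    have nA : B 1 - C 1 ≠ 0 ∨ -(B 0 - C 0) ≠ 0 := by
      by_contra hcon
      push Not at hcon
      have : M = 0 := by
        rw [hMdef]
        have e : Dt A B C = (A 0 - C 0) * (B 1 - C 1) + (A 1 - C 1) * -(B 0 - C 0) := by
          unfold Dt; ring
        rw [e, hcon.1, hcon.2]; ring
      linarith
    have nB : C 1 - A 1 ≠ 0 ∨ -(C 0 - A 0) ≠ 0 := by
      by_contra hcon
      push Not at hcon
      have : M = 0 := by
        rw [hMdef]
        have e : Dt A B C = (B 0 - A 0) * (C 1 - A 1) + (B 1 - A 1) * -(C 0 - A 0) := by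
          unfold Dt; ring
        rw [e, hcon.1, hcon.2]; ring
      linarith
    have nC : A 1 - B 1 ≠ 0 ∨ -(A 0 - B 0) ≠ 0 := by
      by_contra hcon
      push Not at hcon
      have : M = 0 := by
        rw [hMdef]
        have e : Dt A B C = (C 0 - A 0) * (A 1 - B 1) + (C 1 - A 1) * -(A 0 - B 0) := by
          unfold Dt; ring
        rw [e, hcon.1, hcon.2]; ring
      linarith
    have nneg : ∀ {p q : ℝ}, (p ≠ 0 ∨ q ≠ 0) → (-p ≠ 0 ∨ -q ≠ 0) := by
      intro p q h
      rcases h with h | h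
      · exact Or.inl (neg_ne_zero.2 h)
      · exact Or.inr (neg_ne_zero.2 h)
    intro m n hmn
    simp only
    have eA : ∀ m n : ℝ, (B 1 - C 1) * (m * ((1 + α) * (A 0 - C 0) - s * (B 0 - C 0))
          + n * (-s * (A 0 - C 0) + (1 + β) * (B 0 - C 0)))
        + -(B 0 - C 0) * (m * ((1 + α) * (A 1 - C 1) - s * (B 1 - C 1))
          + n * (-s * (A 1 - C 1) + (1 + β) * (B 1 - C 1))) = (m * (1 + α) - n * s) * M := by
      intro m n
      rw [hMdef]; unfold Dt; ring
    have eB : ∀ m n : ℝ, (C 1 - A 1) * (m * ((1 + α) * (A 0 - C 0) - s * (B 0 - C 0))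
          + n * (-s * (A 0 - C 0) + (1 + β) * (B 0 - C 0)))
        + -(C 0 - A 0) * (m * ((1 + α) * (A 1 - C 1) - s * (B 1 - C 1))
          + n * (-s * (A 1 - C 1) + (1 + β) * (B 1 - C 1))) = (n * (1 + β) - m * s) * M := by
      intro m n
      rw [hMdef]; unfold Dt; ring
    have eC : ∀ m n : ℝ, (A 1 - B 1) * (m * ((1 + α) * (A 0 - C 0) - s * (B 0 - C 0))
          + n * (-s * (A 0 - C 0) + (1 + β) * (B 0 - C 0)))
        + -(A 0 - B 0) * (m * ((1 + α) * (A 1 - C 1) - s * (B 1 - C 1))
          + n * (-s * (A 1 - C 1) + (1 + β) * (B 1 - C 1)))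
        = -((m * ((1 + α) - s) + n * ((1 + β) - s)) * M) := by
      intro m n
      rw [hMdef]; unfold Dt; ring
    have hγs : (1 + α) - s + ((1 + β) - s) = 1 + γ := by rw [hs]; ring
    rcases lt_trichotomy m 0 with hm | hm | hm
    · have hm' : (m : ℝ) ≤ -1 := by exact_mod_cast (by omega : m ≤ -1)
      rcases lt_or_ge n 0 with hn | hn
      · have hn' : (n : ℝ) ≤ -1 := by exact_mod_cast (by omega : n ≤ -1)
        refine ⟨_, _, nC, fun x hx y hy => (fC x hx y hy).trans ?_⟩
        rw [eC]
        have h1 : (1 : ℝ) * ((1 + α) - s) ≤ -m * ((1 + α) - s) :=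
          mul_le_mul_of_nonneg_right (by linarith) s1
        have h2 : (1 : ℝ) * ((1 + β) - s) ≤ -n * ((1 + β) - s) :=
          mul_le_mul_of_nonneg_right (by linarith) s2
        have h3 : 1 + γ ≤ -(m * ((1 + α) - s) + n * ((1 + β) - s)) := by linarith
        calc (1 + γ) * M ≤ -(m * ((1 + α) - s) + n * ((1 + β) - s)) * M :=
              mul_le_mul_of_nonneg_right h3 hM.le
          _ = _ := by ring
      · have hn' : (0 : ℝ) ≤ n := by exact_mod_cast hn
        refine ⟨_, _, nneg nA, fun x hx y hy => ?_⟩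
        have h0 := fA y hy x hx
        have h1 : (1 : ℝ) * (1 + α) ≤ -m * (1 + α) :=
          mul_le_mul_of_nonneg_right (by linarith) (by linarith)
        have h2 : 0 ≤ n * s := mul_nonneg hn' s0
        have h3 : (1 + α) * M ≤ -(m * (1 + α) - n * s) * M :=
          mul_le_mul_of_nonneg_right (by linarith) hM.le
        have h4 := eA m n
        linarith [h0, h3, h4]
    · subst hm
      have hn : n ≠ 0 := by
        rcases hmn with h | h
        · exact absurd rfl h
        · exact h
      rcases lt_or_gt_of_ne hn with hn | hn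
      · have hn' : (n : ℝ) ≤ -1 := by exact_mod_cast (by omega : n ≤ -1)
        refine ⟨_, _, nneg nB, fun x hx y hy => ?_⟩
        have h0 := fB y hy x hx
        have h1 : (1 : ℝ) * (1 + β) ≤ -n * (1 + β) :=
          mul_le_mul_of_nonneg_right (by linarith) (by linarith)
        have h3 : (1 + β) * M ≤ -(n * (1 + β) - ((0 : ℤ) : ℝ) * s) * M :=
          mul_le_mul_of_nonneg_right (by push_cast; linarith) hM.le
        have h4 := eB ((0 : ℤ) : ℝ) n
        linarith [h0, h3, h4]
      · have hn' : (1 : ℝ) ≤ n := by exact_mod_cast (by omega : 1 ≤ n)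
        refine ⟨_, _, nB, fun x hx y hy => (fB x hx y hy).trans ?_⟩
        rw [eB]
        apply mul_le_mul_of_nonneg_right _ hM.le
        have h1 : (1 : ℝ) * (1 + β) ≤ n * (1 + β) :=
          mul_le_mul_of_nonneg_right hn' (by linarith)
        push_cast
        linarith
    · have hm' : (1 : ℝ) ≤ m := by exact_mod_cast (by omega : 1 ≤ m)
      rcases lt_or_ge 0 n with hn | hn
      · have hn' : (1 : ℝ) ≤ n := by exact_mod_cast (by omega : 1 ≤ n)
        refine ⟨_, _, nneg nC, fun x hx y hy => ?_⟩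
        have h0 := fC y hy x hx
        have h1 : (1 : ℝ) * ((1 + α) - s) ≤ m * ((1 + α) - s) :=
          mul_le_mul_of_nonneg_right hm' s1
        have h2 : (1 : ℝ) * ((1 + β) - s) ≤ n * ((1 + β) - s) :=
          mul_le_mul_of_nonneg_right hn' s2
        have h3 : (1 + γ) * M ≤ (m * ((1 + α) - s) + n * ((1 + β) - s)) * M :=
          mul_le_mul_of_nonneg_right (by linarith) hM.le
        have h4 := eC m n
        linarith [h0, h3, h4]
      · have hn' : (n : ℝ) ≤ 0 := by exact_mod_cast hn
        refine ⟨_, _, nA, fun x hx y hy => (fA x hx y hy).trans ?_⟩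
        rw [eA]
        apply mul_le_mul_of_nonneg_right _ hM.le
        have h1 : (1 : ℝ) * (1 + α) ≤ m * (1 + α) :=
          mul_le_mul_of_nonneg_right hm' (by linarith)
        have h2 : 0 ≤ -n * s := mul_nonneg (by linarith) s0
        linarith

end Pool.Agent.TH219.DL
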