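import Pool.Agent.TH219.DL.Cone
import Pool.Agent.TH219.DL.Fary
import Pool.Agent.H349R2.Tet.Dens1
import Pool.Agent.H349R2.Tet.Pack

/-!
# Columns over a planar lattice packing
-/

namespace Pool.Agent.TH219.DL

open MeasureTheory Filter Topology
open Pool.Agent.H349R2.Tet

theorem interior_push {K : Set (Fin 3 → ℝ)} {x : Fin 3 → ℝ} (hx : x ∈ interior K)
    (d : Fin 3 → ℝ) : ∃ ε : ℝ, 0 < ε ∧ x + ε • d ∈ K := by
  have h1 : Tendsto (fun ε : ℝ => x + ε • d) (𝓝 0) (𝓝 x) := by
    have : Continuous fun ε : ℝ => x + ε • d := by fun_prop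
    have h := this.tendsto 0
    simpa using h
  have h2 := h1.eventually (isOpen_interior.mem_nhds hx)
  have h3 : ∀ᶠ ε in 𝓝[>] (0 : ℝ), x + ε • d ∈ interior K := h2.filter_mono nhdsWithin_le_nhds
  have h4 : ∀ᶠ ε in 𝓝[>] (0 : ℝ), 0 < ε := self_mem_nhdsWithin
  obtain ⟨ε, h5, h6⟩ := (h3.and h4).exists
  exact ⟨ε, h6, interior_subset h5⟩

/-- the longest vertical chord -/
theorem longest {K : Set (Fin 3 → ℝ)} (hK : IsCompact K) (hne : (interior K).Nonempty) :
    ∃ (l : ℝ) (x0 : Fin 2 → ℝ), 0 < l ∧ x0 ∈ G K l ∧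
      ∀ (x : Fin 2 → ℝ) (c : ℝ), 0 ≤ c → x ∈ G K c → c ≤ l := by
  obtain ⟨y, hy⟩ := hne
  obtain ⟨ε, hε, hyε⟩ := interior_push hy (cs 1 0)
  have hyK := interior_subset hy
  have hmem : (pr y, ε) ∈ E K := by
    refine ⟨hε.le, y 0, ?_, ?_⟩
    · rw [cs_pr]; exact hyK
    · convert hyε using 1
      symm
      apply cs_ext <;> simp
  obtain ⟨⟨x0, l⟩, h1, h2⟩ := (E_compact hK).exists_isMaxOn ⟨_, hmem⟩ (f := Prod.snd)
    continuous_snd.continuousOn
  have h3 : ∀ p ∈ E K, p.2 ≤ l := fun p hp => h2 hp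
  exact ⟨l, x0, lt_of_lt_of_le hε (h3 _ hmem), h1.2, fun x c hc hx => h3 (x, c) ⟨hc, hx⟩⟩

theorem shadow_compact {K : Set (Fin 3 → ℝ)} (hK : IsCompact K) : IsCompact (G K 0) := by
  rw [G_zero]; exact hK.image pr_cont

theorem shadow_convex {K : Set (Fin 3 → ℝ)} (hK : Convex ℝ K) : Convex ℝ (G K 0) := by
  intro x hx y hy a b ha hb hab
  have := G_conv hK hx hy ha hb hab
  simpa using this

theorem shadow_interior {K : Set (Fin 3 → ℝ)} (hne : (interior K).Nonempty) :
    (interior (G K 0)).Nonempty := by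
  let L : (Fin 3 → ℝ) →ₗ[ℝ] (Fin 2 → ℝ) :=
    { toFun := pr
      map_add' := fun x y => by funext i; fin_cases i <;> simp [pr]
      map_smul' := fun c x => by funext i; fin_cases i <;> simp [pr] }
  have hsurj : Function.Surjective L := fun x => ⟨cs 0 x, pr_cs 0 x⟩
  have hopen : IsOpenMap pr := L.isOpenMap_of_finiteDimensional hsurj
  obtain ⟨y, hy⟩ := hne
  refine ⟨pr y, ?_⟩
  rw [G_zero]
  exact (hopen.image_interior_subset K) ⟨y, hy, rfl⟩

/-- basis of the column lattice -/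
def bs (l : ℝ) (u w : Fin 2 → ℝ) : Fin 3 → V := ![cs l 0, cs 0 u, cs 0 w]

theorem dt_bs (l : ℝ) (u w : Fin 2 → ℝ) : dt (bs l u w) = l * (u 0 * w 1 - u 1 * w 0) := by
  unfold dt bs
  rw [Matrix.det_fin_three]
  simp
  ring

/-- no nonzero point of the planar lattice generated by `u, w` is interior to `P - P` -/
def Adm2 (P : Set (Fin 2 → ℝ)) (u w : Fin 2 → ℝ) : Prop :=
  ∀ m n : ℤ, (m ≠ 0 ∨ n ≠ 0) → ∃ p q : ℝ, (p ≠ 0 ∨ q ≠ 0) ∧
        ∀ x ∈ P, ∀ y ∈ P, p * (x 0 - y 0) + q * (x 1 - y 1)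
          ≤ p * (m * u 0 + n * w 0) + q * (m * u 1 + n * w 1)

theorem cols_packs {K : Set V} {l : ℝ} {u w : Fin 2 → ℝ} (hl : 0 < l)
    (hmax : ∀ (x : Fin 2 → ℝ) (c : ℝ), 0 ≤ c → x ∈ G K c → c ≤ l)
    (hD : 0 < u 0 * w 1 - u 1 * w 0) (hadm : Adm2 (G K 0) u w) :
    Packs K (bs l u w) := by
  rw [packs_iff]
  refine ⟨?_, ?_⟩
  · rw [dt_bs]; positivity
  · rintro v ⟨z, rfl⟩ hv0 ⟨x, hx, hxv⟩
    set v : V := ∑ i, (z i : ℝ) • bs l u w i with hv
    have v0 : v 0 = z 0 * l := by
      rw [hv]; simp [Fin.sum_univ_three, bs]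
    have v1 : v 1 = z 1 * u 0 + z 2 * w 0 := by
      rw [hv]; simp [Fin.sum_univ_three, bs]
    have v2 : v 2 = z 1 * u 1 + z 2 * w 1 := by
      rw [hv]; simp [Fin.sum_univ_three, bs]
    by_cases h12 : z 1 ≠ 0 ∨ z 2 ≠ 0
    · obtain ⟨p, q, hpq, hf⟩ := hadm _ _ h12
      obtain ⟨ε, hε, hxε⟩ := interior_push hx (cs 0 ![p, q])
      have h1 : pr (x + ε • cs 0 ![p, q]) ∈ G K 0 := by
        rw [G_zero]; exact ⟨_, hxε, rfl⟩
      have h2 : pr (x - v) ∈ G K 0 := by
        rw [G_zero]; exact ⟨_, interior_subset hxv, rfl⟩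
      have h3 := hf _ h1 _ h2
      simp only [pr_zero, pr_one, Pi.add_apply, Pi.smul_apply, Pi.sub_apply, smul_eq_mul,
        cs_one, cs_two, Matrix.cons_val_zero, Matrix.cons_val_one, v1, v2] at h3
      have h4 : 0 < p ^ 2 + q ^ 2 := by
        rcases hpq with h | h
        · have := sq_pos_of_ne_zero h; positivity
        · have := sq_pos_of_ne_zero h; positivity
      nlinarith [mul_pos hε h4]
    · push Not at h12
      obtain ⟨hz1, hz2⟩ := h12
      have v1' : v 1 = 0 := by rw [v1, hz1, hz2]; simp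
      have v2' : v 2 = 0 := by rw [v2, hz1, hz2]; simp
      have hz0 : z 0 ≠ 0 := by
        intro h0
        apply hv0
        funext i
        fin_cases i
        · show v 0 = 0
          rw [v0, h0]; simp
        · exact v1'
        · exact v2'
      rcases lt_or_gt_of_ne hz0 with h | h
      · have h' : (z 0 : ℝ) ≤ -1 := by exact_mod_cast (by omega : z 0 ≤ -1)
        obtain ⟨ε, hε, hxε⟩ := interior_push hxv (cs 1 0)
        have hG : pr x ∈ G K (-v 0 + ε) := by
          refine ⟨x 0, ?_, ?_⟩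
          · rw [cs_pr]; exact interior_subset hx
          · convert hxε using 1
            symm
            apply cs_ext
            · simp; ring
            · simp [v1']
            · simp [v2']
        have hle := hmax _ _ (by rw [v0]; nlinarith) hG
        rw [v0] at hle
        nlinarith
      · have h' : (1 : ℝ) ≤ z 0 := by exact_mod_cast (by omega : 1 ≤ z 0)
        obtain ⟨ε, hε, hxε⟩ := interior_push hx (cs 1 0)
        have hG : pr (x - v) ∈ G K (v 0 + ε) := by
          refine ⟨(x - v) 0, ?_, ?_⟩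
          · rw [cs_pr]; exact interior_subset hxv
          · convert hxε using 1
            symm
            apply cs_ext
            · simp; ring
            · simp [v1']
            · simp [v2']
        have hle := hmax _ _ (by rw [v0]; nlinarith) hG
        rw [v0] at hle
        nlinarith

/-- every convex body has a lattice packing of density at least `2/9` -/
theorem lattice_low {K : Set V} (hK : IsCompact K) (hc : Convex ℝ K)
    (hne : (interior K).Nonempty) : ENNReal.ofReal (2 / 9) ≤ deltaL K := by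
  obtain ⟨l, x0, hl, hx0, hmax⟩ := longest hK hne
  obtain ⟨u, w, hD, hDle, hadm⟩ := fary (shadow_convex hc) (shadow_compact hK)
    (shadow_interior hne)
  have hpack := cols_packs hl hmax hD hadm
  have h1 : dens K (bs l u w) ≤ deltaL K := by
    unfold deltaL
    exact le_iSup₂_of_le (bs l u w) hpack le_rfl
  refine le_trans ?_ h1
  rw [dens_eq _ hpack.1 K hK, dt_bs, abs_of_pos (mul_pos hl hD)]
  rw [ENNReal.le_div_iff_mul_le (Or.inl (by
    rw [ne_eq, ENNReal.ofReal_eq_zero, not_le]; exact mul_pos hl hD)) (Or.inl ENNReal.ofReal_ne_top)]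
  calc ENNReal.ofReal (2 / 9) * ENNReal.ofReal (l * (u 0 * w 1 - u 1 * w 0))
      = ENNReal.ofReal (2 / 9) * (ENNReal.ofReal l * ENNReal.ofReal (u 0 * w 1 - u 1 * w 0)) := by
        rw [ENNReal.ofReal_mul hl.le]
    _ ≤ ENNReal.ofReal (2 / 9) * (ENNReal.ofReal l * (ENNReal.ofReal (3 / 2) * volume (G K 0))) := by
        gcongr
    _ = ENNReal.ofReal (l / 3) * volume (G K 0) := by
        rw [← mul_assoc, ← mul_assoc, ← ENNReal.ofReal_mul (by norm_num),
          ← ENNReal.ofReal_mul (by positivity)]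
        congr 2
        ring
    _ ≤ volume K := cone hK hc hl hx0

end Pool.Agent.TH219.DL
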