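import Pool.Agent.TH219.DL.Sect

/-!
# The volume of a convex body is at least one third of longest chord times shadow
-/

namespace Pool.Agent.TH219.DL

open MeasureTheory
open scoped Pointwise

theorem G_conv {K : Set (Fin 3 → ℝ)} (hc : Convex ℝ K) {x y : Fin 2 → ℝ} {c d a b : ℝ}
    (hx : x ∈ G K c) (hy : y ∈ G K d) (ha : 0 ≤ a) (hb : 0 ≤ b) (hab : a + b = 1) :
    a • x + b • y ∈ G K (a * c + b * d) := by
  obtain ⟨t, h1, h2⟩ := hx
  obtain ⟨s, h3, h4⟩ := hy
  refine ⟨a * t + b * s, ?_, ?_⟩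
  · have h := hc h1 h3 ha hb hab
    convert h using 1
    symm
    apply cs_ext <;> simp
  · have h := hc h2 h4 ha hb hab
    convert h using 1
    symm
    apply cs_ext
    · simp; ring
    · simp
    · simp

theorem G_zero (K : Set (Fin 3 → ℝ)) : G K 0 = pr '' K := by
  ext x
  constructor
  · rintro ⟨t, h1, -⟩
    exact ⟨cs t x, h1, pr_cs t x⟩
  · rintro ⟨y, hy, rfl⟩
    refine ⟨y 0, ?_, ?_⟩
    · rw [cs_pr]; exact hy
    · rw [add_zero, cs_pr]; exact hy

theorem integral_sq {l : ℝ} (hl : 0 < l) : ∫ c in (0 : ℝ)..l, (1 - c / l) ^ 2 = l / 3 := by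
  have h : ∀ c ∈ Set.uIcc 0 l, HasDerivAt (fun c : ℝ => -(l / 3) * (1 - c / l) ^ 3)
      ((1 - c / l) ^ 2) c := by
    intro c _
    have h1 : HasDerivAt (fun c : ℝ => 1 - c / l) (-(1 / l)) c := by
      simpa using ((hasDerivAt_id c).div_const l).const_sub 1
    have h2 := (h1.pow 3).const_mul (-(l / 3))
    refine h2.congr_deriv ?_
    have e : -(l / 3) * (3 * (1 - c / l) ^ 2 * -(1 / l)) = (1 - c / l) ^ 2 := by
      generalize (1 - c / l) ^ 2 = y
      field_simp
    simpa using e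
  rw [intervalIntegral.integral_eq_sub_of_hasDerivAt h]
  · rw [div_self hl.ne']; simp
  · apply Continuous.intervalIntegrable
    fun_prop

theorem lintegral_sq {l : ℝ} (hl : 0 < l) :
    ∫⁻ c in Set.Ioc (0 : ℝ) l, ENNReal.ofReal ((1 - c / l) ^ 2) = ENNReal.ofReal (l / 3) := by
  rw [← integral_sq hl, intervalIntegral.integral_of_le hl.le,
    ofReal_integral_eq_lintegral_ofReal]
  · apply IntegrableOn.integrable
    apply (Continuous.integrableOn_Icc (a := 0) (b := l) (by fun_prop)).mono_set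
      Set.Ioc_subset_Icc_self
  · exact Filter.Eventually.of_forall fun c => by positivity

/-- a scaled copy of the shadow -/
theorem vol_G {K : Set (Fin 3 → ℝ)} (hc : Convex ℝ K) {x0 : Fin 2 → ℝ} {l c : ℝ} (hl : 0 < l)
    (hx0 : x0 ∈ G K l) (h0 : 0 ≤ c) (h1 : c ≤ l) :
    ENNReal.ofReal ((1 - c / l) ^ 2) * volume (G K 0) ≤ volume (G K c) := by
  have hs : 0 ≤ 1 - c / l := by
    rw [sub_nonneg, div_le_one hl]; exact h1
  have hs' : 0 ≤ c / l := div_nonneg h0 hl.le
  have hsub : (fun x => x + (c / l) • x0) '' ((1 - c / l) • G K 0) ⊆ G K c := by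
    rintro _ ⟨_, ⟨x, hx, rfl⟩, rfl⟩
    have := G_conv hc hx hx0 hs hs' (by ring)
    have e : (1 - c / l) * 0 + c / l * l = c := by
      rw [mul_zero, zero_add, div_mul_cancel₀ _ hl.ne']
    rw [e] at this
    exact this
  calc ENNReal.ofReal ((1 - c / l) ^ 2) * volume (G K 0)
      = volume ((1 - c / l) • G K 0) := by
        rw [Measure.addHaar_smul]
        congr 2
        have : Module.finrank ℝ (Fin 2 → ℝ) = 2 := by simp
        rw [this, abs_of_nonneg (by positivity)]
    _ = volume ((fun x => x + (c / l) • x0) '' ((1 - c / l) • G K 0)) := by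
        rw [Set.image_add_right, measure_preimage_add_right]
    _ ≤ _ := measure_mono hsub

theorem cone {K : Set (Fin 3 → ℝ)} (hK : IsCompact K) (hc : Convex ℝ K) {x0 : Fin 2 → ℝ} {l : ℝ}
    (hl : 0 < l) (hx0 : x0 ∈ G K l) :
    ENNReal.ofReal (l / 3) * volume (G K 0) ≤ volume K := by
  refine le_trans ?_ (vol_ge hK hc)
  calc ENNReal.ofReal (l / 3) * volume (G K 0)
      = ∫⁻ c in Set.Ioc (0 : ℝ) l, ENNReal.ofReal ((1 - c / l) ^ 2) * volume (G K 0) := by
        rw [lintegral_mul_const _ (by fun_prop), lintegral_sq hl]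
    _ ≤ ∫⁻ c in Set.Ioc (0 : ℝ) l, volume (G K c) :=
        setLIntegral_mono' measurableSet_Ioc fun c hcc => vol_G hc hl hx0 hcc.1.le hcc.2
    _ ≤ _ := lintegral_mono_set fun c hcc => le_of_lt hcc.1

end Pool.Agent.TH219.DL
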