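import Pool.Agent.H349R2.Tet.Dens

/-!
# Packings by translates of a convex body and of its reflection: densities
-/

namespace Pool.Agent.TH219.DL

open MeasureTheory Filter
open scoped ENNReal
open Pool.Agent.H349R2.Tet (Bl lat deltaL)

/-- the member with index `(s, c)`: the translate `K + c` if `s = false`, and the translate
`-K + c` of the reflected body if `s = true` -/
def mem (K : Set (Fin 3 → ℝ)) (p : Bool × (Fin 3 → ℝ)) : Set (Fin 3 → ℝ) :=
  (fun x => (if p.1 = true then -x else x) + p.2) '' K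

/-- the members with index in `S` have pairwise disjoint interiors -/
def IsPack (K : Set (Fin 3 → ℝ)) (S : Set (Bool × (Fin 3 → ℝ))) : Prop :=
  ∀ p ∈ S, ∀ q ∈ S, p ≠ q → Disjoint (interior (mem K p)) (interior (mem K q))

/-- the upper density of the family of the members with index in `S` -/
noncomputable def den (K : Set (Fin 3 → ℝ)) (S : Set (Bool × (Fin 3 → ℝ))) : ℝ≥0∞ :=
  Filter.limsup (fun r : ℝ => (∑' p : S, volume (mem K p.1 ∩ Bl r)) / volume (Bl r)) Filter.atTop

/-- the family `K + u`, `u` in the lattice generated by `b` -/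
def famL (b : Fin 3 → (Fin 3 → ℝ)) : Set (Bool × (Fin 3 → ℝ)) := {p | p.1 = false ∧ p.2 ∈ lat b}

/-- the family `(K ∪ (v - K)) + u`, `u` in the lattice generated by `b` -/
def famLs (v : Fin 3 → ℝ) (b : Fin 3 → (Fin 3 → ℝ)) : Set (Bool × (Fin 3 → ℝ)) :=
  {p | (p.1 = false ∧ p.2 ∈ lat b) ∨ (p.1 = true ∧ ∃ u ∈ lat b, p.2 = v + u)}

/-- `δ_L`: the supremum of the densities of the lattice packings of `K` -/
noncomputable def dL (K : Set (Fin 3 → ℝ)) : ℝ≥0∞ :=
  ⨆ (b : Fin 3 → (Fin 3 → ℝ)) (_ : LinearIndependent ℝ b ∧ IsPack K (famL b)), den K (famL b)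

/-- `δ_{L*}`: the supremum over the packings by `K + u` and `v - K + u`, `u` in a lattice -/
noncomputable def dLs (K : Set (Fin 3 → ℝ)) : ℝ≥0∞ :=
  ⨆ (v : Fin 3 → ℝ) (b : Fin 3 → (Fin 3 → ℝ))
    (_ : LinearIndependent ℝ b ∧ IsPack K (famLs v b)), den K (famLs v b)

/-- `δ_T`: the supremum over the packings by translates of `K` -/
noncomputable def dT (K : Set (Fin 3 → ℝ)) : ℝ≥0∞ :=
  ⨆ (S : Set (Bool × (Fin 3 → ℝ))) (_ : (∀ p ∈ S, p.1 = false) ∧ IsPack K S), den K S

/-- `δ_{T*}`: the supremum over the packings by translates of `K` and of `-K` -/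
noncomputable def dTs (K : Set (Fin 3 → ℝ)) : ℝ≥0∞ :=
  ⨆ (S : Set (Bool × (Fin 3 → ℝ))) (_ : IsPack K S), den K S

/-- convex bodies in space -/
def Body (K : Set (Fin 3 → ℝ)) : Prop := IsCompact K ∧ Convex ℝ K ∧ (interior K).Nonempty

/-- the minimum (infimum) of a density function over all convex bodies -/
noncomputable def mn (δ : Set (Fin 3 → ℝ) → ℝ≥0∞) : ℝ≥0∞ :=
  ⨅ (K : Set (Fin 3 → ℝ)) (_ : Body K), δ K

end Pool.Agent.TH219.DL
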