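import Mathlib

/-!
# Four integer points in different parity classes: the phase lemma
-/

namespace Pool.Agent.TH219.DL

theorem gcd_pair (a b : ℤ) : ∃ g x y : ℤ, g = a * x + b * y ∧ g ∣ a ∧ g ∣ b :=
  ⟨Int.gcd a b, Int.gcdA a b, Int.gcdB a b, Int.gcd_eq_gcd_ab a b, Int.gcd_dvd_left a b,
    Int.gcd_dvd_right a b⟩

theorem gcd_four (N : Fin 4 → ℤ) (h : ∃ i, N i ≠ 0) :
    ∃ (g : ℤ) (x : Fin 4 → ℤ), 0 < g ∧ ∑ i, N i * x i = g ∧ ∀ i, g ∣ N i := by
  obtain ⟨g1, a, b, h1, h2, h3⟩ := gcd_pair (N 0) (N 1)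
  obtain ⟨g2, c, d, h4, h5, h6⟩ := gcd_pair (N 2) (N 3)
  obtain ⟨g, e, f, h7, h8, h9⟩ := gcd_pair g1 g2
  have hd : ∀ i, g ∣ N i := by
    intro i
    fin_cases i
    · exact h8.trans h2
    · exact h8.trans h3
    · exact h9.trans h5
    · exact h9.trans h6
  have hg0 : g ≠ 0 := by
    rintro rfl
    obtain ⟨i, hi⟩ := h
    exact hi (zero_dvd_iff.1 (hd i))
  have hs : ∑ i, N i * (![a * e, b * e, c * f, d * f] : Fin 4 → ℤ) i = g := by
    rw [Fin.sum_univ_four]
    simp only [Matrix.cons_val_zero, Matrix.cons_val_one, Matrix.cons_val]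
    rw [h7, h1, h4]; ring
  rcases lt_or_gt_of_ne hg0 with hneg | hpos
  · refine ⟨-g, fun i => -(![a * e, b * e, c * f, d * f] : Fin 4 → ℤ) i, by omega, ?_, ?_⟩
    · rw [← hs, ← Finset.sum_neg_distrib]
      exact Finset.sum_congr rfl fun i _ => by ring
    · intro i; exact (neg_dvd).2 (hd i)
  · exact ⟨g, _, hpos, hs, hd⟩

/-- the minors -/
def dd (j k : Fin 4 → ℤ) (a b c : Fin 4) : ℤ :=
  (j b - j a) * (k c - k a) - (j c - j a) * (k b - k a)

theorem phase {σ : ℝ} (hσ : 0 < σ) (j k : Fin 4 → ℤ) (lo s : Fin 4 → ℝ)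
    (hs : ∀ i, 0 ≤ s i) (hsum : σ ≤ ∑ i, s i)
    (h0 : Even (j 0) ∧ Even (k 0)) (h1 : Odd (j 1) ∧ Even (k 1))
    (h2 : Even (j 2) ∧ Odd (k 2)) (h3 : Odd (j 3) ∧ Odd (k 3)) :
    ∃ p a b : ℝ, ∀ i, ∃ t : ℤ, lo i ≤ p + j i * a + k i * b + t * σ ∧
      p + j i * a + k i * b + t * σ ≤ lo i + s i := by
  set N : Fin 4 → ℤ := ![dd j k 1 2 3, -dd j k 0 2 3, dd j k 0 1 3, -dd j k 0 1 2] with hN
  have hodd : ∀ i, Odd (N i) := by
    obtain ⟨h0j, h0k⟩ := h0
    obtain ⟨h1j, h1k⟩ := h1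
    obtain ⟨h2j, h2k⟩ := h2
    obtain ⟨h3j, h3k⟩ := h3
    rw [← Int.not_even_iff_odd] at h1j h2k h3j h3k
    intro i
    rw [← Int.not_even_iff_odd]
    fin_cases i <;> simp [hN, dd, Int.even_sub, Int.even_mul, h0j, h0k, h1j, h1k, h2j, h2k, h3j, h3k]
  have hN0 : ∀ i, N i ≠ 0 := by
    intro i h
    have := hodd i
    rw [h] at this
    exact absurd this (by decide)
  have r1 : ∑ i, N i = 0 := by
    rw [Fin.sum_univ_four]; simp [hN, dd]; ring
  have r2 : ∑ i, N i * j i = 0 := by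
    rw [Fin.sum_univ_four]; simp [hN, dd]; ring
  have r3 : ∑ i, N i * k i = 0 := by
    rw [Fin.sum_univ_four]; simp [hN, dd]; ring
  obtain ⟨g, x, hg, hx, hdvd⟩ := gcd_four N ⟨0, hN0 0⟩
  have hgR : (0 : ℝ) < g := by exact_mod_cast hg
  have habs : ∀ i, (g : ℝ) ≤ |(N i : ℝ)| := by
    intro i
    have := Int.le_of_dvd (abs_pos.2 (hN0 i)) ((dvd_abs _ _).2 (hdvd i))
    exact_mod_cast this
  -- starting heights
  set c0 : Fin 4 → ℝ := fun i => if 0 < N i then lo i else lo i + s i with hc0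
  set e : Fin 4 → ℝ := fun i => if 0 < N i then s i else -s i with he
  have hNe : ∀ i, (N i : ℝ) * e i = |(N i : ℝ)| * s i := by
    intro i
    simp only [he]
    split_ifs with h
    · rw [abs_of_pos (by exact_mod_cast h)]
    · have h' : (N i : ℝ) ≤ 0 := by exact_mod_cast (not_lt.1 h)
      rw [abs_of_nonpos h']; ring
  set S : ℝ := ∑ i, |(N i : ℝ)| * s i with hS
  have hSge : g * σ ≤ S := by
    calc g * σ ≤ g * ∑ i, s i := by gcongr
      _ = ∑ i, (g : ℝ) * s i := Finset.mul_sum _ _ _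
      _ ≤ S := Finset.sum_le_sum fun i _ => mul_le_mul_of_nonneg_right (habs i) (hs i)
  have hgs : 0 < g * σ := mul_pos hgR hσ
  have hSpos : 0 < S := lt_of_lt_of_le hgs hSge
  set B : ℝ := ∑ i, (N i : ℝ) * c0 i with hB
  set m : ℤ := ⌈B / (g * σ)⌉ with hm
  have hm1 : B ≤ m * (g * σ) := by
    have := Int.le_ceil (B / (g * σ))
    rw [div_le_iff₀ hgs] at this
    exact this
  have hm2 : m * (g * σ) ≤ B + S := by
    have := Int.ceil_lt_add_one (B / (g * σ))
    have h : (m : ℝ) * (g * σ) < (B / (g * σ) + 1) * (g * σ) := by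
      apply mul_lt_mul_of_pos_right _ hgs
      exact this
    rw [add_mul, div_mul_cancel₀ _ hgs.ne', one_mul] at h
    linarith
  set τ : ℝ := (m * (g * σ) - B) / S with hτ
  have hτ0 : 0 ≤ τ := div_nonneg (by linarith) hSpos.le
  have hτ1 : τ ≤ 1 := by rw [hτ, div_le_one hSpos]; linarith
  have hτS : τ * S = m * (g * σ) - B := by rw [hτ, div_mul_cancel₀ _ hSpos.ne']
  set c : Fin 4 → ℝ := fun i => c0 i + τ * e i with hc
  have hcl : ∀ i, lo i ≤ c i ∧ c i ≤ lo i + s i := by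
    intro i
    simp only [hc, hc0, he]
    have hsi := hs i
    split_ifs with h
    · constructor
      · nlinarith [mul_nonneg hτ0 hsi]
      · nlinarith [mul_nonneg (sub_nonneg.2 hτ1) hsi]
    · constructor
      · nlinarith [mul_nonneg (sub_nonneg.2 hτ1) hsi]
      · nlinarith [mul_nonneg hτ0 hsi]
  have hNc : ∑ i, (N i : ℝ) * c i = m * (g * σ) := by
    have : ∑ i, (N i : ℝ) * c i = B + τ * S := by
      rw [hB, hS, Finset.mul_sum, ← Finset.sum_add_distrib]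
      refine Finset.sum_congr rfl fun i _ => ?_
      simp only [hc]
      rw [← hNe i]; ring
    rw [this, hτS]; ring
  set q : Fin 4 → ℝ := fun i => c i - m * x i * σ with hq
  have hNq : ∑ i, (N i : ℝ) * q i = 0 := by
    have hxR : ∑ i, (N i : ℝ) * x i = g := by exact_mod_cast hx
    have : ∑ i, (N i : ℝ) * q i = ∑ i, (N i : ℝ) * c i - m * σ * ∑ i, (N i : ℝ) * x i := by
      rw [Finset.mul_sum, ← Finset.sum_sub_distrib]
      refine Finset.sum_congr rfl fun i _ => ?_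
      simp only [hq]; ring
    rw [this, hNc, hxR]; ring
  -- solve for the affine function
  have hd : (dd j k 0 1 2 : ℝ) ≠ 0 := by
    have := hN0 3
    have h' : N 3 = -dd j k 0 1 2 := by simp [hN]
    rw [h', neg_ne_zero] at this
    exact_mod_cast this
  have hdR : (dd j k 0 1 2 : ℝ) = ((j 1 : ℝ) - j 0) * (k 2 - k 0) - (j 2 - j 0) * (k 1 - k 0) := by
    simp [dd]
  set D : ℝ := (dd j k 0 1 2 : ℝ) with hD
  set a : ℝ := ((q 1 - q 0) * (k 2 - k 0) - (q 2 - q 0) * (k 1 - k 0)) / D with ha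
  set b : ℝ := (((j 1 : ℝ) - j 0) * (q 2 - q 0) - (j 2 - j 0) * (q 1 - q 0)) / D with hb
  have haD : a * D = (q 1 - q 0) * (k 2 - k 0) - (q 2 - q 0) * (k 1 - k 0) := by
    rw [ha, div_mul_cancel₀ _ hd]
  have hbD : b * D = ((j 1 : ℝ) - j 0) * (q 2 - q 0) - (j 2 - j 0) * (q 1 - q 0) := by
    rw [hb, div_mul_cancel₀ _ hd]
  set p : ℝ := q 0 - j 0 * a - k 0 * b with hp
  have e0 : p + j 0 * a + k 0 * b = q 0 := by rw [hp]; ring
  have e1 : p + j 1 * a + k 1 * b = q 1 := by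
    have : (p + j 1 * a + k 1 * b - q 1) * D = 0 := by
      have : (p + j 1 * a + k 1 * b - q 1) * D
          = (q 0 - q 1) * D + (j 1 - j 0) * (a * D) + (k 1 - k 0) * (b * D) := by
        rw [hp]; ring
      rw [this, haD, hbD, hdR]; ring
    have := (mul_eq_zero.1 this).resolve_right hd
    linarith
  have e2 : p + j 2 * a + k 2 * b = q 2 := by
    have : (p + j 2 * a + k 2 * b - q 2) * D = 0 := by
      have : (p + j 2 * a + k 2 * b - q 2) * D
          = (q 0 - q 2) * D + (j 2 - j 0) * (a * D) + (k 2 - k 0) * (b * D) := by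
        rw [hp]; ring
      rw [this, haD, hbD, hdR]; ring
    have := (mul_eq_zero.1 this).resolve_right hd
    linarith
  have e3 : p + j 3 * a + k 3 * b = q 3 := by
    have r1' : ∑ i, (N i : ℝ) = 0 := by exact_mod_cast r1
    have r2' : ∑ i, (N i : ℝ) * j i = 0 := by exact_mod_cast r2
    have r3' : ∑ i, (N i : ℝ) * k i = 0 := by exact_mod_cast r3
    rw [Fin.sum_univ_four] at r1' r2' r3' hNq
    have : (N 3 : ℝ) * (p + j 3 * a + k 3 * b - q 3) = 0 := by
      have : (N 3 : ℝ) * (p + j 3 * a + k 3 * b - q 3)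
          = p * (N 0 + N 1 + N 2 + N 3) + a * (N 0 * j 0 + N 1 * j 1 + N 2 * j 2 + N 3 * j 3)
            + b * (N 0 * k 0 + N 1 * k 1 + N 2 * k 2 + N 3 * k 3)
            - (N 0 * (p + j 0 * a + k 0 * b) + N 1 * (p + j 1 * a + k 1 * b)
              + N 2 * (p + j 2 * a + k 2 * b) + N 3 * q 3) := by ring
      rw [this, r1', r2', r3', e0, e1, e2, hNq]; ring
    have := (mul_eq_zero.1 this).resolve_left (by exact_mod_cast hN0 3)
    linarith
  refine ⟨p, a, b, fun i => ⟨m * x i, ?_⟩⟩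
  have hi : p + j i * a + k i * b = q i := by
    fin_cases i
    · exact e0
    · exact e1
    · exact e2
    · exact e3
  rw [hi]
  have : q i + ((m * x i : ℤ) : ℝ) * σ = c i := by
    simp only [hq]; push_cast; ring
  rw [this]
  exact hcl i

end Pool.Agent.TH219.DL
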