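import Pool.Agent.TH219.DL.Cone

/-!
# The weight function of the averaging argument
-/

namespace Pool.Agent.TH219.DL

open MeasureTheory ENNReal

theorem G_anti {K : Set (Fin 3 → ℝ)} (hc : Convex ℝ K) {x : Fin 2 → ℝ} {c c' : ℝ}
    (hx : x ∈ G K c) (h0 : 0 ≤ c') (h1 : c' ≤ c) : x ∈ G K c' := by
  obtain ⟨t, h2, h3⟩ := hx
  have hs := (slice_convex hc x).ordConnected.out (show t ∈ {t : ℝ | cs t x ∈ K} from h2)
    (show t + c ∈ {t : ℝ | cs t x ∈ K} from h3)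
  exact ⟨t, h2, hs ⟨by linarith, by linarith⟩⟩

theorem G_compact {K : Set (Fin 3 → ℝ)} (hK : IsCompact K) {c : ℝ} (h0 : 0 ≤ c) :
    IsCompact (G K c) := by
  have : G K c = Prod.fst '' (E K ∩ {p | p.2 = c}) := by
    ext x
    constructor
    · intro hx
      exact ⟨(x, c), ⟨⟨h0, hx⟩, rfl⟩, rfl⟩
    · rintro ⟨⟨y, d⟩, ⟨⟨_, hy⟩, hd⟩, rfl⟩
      have hd' : d = c := hd
      rw [← hd']; exact hy
  rw [this]
  exact ((E_compact hK).inter_right (isClosed_eq continuous_snd continuous_const)).image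
    continuous_fst

/-- the weight -/
noncomputable def Ph (K : Set (Fin 3 → ℝ)) (σ : ℝ) (x : Fin 2 → ℝ) : ℝ≥0∞ :=
  ENNReal.ofReal (1 / 2) * (E K).indicator 1 (x, σ)
    + ENNReal.ofReal (1 / σ) * ∫⁻ τ in Set.Ioo (σ / 2) σ, (E K).indicator 1 (x, τ)

theorem ind_meas {K : Set (Fin 3 → ℝ)} (hK : IsCompact K) :
    Measurable ((E K).indicator (1 : (Fin 2 → ℝ) × ℝ → ℝ≥0∞)) :=
  measurable_one.indicator (E_compact hK).measurableSet

theorem Ph_meas {K : Set (Fin 3 → ℝ)} (hK : IsCompact K) (σ : ℝ) : Measurable (Ph K σ) := by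
  unfold Ph
  apply Measurable.add
  · apply Measurable.const_mul
    exact (ind_meas hK).comp (measurable_id.prodMk measurable_const)
  · apply Measurable.const_mul
    exact Measurable.lintegral_prod_right' (f := (E K).indicator (1 : (Fin 2 → ℝ) × ℝ → ℝ≥0∞))
      (ind_meas hK)

theorem lint_ind {K : Set (Fin 3 → ℝ)} (hK : IsCompact K) {c : ℝ} (h0 : 0 ≤ c) :
    ∫⁻ x : Fin 2 → ℝ, (E K).indicator (1 : (Fin 2 → ℝ) × ℝ → ℝ≥0∞) (x, c) = volume (G K c) := by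
  have : (fun x : Fin 2 → ℝ => (E K).indicator (1 : (Fin 2 → ℝ) × ℝ → ℝ≥0∞) (x, c))
      = (G K c).indicator 1 := by
    funext x
    by_cases h : x ∈ G K c
    · rw [Set.indicator_of_mem h, Set.indicator_of_mem (show (x, c) ∈ E K from ⟨h0, h⟩)]
      rfl
    · rw [Set.indicator_of_notMem h, Set.indicator_of_notMem (fun h' => h h'.2)]
  rw [this, lintegral_indicator_one (G_compact hK h0).measurableSet]

theorem lint_Ph {K : Set (Fin 3 → ℝ)} (hK : IsCompact K) {σ : ℝ} (hσ : 0 < σ) :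
    ∫⁻ x, Ph K σ x = ENNReal.ofReal (1 / 2) * volume (G K σ)
      + ENNReal.ofReal (1 / σ) * ∫⁻ τ in Set.Ioo (σ / 2) σ, volume (G K τ) := by
  unfold Ph
  have m1 : Measurable fun x : Fin 2 → ℝ =>
      (E K).indicator (1 : (Fin 2 → ℝ) × ℝ → ℝ≥0∞) (x, σ) :=
    (ind_meas hK).comp (measurable_id.prodMk measurable_const)
  rw [lintegral_add_left (m1.const_mul _), lintegral_const_mul _ m1, lint_ind hK hσ.le,
    lintegral_const_mul _ (Measurable.lintegral_prod_right'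
      (f := (E K).indicator (1 : (Fin 2 → ℝ) × ℝ → ℝ≥0∞)) (ind_meas hK))]
  congr 2
  rw [lintegral_lintegral_swap]
  · apply setLIntegral_congr_fun measurableSet_Ioo
    intro τ hτ
    exact lint_ind hK (by have := hτ.1; linarith)
  · exact (ind_meas hK).aemeasurable

theorem Ph_one {K : Set (Fin 3 → ℝ)} (hc : Convex ℝ K) {σ : ℝ} (hσ : 0 < σ) {x : Fin 2 → ℝ}
    (hx : x ∈ G K σ) : 1 ≤ Ph K σ x := by
  have h1 : (E K).indicator (1 : (Fin 2 → ℝ) × ℝ → ℝ≥0∞) (x, σ) = 1 := by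
    rw [Set.indicator_of_mem (show (x, σ) ∈ E K from ⟨hσ.le, hx⟩)]; rfl
  have h2 : ∫⁻ τ in Set.Ioo (σ / 2) σ, (E K).indicator (1 : (Fin 2 → ℝ) × ℝ → ℝ≥0∞) (x, τ)
      = ENNReal.ofReal (σ / 2) := by
    have : ∫⁻ τ in Set.Ioo (σ / 2) σ, (E K).indicator (1 : (Fin 2 → ℝ) × ℝ → ℝ≥0∞) (x, τ)
        = ∫⁻ τ in Set.Ioo (σ / 2) σ, 1 := by
      apply setLIntegral_congr_fun measurableSet_Ioo
      intro τ hτ
      have h0 : 0 ≤ τ := by have := hτ.1; linarith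
      show (E K).indicator (1 : (Fin 2 → ℝ) × ℝ → ℝ≥0∞) (x, τ) = 1
      rw [Set.indicator_of_mem (show (x, τ) ∈ E K from ⟨h0, G_anti hc hx h0 hτ.2.le⟩)]; rfl
    rw [this]
    simp only [lintegral_const, one_mul, Measure.restrict_apply_univ, Real.volume_Ioo]
    congr 1; ring
  unfold Ph
  rw [h1, h2, mul_one, ← ENNReal.ofReal_mul (by positivity), ← ENNReal.ofReal_add (by norm_num)
    (by positivity)]
  have : 1 / 2 + 1 / σ * (σ / 2) = 1 := by field_simp; norm_num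
  rw [this]; simp

theorem Ph_low {K : Set (Fin 3 → ℝ)} (hc : Convex ℝ K) {σ g : ℝ} (hσ : 0 < σ) (hg : g ≤ σ)
    {x : Fin 2 → ℝ} (hx : x ∈ G K g) : ENNReal.ofReal (g / σ - 1 / 2) ≤ Ph K σ x := by
  have h2 : ENNReal.ofReal (g - σ / 2)
      ≤ ∫⁻ τ in Set.Ioo (σ / 2) σ, (E K).indicator (1 : (Fin 2 → ℝ) × ℝ → ℝ≥0∞) (x, τ) := by
    calc ENNReal.ofReal (g - σ / 2) = ∫⁻ τ in Set.Ioo (σ / 2) g, (1 : ℝ≥0∞) := by
          simp only [lintegral_const, one_mul, Measure.restrict_apply_univ, Real.volume_Ioo]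
      _ ≤ ∫⁻ τ in Set.Ioo (σ / 2) g, (E K).indicator (1 : (Fin 2 → ℝ) × ℝ → ℝ≥0∞) (x, τ) := by
          apply setLIntegral_mono' measurableSet_Ioo
          intro τ hτ
          have h0 : 0 ≤ τ := by have := hτ.1; linarith
          rw [Set.indicator_of_mem (show (x, τ) ∈ E K from ⟨h0, G_anti hc hx h0 hτ.2.le⟩)]
          exact le_rfl
      _ ≤ _ := lintegral_mono_set (Set.Ioo_subset_Ioo_right hg)
  unfold Ph
  refine le_trans ?_ le_add_self
  calc ENNReal.ofReal (g / σ - 1 / 2) = ENNReal.ofReal (1 / σ) * ENNReal.ofReal (g - σ / 2) := by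
        rw [← ENNReal.ofReal_mul (by positivity)]
        congr 1; field_simp
    _ ≤ _ := by gcongr

end Pool.Agent.TH219.DL
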