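import Mathlib

/-!
# Averaging over a planar lattice
-/

namespace Pool.Agent.TH219.DL

open MeasureTheory ENNReal

theorem pigeon (m1 m2 : Fin 2 → ℝ) (hd : 0 < m1 0 * m2 1 - m1 1 * m2 0)
    (Φ : (Fin 2 → ℝ) → ℝ≥0∞) (hΦ : Measurable Φ)
    (hlt : ∫⁻ x, Φ x < ENNReal.ofReal (m1 0 * m2 1 - m1 1 * m2 0)) :
    ∃ x : Fin 2 → ℝ, ∑' z : ℤ × ℤ, Φ (x + ((z.1 : ℝ) • m1 + (z.2 : ℝ) • m2)) < 1 := by
  classical
  set b : Fin 2 → (Fin 2 → ℝ) := ![m1, m2] with hb
  have hdet : (Matrix.of b).det = m1 0 * m2 1 - m1 1 * m2 0 := by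
    rw [Matrix.det_fin_two]; simp [hb]
  have hli : LinearIndependent ℝ b := by
    have h1 : LinearIndependent ℝ (Matrix.of b).row ↔ IsUnit (Matrix.of b) :=
      Matrix.linearIndependent_rows_iff_isUnit
    rw [Matrix.isUnit_iff_isUnit_det, isUnit_iff_ne_zero] at h1
    exact h1.2 (by rw [hdet]; exact hd.ne')
  have hc : Fintype.card (Fin 2) = Module.finrank ℝ (Fin 2 → ℝ) := by simp
  let B : Module.Basis (Fin 2) ℝ (Fin 2 → ℝ) := basisOfLinearIndependentOfCardEqFinrank hli hc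
  have hB : ⇑B = b := coe_basisOfLinearIndependentOfCardEqFinrank hli hc
  have hF := ZSpan.isAddFundamentalDomain B (volume : Measure (Fin 2 → ℝ))
  have hvol : volume (ZSpan.fundamentalDomain B) = ENNReal.ofReal (m1 0 * m2 1 - m1 1 * m2 0) := by
    rw [ZSpan.volume_fundamentalDomain, hB, hdet, abs_of_pos hd]
  have hinst : VAddInvariantMeasure (Submodule.span ℤ (Set.range B)) (Fin 2 → ℝ) volume :=
    inferInstanceAs <| VAddInvariantMeasure (Submodule.span ℤ (Set.range B)).toAddSubgroup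
      (Fin 2 → ℝ) volume
  have hsum := hF.lintegral_eq_tsum' Φ
  have hswap : ∫⁻ x in ZSpan.fundamentalDomain B, ∑' g : Submodule.span ℤ (Set.range B),
      Φ (-g +ᵥ x) < volume (ZSpan.fundamentalDomain B) := by
    rw [lintegral_tsum, ← hsum, hvol]
    · exact hlt
    · intro g
      apply Measurable.aemeasurable
      exact hΦ.comp (measurable_const_vadd _)
  have hex : ∃ x ∈ ZSpan.fundamentalDomain B, ∑' g : Submodule.span ℤ (Set.range B),
      Φ (-g +ᵥ x) < 1 := by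
    by_contra hcon
    push Not at hcon
    have : volume (ZSpan.fundamentalDomain B) ≤ ∫⁻ x in ZSpan.fundamentalDomain B,
        ∑' g : Submodule.span ℤ (Set.range B), Φ (-g +ᵥ x) := by
      calc volume (ZSpan.fundamentalDomain B) = ∫⁻ _ in ZSpan.fundamentalDomain B, 1 := by simp
        _ ≤ _ := setLIntegral_mono' (ZSpan.fundamentalDomain_measurableSet B) hcon
    exact absurd (lt_of_le_of_lt this hswap) (lt_irrefl _)
  obtain ⟨x, -, hx⟩ := hex
  refine ⟨x, lt_of_le_of_lt ?_ hx⟩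
  have hm : ∀ z : ℤ × ℤ, -((z.1 : ℝ) • m1 + (z.2 : ℝ) • m2) ∈ Submodule.span ℤ (Set.range B) := by
    intro z
    rw [hB]
    apply neg_mem
    apply add_mem
    · have : (z.1 : ℝ) • m1 = z.1 • b 0 := by rw [Int.cast_smul_eq_zsmul]; rfl
      rw [this]
      exact Submodule.smul_mem _ _ (Submodule.subset_span ⟨0, rfl⟩)
    · have : (z.2 : ℝ) • m2 = z.2 • b 1 := by rw [Int.cast_smul_eq_zsmul]; rfl
      rw [this]
      exact Submodule.smul_mem _ _ (Submodule.subset_span ⟨1, rfl⟩)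
  let f : ℤ × ℤ → Submodule.span ℤ (Set.range B) := fun z => ⟨_, hm z⟩
  have hinj : Function.Injective f := by
    intro z z' h
    have h1 : -((z.1 : ℝ) • m1 + (z.2 : ℝ) • m2) = -((z'.1 : ℝ) • m1 + (z'.2 : ℝ) • m2) :=
      congrArg Subtype.val h
    have h2 : ((z.1 : ℝ) - z'.1) • m1 + ((z.2 : ℝ) - z'.2) • m2 = 0 := by
      have := neg_injective h1
      rw [sub_smul, sub_smul]
      have h3 : (z.1 : ℝ) • m1 + (z.2 : ℝ) • m2 - ((z'.1 : ℝ) • m1 + (z'.2 : ℝ) • m2) = 0 :=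
        sub_eq_zero.2 this
      rw [← h3]; abel
    have h3 := LinearIndependent.pair_iff.1 (by simpa [hb] using hli) _ _ h2
    have e1 : z.1 = z'.1 := by exact_mod_cast sub_eq_zero.1 h3.1
    have e2 : z.2 = z'.2 := by exact_mod_cast sub_eq_zero.1 h3.2
    exact Prod.ext e1 e2
  have h := ENNReal.tsum_comp_le_tsum_of_injective hinj
    (fun g : Submodule.span ℤ (Set.range B) => Φ (-g +ᵥ x))
  refine le_trans (le_of_eq ?_) h
  apply tsum_congr
  intro z
  have : -f z +ᵥ x = x + ((z.1 : ℝ) • m1 + (z.2 : ℝ) • m2) := by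
    show -(-((z.1 : ℝ) • m1 + (z.2 : ℝ) • m2)) + x = _
    rw [neg_neg, add_comm]
  rw [this]

end Pool.Agent.TH219.DL
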