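import Pool.Agent.TH219.DL.Cols
import Pool.Agent.TH219.DL.Phi
import Pool.Agent.TH219.DL.Phase
import Pool.Agent.TH219.DL.Pigeon

/-!
# Construction of double-lattice packings
-/

namespace Pool.Agent.TH219.DL

open MeasureTheory Filter Topology
open Pool.Agent.H349R2.Tet

/-- the reflected copy `v - K` -/
def rfl' (K : Set V) (v : V) : Set V := (fun x => v - x) '' K

/-- basis with vertical shears -/
def bsh (l a b : ℝ) (u w : Fin 2 → ℝ) : Fin 3 → V := ![cs l 0, cs a u, cs b w]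

theorem dt_bsh (l a b : ℝ) (u w : Fin 2 → ℝ) :
    dt (bsh l a b u w) = l * (u 0 * w 1 - u 1 * w 0) := by
  unfold dt bsh
  rw [Matrix.det_fin_three]
  simp
  ring

theorem no_ov {K : Set V} {l a b : ℝ} {u w : Fin 2 → ℝ} (hl : 0 < l)
    (hmax : ∀ (x : Fin 2 → ℝ) (c : ℝ), 0 ≤ c → x ∈ G K c → c ≤ l)
    (hadm : Adm2 (G K 0) u w) :
    ∀ v ∈ lat (bsh l a b u w), v ≠ 0 → ¬ Ov K v := by
  rintro v ⟨z, rfl⟩ hv0 ⟨x, hx, hxv⟩
  set v : V := ∑ i, (z i : ℝ) • bsh l a b u w i with hv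
  have v0 : v 0 = z 0 * l + z 1 * a + z 2 * b := by
    rw [hv]; simp [Fin.sum_univ_three, bsh]
  have v1 : v 1 = z 1 * u 0 + z 2 * w 0 := by
    rw [hv]; simp [Fin.sum_univ_three, bsh]
  have v2 : v 2 = z 1 * u 1 + z 2 * w 1 := by
    rw [hv]; simp [Fin.sum_univ_three, bsh]
  by_cases h12 : z 1 ≠ 0 ∨ z 2 ≠ 0
  · obtain ⟨p, q, hpq, hf⟩ := hadm _ _ h12
    obtain ⟨ε, hε, hxε⟩ := interior_push hx (cs 0 ![p, q])
    have h1 : pr (x + ε • cs 0 ![p, q]) ∈ G K 0 := by
      rw [G_zero]; exact ⟨_, hxε, rfl⟩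
    have h2 : pr (x - v) ∈ G K 0 := by
      rw [G_zero]; exact ⟨_, interior_subset hxv, rfl⟩
    have h3 := hf _ h1 _ h2
    simp only [pr_zero, pr_one, Pi.add_apply, Pi.smul_apply, Pi.sub_apply, smul_eq_mul,
      cs_one, cs_two, Matrix.cons_val_zero, Matrix.cons_val_one, v1, v2] at h3
    have h4 : 0 < p ^ 2 + q ^ 2 := by
      rcases hpq with h | h
      · have := sq_pos_of_ne_zero h; positivity
      · have := sq_pos_of_ne_zero h; positivity
    nlinarith [mul_pos hε h4]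
  · push Not at h12
    obtain ⟨hz1, hz2⟩ := h12
    have v0' : v 0 = z 0 * l := by rw [v0, hz1, hz2]; simp
    have v1' : v 1 = 0 := by rw [v1, hz1, hz2]; simp
    have v2' : v 2 = 0 := by rw [v2, hz1, hz2]; simp
    have hz0 : z 0 ≠ 0 := by
      intro h0
      apply hv0
      funext i
      fin_cases i
      · show v 0 = 0
        rw [v0', h0]; simp
      · exact v1'
      · exact v2'
    rcases lt_or_gt_of_ne hz0 with h | h
    · have h' : (z 0 : ℝ) ≤ -1 := by exact_mod_cast (by omega : z 0 ≤ -1)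
      obtain ⟨ε, hε, hxε⟩ := interior_push hxv (cs 1 0)
      have hG : pr x ∈ G K (-v 0 + ε) := by
        refine ⟨x 0, ?_, ?_⟩
        · rw [cs_pr]; exact interior_subset hx
        · convert hxε using 1
          symm
          apply cs_ext
          · simp; ring
          · simp [v1']
          · simp [v2']
      have hle := hmax _ _ (by rw [v0']; nlinarith) hG
      rw [v0'] at hle
      nlinarith
    · have h' : (1 : ℝ) ≤ z 0 := by exact_mod_cast (by omega : 1 ≤ z 0)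
      obtain ⟨ε, hε, hxε⟩ := interior_push hx (cs 1 0)
      have hG : pr (x - v) ∈ G K (v 0 + ε) := by
        refine ⟨(x - v) 0, ?_, ?_⟩
        · rw [cs_pr]; exact interior_subset hxv
        · convert hxε using 1
          symm
          apply cs_ext
          · simp; ring
          · simp [v1']
          · simp [v2']
      have hle := hmax _ _ (by rw [v0']; nlinarith) hG
      rw [v0'] at hle
      nlinarith

/-- the section above a point, with the phases that avoid it -/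
theorem sec {K : Set V} (hK : IsCompact K) (hc : Convex ℝ K) {σ : ℝ} (hσ : 0 < σ)
    {y : Fin 2 → ℝ} (hy : y ∉ G K σ) :
    ∃ lo g : ℝ, 0 ≤ g ∧ g ≤ σ ∧ ENNReal.ofReal (g / σ - 1 / 2) ≤ Ph K σ y ∧
      ∀ (c : ℝ) (i : ℤ), lo ≤ c → c ≤ lo + (σ - g) → cs (c + i * σ) y ∉ interior K := by
  rcases Set.eq_empty_or_nonempty {t : ℝ | cs t y ∈ K} with he | hne
  · refine ⟨0, 0, le_rfl, hσ.le, ?_, fun c i _ _ h => ?_⟩
    · rw [ENNReal.ofReal_of_nonpos (by norm_num)]; exact bot_le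
    · have h' : cs (c + i * σ) y ∈ K := interior_subset h
      have : c + i * σ ∈ {t : ℝ | cs t y ∈ K} := h'
      rw [he] at this
      exact this
  · obtain ⟨a, ha, ham⟩ := (slice_compact hK y).exists_isLeast hne
    obtain ⟨b, hb, hbm⟩ := (slice_compact hK y).exists_isGreatest hne
    have hab : a ≤ b := ham hb
    have hG : y ∈ G K (b - a) := ⟨a, ha, by rw [add_sub_cancel]; exact hb⟩
    have hlt : b - a < σ := by
      by_contra hcon
      push Not at hcon
      exact hy (G_anti hc hG hσ.le hcon)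
    refine ⟨b - σ, b - a, by linarith, hlt.le, Ph_low hc hσ hlt.le hG, fun c i h1 h2 h => ?_⟩
    have hlow : a < c + i * σ := by
      obtain ⟨ε, hε, hxε⟩ := interior_push h (cs (-1) 0)
      have : c + i * σ - ε ∈ {t : ℝ | cs t y ∈ K} := by
        show cs _ y ∈ K
        convert hxε using 1
        symm
        apply cs_ext
        · simp; ring
        · simp
        · simp
      have := ham this
      linarith
    have hhigh : c + i * σ < b := by
      obtain ⟨ε, hε, hxε⟩ := interior_push h (cs 1 0)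
      have : c + i * σ + ε ∈ {t : ℝ | cs t y ∈ K} := by
        show cs _ y ∈ K
        convert hxε using 1
        symm
        apply cs_ext
        · simp
        · simp
        · simp
      have := hbm this
      linarith
    rcases le_or_gt i 0 with hi | hi
    · have : (i : ℝ) ≤ 0 := by exact_mod_cast hi
      nlinarith
    · have : (1 : ℝ) ≤ i := by exact_mod_cast hi
      nlinarith

theorem double_pack {K : Set V} (hK : IsCompact K) (hc : Convex ℝ K)
    {σ : ℝ} (hσ : 0 < σ)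
    (hmax : ∀ (x : Fin 2 → ℝ) (c : ℝ), 0 ≤ c → x ∈ G K c → c ≤ 2 * σ)
    {u w : Fin 2 → ℝ} (hD : 0 < u 0 * w 1 - u 1 * w 0) (hadm : Adm2 (G K 0) u w)
    (hlt : ∫⁻ x, Ph K σ x < ENNReal.ofReal ((u 0 * w 1 - u 1 * w 0) / 4)) :
    ∃ (v : V) (b : Fin 3 → V), dt b = 2 * σ * (u 0 * w 1 - u 1 * w 0) ∧
      (∀ s ∈ lat b, s ≠ 0 → ¬ Ov K s) ∧
      (∀ s ∈ lat b, Disjoint (interior K) (interior (tr (rfl' K v) s))) := by
  set m1 : Fin 2 → ℝ := (1 / 2 : ℝ) • u with hm1
  set m2 : Fin 2 → ℝ := (1 / 2 : ℝ) • w with hm2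
  have hdet : m1 0 * m2 1 - m1 1 * m2 0 = (u 0 * w 1 - u 1 * w 0) / 4 := by
    simp [hm1, hm2]; ring
  obtain ⟨x, hx⟩ := pigeon m1 m2 (by rw [hdet]; positivity) (Ph K σ) (Ph_meas hK σ)
    (by rw [hdet]; exact hlt)
  set Y : ℤ × ℤ → Fin 2 → ℝ := fun z => x + ((z.1 : ℝ) • m1 + (z.2 : ℝ) • m2) with hY
  have hYG : ∀ z, Y z ∉ G K σ := by
    intro z hz
    have h1 := Ph_one hc hσ hz
    have h2 : Ph K σ (Y z) ≤ ∑' z : ℤ × ℤ, Ph K σ (Y z) := ENNReal.le_tsum z
    exact absurd (lt_of_le_of_lt (h1.trans h2) hx) (lt_irrefl _)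
  have hsec := fun z => sec hK hc hσ (hYG z)
  choose lo g hg0 hg1 hgP hav using hsec
  -- `J z`: the vertical line over `Y z` meets the interior
  set J : ℤ × ℤ → Prop := fun z => ∃ t, cs t (Y z) ∈ interior K with hJ
  have huniq : ∀ z z', Even (z.1 - z'.1) → Even (z.2 - z'.2) → J z → J z' → z = z' := by
    rintro z z' ⟨m, hm⟩ ⟨n, hn⟩ ⟨t, ht⟩ ⟨t', ht'⟩
    by_contra hne
    have hmn : m ≠ 0 ∨ n ≠ 0 := by
      by_contra hcon
      push Not at hcon
      apply hne
      ext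
      · rw [hcon.1] at hm; omega
      · rw [hcon.2] at hn; omega
    obtain ⟨p, q, hpq, hf⟩ := hadm m n hmn
    obtain ⟨ε, hε, hxε⟩ := interior_push ht (cs 0 ![p, q])
    have h1 : pr (cs t (Y z) + ε • cs 0 ![p, q]) ∈ G K 0 := by
      rw [G_zero]; exact ⟨_, hxε, rfl⟩
    have h2 : pr (cs t' (Y z')) ∈ G K 0 := by
      rw [G_zero]; exact ⟨_, interior_subset ht', rfl⟩
    have h3 := hf _ h1 _ h2
    have hmR : (z.1 : ℝ) = z'.1 + 2 * m := by
      have : z.1 = z'.1 + 2 * m := by omega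
      rw [this]; push_cast; ring
    have hnR : (z.2 : ℝ) = z'.2 + 2 * n := by
      have : z.2 = z'.2 + 2 * n := by omega
      rw [this]; push_cast; ring
    simp only [pr_zero, pr_one, Pi.add_apply, Pi.smul_apply, smul_eq_mul,
      cs_one, cs_two, Matrix.cons_val_zero, Matrix.cons_val_one, hY, hm1, hm2, hmR, hnR] at h3
    have h4 : 0 < p ^ 2 + q ^ 2 := by
      rcases hpq with h | h
      · have := sq_pos_of_ne_zero h; positivity
      · have := sq_pos_of_ne_zero h; positivity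
    nlinarith [mul_pos hε h4]
  have hcls : ∀ Q : ℤ × ℤ → Prop, (∃ z, Q z) →
      (∀ z z', Q z → Q z' → Even (z.1 - z'.1) ∧ Even (z.2 - z'.2)) →
      ∃ z, Q z ∧ ∀ z', Q z' → J z' → z' = z := by
    rintro Q ⟨z0, hz0⟩ hQ
    by_cases h : ∃ z, Q z ∧ J z
    · obtain ⟨z, hz, hJz⟩ := h
      exact ⟨z, hz, fun z' hz' hJz' => huniq z' z (hQ _ _ hz' hz).1 (hQ _ _ hz' hz).2 hJz' hJz⟩
    · push Not at h
      exact ⟨z0, hz0, fun z' hz' hJz' => absurd hJz' (h z' hz')⟩
  obtain ⟨z0, ⟨q0a, q0b⟩, q0⟩ := hcls (fun z => Even z.1 ∧ Even z.2) ⟨(0, 0), by simp⟩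
    (fun z z' h h' => ⟨h.1.sub h'.1, h.2.sub h'.2⟩)
  obtain ⟨z1, ⟨q1a, q1b⟩, q1⟩ := hcls (fun z => Odd z.1 ∧ Even z.2) ⟨(1, 0), by simp⟩
    (fun z z' h h' => ⟨h.1.sub_odd h'.1, h.2.sub h'.2⟩)
  obtain ⟨z2, ⟨q2a, q2b⟩, q2⟩ := hcls (fun z => Even z.1 ∧ Odd z.2) ⟨(0, 1), by simp⟩
    (fun z z' h h' => ⟨h.1.sub h'.1, h.2.sub_odd h'.2⟩)
  obtain ⟨z3, ⟨q3a, q3b⟩, q3⟩ := hcls (fun z => Odd z.1 ∧ Odd z.2) ⟨(1, 1), by simp⟩
    (fun z z' h h' => ⟨h.1.sub_odd h'.1, h.2.sub_odd h'.2⟩)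
  set zz : Fin 4 → ℤ × ℤ := ![z0, z1, z2, z3] with hzz
  have hinj : Function.Injective zz := by
    have e0 : ¬ Odd z0.1 := Int.not_odd_iff_even.2 q0a
    have e0' : ¬ Odd z0.2 := Int.not_odd_iff_even.2 q0b
    have e1' : ¬ Odd z1.2 := Int.not_odd_iff_even.2 q1b
    have e2 : ¬ Odd z2.1 := Int.not_odd_iff_even.2 q2a
    intro i i' h
    fin_cases i <;> fin_cases i' <;>
      first
        | rfl
        | (exfalso
           simp only [hzz] at h
           first
            | exact e0 (by rw [show z0 = z1 from h]; exact q1a)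
            | exact e0 (by rw [show z0 = z3 from h]; exact q3a)
            | exact e0' (by rw [show z0 = z2 from h]; exact q2b)
            | exact e0 (by rw [← show z1 = z0 from h]; exact q1a)
            | exact e0 (by rw [← show z3 = z0 from h]; exact q3a)
            | exact e0' (by rw [← show z2 = z0 from h]; exact q2b)
            | exact e1' (by rw [show z1 = z2 from h]; exact q2b)
            | exact e1' (by rw [show z1 = z3 from h]; exact q3b)
            | exact e1' (by rw [← show z2 = z1 from h]; exact q2b)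
            | exact e1' (by rw [← show z3 = z1 from h]; exact q3b)
            | exact e2 (by rw [show z2 = z3 from h]; exact q3a)
            | exact e2 (by rw [← show z3 = z2 from h]; exact q3a))
  have hsumg : ∑ i, g (zz i) ≤ 3 * σ := by
    have h1 : ∑ i, ENNReal.ofReal (g (zz i) / σ - 1 / 2) < 1 := by
      calc ∑ i, ENNReal.ofReal (g (zz i) / σ - 1 / 2)
          ≤ ∑ i, Ph K σ (Y (zz i)) := Finset.sum_le_sum fun i _ => hgP (zz i)
        _ = ∑' i, Ph K σ (Y (zz i)) := (tsum_fintype _).symm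
        _ ≤ ∑' z, Ph K σ (Y z) :=
            ENNReal.tsum_comp_le_tsum_of_injective hinj (fun z => Ph K σ (Y z))
        _ < 1 := hx
    have h2 : ENNReal.ofReal (∑ i, (g (zz i) / σ - 1 / 2)) < 1 := by
      refine lt_of_le_of_lt ?_ h1
      rw [Fin.sum_univ_four, Fin.sum_univ_four]
      exact ENNReal.ofReal_add_le.trans (add_le_add (ENNReal.ofReal_add_le.trans
        (add_le_add ENNReal.ofReal_add_le le_rfl)) le_rfl)
    rw [← ENNReal.ofReal_one, ENNReal.ofReal_lt_ofReal_iff (by norm_num)] at h2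
    rw [Fin.sum_univ_four] at h2 ⊢
    have h3 : (g (zz 0) + g (zz 1) + g (zz 2) + g (zz 3)) / σ < 3 := by
      have : (g (zz 0) + g (zz 1) + g (zz 2) + g (zz 3)) / σ
        = g (zz 0) / σ - 1 / 2 + (g (zz 1) / σ - 1 / 2) + (g (zz 2) / σ - 1 / 2)
          + (g (zz 3) / σ - 1 / 2) + 2 := by ring
      rw [this]; linarith
    rw [div_lt_iff₀ hσ] at h3
    exact h3.le
  obtain ⟨π, α, β, hph⟩ := phase hσ (fun i => (zz i).1) (fun i => (zz i).2)
    (fun i => lo (zz i)) (fun i => σ - g (zz i)) (fun i => by have := hg1 (zz i); linarith)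
    (by
      rw [Finset.sum_sub_distrib]
      simp only [Finset.sum_const, Finset.card_univ, Fintype.card_fin]
      have : (4 : ℕ) • σ = 4 * σ := by simp
      rw [this]; linarith)
    ⟨q0a, q0b⟩ ⟨q1a, q1b⟩ ⟨q2a, q2b⟩ ⟨q3a, q3b⟩
  -- the hole
  have hhole : ∀ (z : ℤ × ℤ) (i : ℤ), cs (π + z.1 * α + z.2 * β + i * σ) (Y z) ∉ interior K := by
    intro z i hmem
    have hJz : J z := ⟨_, hmem⟩
    have key : ∀ r : Fin 4, z = zz r → False := by
      intro r hr
      obtain ⟨t, ht1, ht2⟩ := hph r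
      have h := hav (zz r) (π + (zz r).1 * α + (zz r).2 * β + t * σ) (i - t) ht1 ht2
      apply h
      rw [← hr]
      convert hmem using 2
      push_cast
      ring
    rcases Int.even_or_odd z.1 with h1 | h1 <;> rcases Int.even_or_odd z.2 with h2 | h2
    · exact key 0 (q0 z ⟨h1, h2⟩ hJz)
    · exact key 2 (q2 z ⟨h1, h2⟩ hJz)
    · exact key 1 (q1 z ⟨h1, h2⟩ hJz)
    · exact key 3 (q3 z ⟨h1, h2⟩ hJz)
  refine ⟨(2 : ℝ) • cs π x, bsh (2 * σ) (2 * α) (2 * β) u w, dt_bsh _ _ _ _ _,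
    no_ov (by positivity) hmax hadm, ?_⟩
  rintro s ⟨z, rfl⟩
  rw [Set.disjoint_left]
  intro X hX hX'
  set s : V := ∑ i, (z i : ℝ) • bsh (2 * σ) (2 * α) (2 * β) u w i with hs
  have hpre : tr (rfl' K ((2 : ℝ) • cs π x)) s
      = (Homeomorph.subLeft ((2 : ℝ) • cs π x + s)) ⁻¹' K := by
    ext y
    simp only [tr, rfl', Set.mem_image, Set.mem_preimage, Homeomorph.subLeft_apply]
    constructor
    · rintro ⟨_, ⟨y', hy', rfl⟩, rfl⟩
      have : (2 : ℝ) • cs π x + s - ((2 : ℝ) • cs π x - y' + s) = y' := by abel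
      rw [this]; exact hy'
    · intro hy
      refine ⟨_, ⟨_, hy, rfl⟩, ?_⟩
      abel
  rw [hpre, ← Homeomorph.preimage_interior] at hX'
  have hX2 : (2 : ℝ) • cs π x + s - X ∈ interior K := hX'
  have hmid := hc.interior hX hX2 (show (0 : ℝ) ≤ 1 / 2 by norm_num)
    (show (0 : ℝ) ≤ 1 / 2 by norm_num) (by norm_num)
  apply hhole (z 1, z 2) (z 0)
  convert hmid using 1
  symm
  apply cs_ext
  · rw [hs]
    simp [Fin.sum_univ_three, bsh]
    ring
  · rw [hs]
    simp [Fin.sum_univ_three, bsh, hY, hm1, hm2]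
    ring
  · rw [hs]
    simp [Fin.sum_univ_three, bsh, hY, hm1, hm2]
    ring

end Pool.Agent.TH219.DL
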