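import Mathlib

/-!
# Volume of a convex body in space through the sets of points with long chords
-/

namespace Pool.Agent.TH219.DL

open MeasureTheory

/-- the point of space with first coordinate `t` and the other two coordinates `x` -/
def cs (t : ℝ) (x : Fin 2 → ℝ) : Fin 3 → ℝ := Fin.cons t x

@[simp] theorem cs_zero (t : ℝ) (x : Fin 2 → ℝ) : cs t x 0 = t := rfl
@[simp] theorem cs_one (t : ℝ) (x : Fin 2 → ℝ) : cs t x 1 = x 0 := rfl
@[simp] theorem cs_two (t : ℝ) (x : Fin 2 → ℝ) : cs t x 2 = x 1 := rfl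

theorem cs_ext {y : Fin 3 → ℝ} {t : ℝ} {x : Fin 2 → ℝ} (h0 : y 0 = t) (h1 : y 1 = x 0)
    (h2 : y 2 = x 1) : y = cs t x := by
  funext i
  fin_cases i
  · exact h0
  · exact h1
  · exact h2

/-- the last two coordinates -/
def pr (y : Fin 3 → ℝ) : Fin 2 → ℝ := ![y 1, y 2]

@[simp] theorem pr_zero (y : Fin 3 → ℝ) : pr y 0 = y 1 := rfl
@[simp] theorem pr_one (y : Fin 3 → ℝ) : pr y 1 = y 2 := rfl
@[simp] theorem pr_cs (t : ℝ) (x : Fin 2 → ℝ) : pr (cs t x) = x := by
  funext i; fin_cases i <;> rfl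

theorem cs_pr (y : Fin 3 → ℝ) : cs (y 0) (pr y) = y := by
  funext i; fin_cases i <;> rfl

theorem pr_cont : Continuous pr := by
  unfold pr
  exact continuous_pi fun i => by fin_cases i <;> simp <;> fun_prop

theorem cs_cont : Continuous fun p : ℝ × (Fin 2 → ℝ) => cs p.1 p.2 := by
  refine continuous_pi fun i => ?_
  fin_cases i
  · exact continuous_fst
  · exact (continuous_apply 0).comp continuous_snd
  · exact (continuous_apply 1).comp continuous_snd

/-- points over which `K` has a vertical chord of length `c` -/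
def G (K : Set (Fin 3 → ℝ)) (c : ℝ) : Set (Fin 2 → ℝ) :=
  {x | ∃ t, cs t x ∈ K ∧ cs (t + c) x ∈ K}

theorem mem_G {K : Set (Fin 3 → ℝ)} {c : ℝ} {x : Fin 2 → ℝ} :
    x ∈ G K c ↔ ∃ t, cs t x ∈ K ∧ cs (t + c) x ∈ K := Iff.rfl

theorem vol_slices {K : Set (Fin 3 → ℝ)} (hK : MeasurableSet K) :
    volume K = ∫⁻ x : Fin 2 → ℝ, volume {t : ℝ | cs t x ∈ K} := by
  have h := volume_preserving_piFinSuccAbove (fun _ : Fin 3 => ℝ) 0
  have h2 := (h.symm _).measure_preimage hK.nullMeasurableSet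
  rw [← h2]
  have hm : MeasurableSet ((MeasurableEquiv.piFinSuccAbove (fun _ : Fin 3 => ℝ) 0).symm ⁻¹' K) :=
    (MeasurableEquiv.measurable _) hK
  have h3 := Measure.prod_apply_symm (μ := (volume : Measure ℝ))
    (ν := (volume : Measure (Fin 2 → ℝ))) hm
  rw [Measure.volume_eq_prod]
  refine Eq.trans h3 ?_
  apply lintegral_congr
  intro x
  congr 1
  ext t
  simp only [Set.mem_preimage, Set.mem_setOf_eq]
  have : (MeasurableEquiv.piFinSuccAbove (fun _ : Fin 3 => ℝ) 0).symm (t, x) = cs t x := by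
    funext i
    fin_cases i <;> rfl
  rw [this]

theorem seg_vol {S : Set ℝ} (hS : IsCompact S) (hc : Convex ℝ S) :
    volume {c : ℝ | 0 ≤ c ∧ ∃ t, t ∈ S ∧ t + c ∈ S} ≤ volume S := by
  rcases S.eq_empty_or_nonempty with rfl | hne
  · simp
  · obtain ⟨a, ha, ham⟩ := hS.exists_isLeast hne
    obtain ⟨b, hb, hbm⟩ := hS.exists_isGreatest hne
    have h1 : Set.Icc a b ⊆ S := by
      have := hc.ordConnected.out ha hb
      exact this
    have h2 : {c : ℝ | 0 ≤ c ∧ ∃ t, t ∈ S ∧ t + c ∈ S} ⊆ Set.Icc 0 (b - a) := by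
      rintro c ⟨hc0, t, ht, htc⟩
      exact ⟨hc0, by linarith [ham ht, hbm htc]⟩
    calc volume {c : ℝ | 0 ≤ c ∧ ∃ t, t ∈ S ∧ t + c ∈ S} ≤ volume (Set.Icc 0 (b - a)) :=
          measure_mono h2
      _ = volume (Set.Icc a b) := by rw [Real.volume_Icc, Real.volume_Icc, sub_zero]
      _ ≤ volume S := measure_mono h1

theorem slice_compact {K : Set (Fin 3 → ℝ)} (hK : IsCompact K) (x : Fin 2 → ℝ) :
    IsCompact {t : ℝ | cs t x ∈ K} := by
  have : {t : ℝ | cs t x ∈ K} = (fun y : Fin 3 → ℝ => y 0) '' (K ∩ {y | pr y = x}) := by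
    ext t
    constructor
    · intro ht
      exact ⟨cs t x, ⟨ht, pr_cs t x⟩, rfl⟩
    · rintro ⟨y, ⟨hy, hyx⟩, rfl⟩
      have hyx' : pr y = x := hyx
      show cs (y 0) x ∈ K
      rw [← hyx', cs_pr]; exact hy
  rw [this]
  apply IsCompact.image _ (continuous_apply 0)
  exact hK.inter_right (isClosed_eq pr_cont continuous_const)

theorem slice_convex {K : Set (Fin 3 → ℝ)} (hK : Convex ℝ K) (x : Fin 2 → ℝ) :
    Convex ℝ {t : ℝ | cs t x ∈ K} := by
  intro s hs t ht a b ha hb hab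
  have h := hK hs ht ha hb hab
  have e : a • cs s x + b • cs t x = cs (a • s + b • t) x := by
    apply cs_ext
    · simp
    · simp only [Pi.add_apply, Pi.smul_apply, cs_one, smul_eq_mul]
      rw [← add_mul, hab, one_mul]
    · simp only [Pi.add_apply, Pi.smul_apply, cs_two, smul_eq_mul]
      rw [← add_mul, hab, one_mul]
  rw [e] at h
  exact h

/-- the set of pairs `(x, c)` with `0 ≤ c` and a chord of length `c` over `x` -/
def E (K : Set (Fin 3 → ℝ)) : Set ((Fin 2 → ℝ) × ℝ) := {p | 0 ≤ p.2 ∧ p.1 ∈ G K p.2}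

theorem E_compact {K : Set (Fin 3 → ℝ)} (hK : IsCompact K) : IsCompact (E K) := by
  have : E K = (fun p : (Fin 3 → ℝ) × (Fin 3 → ℝ) => (pr p.1, p.2 0 - p.1 0)) ''
      ((K ×ˢ K) ∩ {p | pr p.1 = pr p.2 ∧ p.1 0 ≤ p.2 0}) := by
    ext ⟨x, c⟩
    constructor
    · rintro ⟨h0, t, h1, h2⟩
      refine ⟨(cs t x, cs (t + c) x), ⟨⟨h1, h2⟩, ?_, ?_⟩, ?_⟩
      · simp
      · simpa using h0
      · simp
    · rintro ⟨⟨y, z⟩, ⟨⟨hy, hz⟩, h1, h2⟩, h3⟩
      simp only [Prod.mk.injEq] at h3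
      obtain ⟨rfl, rfl⟩ := h3
      have h1' : pr y = pr z := h1
      have h2' : y 0 ≤ z 0 := h2
      refine ⟨by simpa using h2', y 0, ?_, ?_⟩
      · rw [cs_pr]; exact hy
      · rw [add_sub_cancel, h1', cs_pr]; exact hz
  rw [this]
  apply IsCompact.image
  · apply (hK.prod hK).inter_right
    apply IsClosed.inter
    · exact isClosed_eq (pr_cont.comp continuous_fst) (pr_cont.comp continuous_snd)
    · exact isClosed_le ((continuous_apply 0).comp continuous_fst)
        ((continuous_apply 0).comp continuous_snd)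
  · exact (pr_cont.comp continuous_fst).prodMk
      (((continuous_apply 0).comp continuous_snd).sub ((continuous_apply 0).comp continuous_fst))

theorem vol_ge {K : Set (Fin 3 → ℝ)} (hK : IsCompact K) (hc : Convex ℝ K) :
    ∫⁻ c in Set.Ici (0 : ℝ), volume (G K c) ≤ volume K := by
  have hE := (E_compact hK).measurableSet
  have h1 := Measure.prod_apply (μ := (volume : Measure (Fin 2 → ℝ)))
    (ν := (volume : Measure ℝ)) hE
  have h2 := Measure.prod_apply_symm (μ := (volume : Measure (Fin 2 → ℝ)))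
    (ν := (volume : Measure ℝ)) hE
  rw [vol_slices hK.measurableSet]
  have h3 : ∫⁻ c in Set.Ici (0 : ℝ), volume (G K c)
      = ∫⁻ c : ℝ, volume ((fun x => (x, c)) ⁻¹' E K) := by
    rw [← lintegral_indicator measurableSet_Ici]
    apply lintegral_congr
    intro c
    by_cases h : 0 ≤ c
    · rw [Set.indicator_of_mem (show c ∈ Set.Ici (0 : ℝ) from h)]
      congr 1
      ext x
      exact ⟨fun hx => ⟨h, hx⟩, fun hx => hx.2⟩
    · rw [Set.indicator_of_notMem (show c ∉ Set.Ici (0 : ℝ) from h)]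
      have : (fun x => (x, c)) ⁻¹' E K = ∅ := by
        ext x
        simp only [Set.mem_preimage, Set.mem_empty_iff_false, iff_false]
        exact fun hx => h hx.1
      rw [this, measure_empty]
  rw [h3, ← h2, h1]
  apply lintegral_mono
  intro x
  exact seg_vol (slice_compact hK x) (slice_convex hc x)

end Pool.Agent.TH219.DL
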