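import Pool.Agent.TH219.DL.Bridge

/-!
# Packings by congruent copies in Euclidean space
-/

namespace Pool.Agent.TH219.DL

open MeasureTheory Filter
open scoped ENNReal
open Pool.Agent.H349R2.Tet

/-- an actual packing of density at least `0.412` -/
theorem double_ex {K : Set V} (hK : Body K) : ∃ (v : V) (b : Fin 3 → V), LinearIndependent ℝ b ∧
    IsPack K (famLs v b) ∧ ENNReal.ofReal 0.412 ≤ den K (famLs v b) := by
  obtain ⟨hKc, hc, hne⟩ := hK
  obtain ⟨v, b, hb0, h1, h2, h3⟩ := double_low hKc hc hne
  have hli : LinearIndependent ℝ b := (dt_ne_zero_iff b).1 hb0.ne'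
  refine ⟨v, b, hli, famLs_pack h1 h2, ?_⟩
  refine le_trans ?_ (den_famLs K v b)
  rw [dens_eq b hli _ (hKc.union (rfl_compact hKc v)), abs_of_pos hb0]
  rw [ENNReal.le_div_iff_mul_le (Or.inl (by
    rw [ne_eq, ENNReal.ofReal_eq_zero, not_le]; exact hb0)) (Or.inl ENNReal.ofReal_ne_top)]
  refine h3.trans ?_
  have hd : Disjoint (interior K) (interior (rfl' K v)) := by
    have := h2 0 (pack_zero_mem b)
    have e : tr (rfl' K v) 0 = rfl' K v := by unfold tr; simp
    rwa [e] at this
  have hrc : Convex ℝ (rfl' K v) := by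
    rintro _ ⟨x, hx, rfl⟩ _ ⟨y, hy, rfl⟩ α β hα hβ hαβ
    refine ⟨α • x + β • y, hc hx hy hα hβ hαβ, ?_⟩
    have e : v = α • v + β • v := by rw [← add_smul, hαβ, one_smul]
    simp only [smul_sub]
    nth_rewrite 1 [e]
    abel
  calc 2 * volume K = volume (interior K) + volume (interior (rfl' K v)) := by
        rw [vol_int hc, vol_int hrc, vol_rfl hKc.measurableSet, two_mul]
    _ = volume (interior K ∪ interior (rfl' K v)) :=
        (measure_union hd isOpen_interior.measurableSet).symm
    _ ≤ volume (K ∪ rfl' K v) :=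
        measure_mono (Set.union_subset_union interior_subset interior_subset)

/-- the coordinates of a point of Euclidean space -/
noncomputable def L3 : EuclideanSpace ℝ (Fin 3) ≃L[ℝ] V := EuclideanSpace.equiv (Fin 3) ℝ

theorem L3_apply (x : EuclideanSpace ℝ (Fin 3)) : L3 x = WithLp.ofLp x := rfl

/-- the isometry `x ↦ x + c` or `x ↦ c - x` -/
noncomputable def iso (p : Bool × V) : EuclideanSpace ℝ (Fin 3) ≃ᵢ EuclideanSpace ℝ (Fin 3) :=
  if p.1 = true then IsometryEquiv.subLeft (L3.symm p.2) else IsometryEquiv.addRight (L3.symm p.2)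

theorem L3_iso (K : Set (EuclideanSpace ℝ (Fin 3))) (p : Bool × V) :
    L3 '' (iso p '' K) = mem (L3 '' K) p := by
  unfold mem
  rw [← Set.image_comp, ← Set.image_comp]
  apply Set.image_congr
  intro x _
  obtain ⟨s, c⟩ := p
  cases s
  · simp [iso, Function.comp]
  · simp only [iso, Function.comp, if_true, IsometryEquiv.subLeft_apply, map_sub,
      ContinuousLinearEquiv.apply_symm_apply]
    abel

theorem pre_image (A : Set (EuclideanSpace ℝ (Fin 3))) : (WithLp.ofLp) ⁻¹' (L3 '' A) = A := by
  ext x
  constructor
  · rintro ⟨y, hy, hxy⟩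
    have : y = x := L3.injective hxy
    rwa [← this]
  · intro hx
    exact ⟨x, hx, rfl⟩

theorem pre_Bl {R : ℝ} (hR : 0 ≤ R) :
    (WithLp.ofLp) ⁻¹' (Bl R) = Metric.closedBall (0 : EuclideanSpace ℝ (Fin 3)) R := by
  ext x
  rw [Set.mem_preimage, mem_closedBall_zero_iff, EuclideanSpace.norm_eq, Real.sqrt_le_left hR]
  show x.ofLp 0 ^ 2 + x.ofLp 1 ^ 2 + x.ofLp 2 ^ 2 ≤ R ^ 2 ↔ _
  rw [Fin.sum_univ_three]
  simp only [Real.norm_eq_abs, sq_abs]

theorem vol_E {T : Set V} (hT : NullMeasurableSet T volume) :
    volume ((WithLp.ofLp : EuclideanSpace ℝ (Fin 3) → V) ⁻¹' T) = volume T :=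
  (PiLp.volume_preserving_ofLp (Fin 3)).measure_preimage hT

theorem ulam_aux (K : Set (EuclideanSpace ℝ (Fin 3))) (hK : IsCompact K) (hc : Convex ℝ K)
    (hne : (interior K).Nonempty) :
    ∃ f : ℕ → (EuclideanSpace ℝ (Fin 3) ≃ᵢ EuclideanSpace ℝ (Fin 3)),
      (∀ i, ∃ a, (∀ x, f i x = x + a) ∨ (∀ x, f i x = a - x)) ∧
      (∀ i j : ℕ, i ≠ j → Disjoint (interior ((f i) '' K)) (interior ((f j) '' K))) ∧
      ENNReal.ofReal 0.412 ≤ Filter.limsup (fun R : ℝ =>
        volume ((⋃ i : ℕ, (f i) '' K) ∩ Metric.ball (0 : EuclideanSpace ℝ (Fin 3)) R) /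
          volume (Metric.ball (0 : EuclideanSpace ℝ (Fin 3)) R)) Filter.atTop := by
  have hint : ∀ A : Set (EuclideanSpace ℝ (Fin 3)), interior (L3 '' A) = L3 '' interior A := by
    intro A
    exact (L3.toHomeomorph.image_interior A).symm
  have hB : Body (L3 '' K) := by
    refine ⟨hK.image L3.continuous, hc.linear_image L3.toLinearMap, ?_⟩
    rw [hint]; exact hne.image _
  obtain ⟨v, b, hli, hpack, hden⟩ := double_ex hB
  -- enumeration
  have hcount : (famLs v b).Countable := by
    have : famLs v b ⊆ (fun u : V => (false, u)) '' lat b ∪ (fun u : V => (true, v + u)) '' lat b := by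
      rintro ⟨s, c⟩ (⟨hs, hc⟩ | ⟨hs, u, hu, hc⟩)
      · left; exact ⟨c, hc, by rw [show s = false from hs]⟩
      · right; exact ⟨u, hu, by rw [show s = true from hs, show c = v + u from hc]⟩
    exact (((lat_countable b).image _).union ((lat_countable b).image _)).mono this
  have hinf : (famLs v b).Infinite := by
    apply Set.infinite_of_injective_forall_mem (f := fun n : ℕ => ((false, (n : ℝ) • b 0) : Bool × V))
    · intro m n hmn
      have h : (m : ℝ) • b 0 = (n : ℝ) • b 0 := congrArg Prod.snd hmn
      have h0 : b 0 ≠ 0 := hli.ne_zero 0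
      have := smul_left_injective ℝ h0 h
      exact_mod_cast this
    · intro n
      refine Or.inl ⟨rfl, ?_⟩
      refine ⟨fun i => if i = 0 then (n : ℤ) else 0, ?_⟩
      rw [Fin.sum_univ_three]
      simp
  obtain ⟨hD⟩ := Set.countable_infinite_iff_nonempty_denumerable.1 ⟨hcount, hinf⟩
  let e : ℕ ≃ famLs v b := (Denumerable.eqv (famLs v b)).symm
  have hdisj : ∀ i j : ℕ, i ≠ j →
      Disjoint (interior (iso (e i).1 '' K)) (interior (iso (e j).1 '' K)) := by
    intro i j hij
    have h := hpack (e i).1 (e i).2 (e j).1 (e j).2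
      (fun h => hij (e.injective (Subtype.ext h)))
    rw [← L3_iso, ← L3_iso, hint, hint] at h
    exact (Set.disjoint_image_iff L3.injective).1 h
  refine ⟨fun i => iso (e i).1, ?_, hdisj, hden.trans ?_⟩
  · intro i
    refine ⟨L3.symm (e i).1.2, ?_⟩
    cases hs : (e i).1.1
    · left; intro x; simp [iso, hs]
    · right; intro x; simp [iso, hs]
  · unfold den
    refine limsup_le_limsup ?_ Filter.isCobounded_le_of_bot Filter.isBounded_le_of_top
    filter_upwards [eventually_gt_atTop (0 : ℝ)] with R hR
    -- denominators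
    have h1 : volume (Metric.ball (0 : EuclideanSpace ℝ (Fin 3)) R) ≤ volume (Bl R) := by
      rw [← vol_E (bl_measurable R).nullMeasurableSet, pre_Bl hR.le]
      exact measure_mono Metric.ball_subset_closedBall
    -- numerators
    have h2 : ∀ p : Bool × V, volume (mem (L3 '' K) p ∩ Bl R) ≤
        volume (interior (iso p '' K) ∩ Metric.ball (0 : EuclideanSpace ℝ (Fin 3)) R) := by
      intro p
      have hcomp : IsCompact (iso p '' K) := hK.image (iso p).continuous
      have hconv : Convex ℝ (iso p '' K) := by
        obtain ⟨s, c⟩ := p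
        cases s
        · have : iso (false, c) '' K = (fun x => L3.symm c + x) '' K := by
            apply Set.image_congr; intro x _; simp [iso, add_comm]
          rw [this]
          exact hc.translate _
        · have : iso (true, c) '' K = (fun x => L3.symm c + x) '' ((fun x => -x) '' K) := by
            rw [← Set.image_comp]
            apply Set.image_congr; intro x _; simp [iso, sub_eq_add_neg]
          rw [this]
          apply Convex.translate
          exact hc.linear_image (-LinearMap.id)
      rw [← L3_iso, ← vol_E ((hcomp.image L3.continuous).measurableSet.inter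
        (bl_measurable R)).nullMeasurableSet, Set.preimage_inter, pre_image, pre_Bl hR.le]
      calc volume (iso p '' K ∩ Metric.closedBall 0 R)
          ≤ volume ((interior (iso p '' K) ∩ Metric.ball 0 R) ∪
              (frontier (iso p '' K) ∪ Metric.sphere 0 R)) := by
            apply measure_mono
            rintro x ⟨hx1, hx2⟩
            by_cases h3 : x ∈ frontier (iso p '' K)
            · exact Or.inr (Or.inl h3)
            by_cases h4 : x ∈ Metric.sphere (0 : EuclideanSpace ℝ (Fin 3)) R
            · exact Or.inr (Or.inr h4)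
            refine Or.inl ⟨?_, ?_⟩
            · by_contra h5
              exact h3 ⟨subset_closure hx1, h5⟩
            · rw [Metric.mem_ball]
              rw [Metric.mem_closedBall] at hx2
              rw [Metric.mem_sphere] at h4
              exact lt_of_le_of_ne hx2 h4
        _ ≤ volume (interior (iso p '' K) ∩ Metric.ball 0 R) +
            (volume (frontier (iso p '' K)) + volume (Metric.sphere (0 : EuclideanSpace ℝ (Fin 3)) R)) :=
            (measure_union_le _ _).trans (by gcongr; exact measure_union_le _ _)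
        _ = _ := by
            rw [hconv.addHaar_frontier volume, Measure.addHaar_sphere]
            simp
    calc (∑' p : famLs v b, volume (mem (L3 '' K) p.1 ∩ Bl R)) / volume (Bl R)
        ≤ (∑' p : famLs v b, volume (interior (iso p.1 '' K) ∩
            Metric.ball (0 : EuclideanSpace ℝ (Fin 3)) R)) /
          volume (Metric.ball (0 : EuclideanSpace ℝ (Fin 3)) R) :=
          ENNReal.div_le_div (ENNReal.tsum_le_tsum fun p => h2 p.1) h1
      _ = (∑' i : ℕ, volume (interior (iso (e i).1 '' K) ∩
            Metric.ball (0 : EuclideanSpace ℝ (Fin 3)) R)) /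
          volume (Metric.ball (0 : EuclideanSpace ℝ (Fin 3)) R) := by
          rw [e.tsum_eq (fun p : famLs v b => volume (interior (iso p.1 '' K) ∩
            Metric.ball (0 : EuclideanSpace ℝ (Fin 3)) R))]
      _ = volume (⋃ i : ℕ, (interior (iso (e i).1 '' K) ∩
            Metric.ball (0 : EuclideanSpace ℝ (Fin 3)) R)) /
          volume (Metric.ball (0 : EuclideanSpace ℝ (Fin 3)) R) := by
          rw [measure_iUnion]
          · intro i j hij
            exact (hdisj i j hij).mono Set.inter_subset_left Set.inter_subset_left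
          · intro i
            exact (isOpen_interior.inter Metric.isOpen_ball).measurableSet
      _ ≤ _ := by
          apply ENNReal.div_le_div_right
          apply measure_mono
          rw [Set.iUnion_inter]
          exact Set.iUnion_mono fun i => Set.inter_subset_inter_left _ interior_subset

end Pool.Agent.TH219.DL
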